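import Pool.Agent.N17.CO.Stm

set_option autoImplicit false

/-!
# Project CO: products over simple alternating cycles (helper152)
-/

namespace Pool.Agent.N17.CO

open MvPolynomial Pool.Agent.W649.ZL

namespace A3

variable {V E : Type} {s t : E → V}

lemma walk_append {x y : V} {W1 W2 : List E} (h : Walk s t x (W1 ++ W2) y) :
    ∃ z, Walk s t x W1 z ∧ Walk s t z W2 y := by
  induction W1 generalizing x with
  | nil => exact ⟨x, rfl, h⟩
  | cons e W1 ih =>
    obtain ⟨h1, h2⟩ := h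
    obtain ⟨z, h3, h4⟩ := ih h2
    exact ⟨z, ⟨h1, h3⟩, h4⟩

/-- a simple closed walk which contains a loop -/
lemma loop {x0 : V} {W : List E} (hW : Walk s t x0 W x0) (hn : (W.map s).Nodup) {i : E}
    (hi : i ∈ W) (hti : t i = s i) : W = [i] := by
  obtain ⟨W1, W2, rfl⟩ := List.append_of_mem hi
  obtain ⟨z, h1, h2⟩ := walk_append hW
  obtain ⟨h3, h4⟩ := h2
  rw [List.map_append, List.map_cons] at hn
  have hn2 := (List.nodup_append.1 hn).2.1
  have hn3 := (List.nodup_append.1 hn).2.2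
  rw [List.nodup_cons] at hn2
  have hW2 : W2 = [] := by
    cases W2 with
    | nil => rfl
    | cons e W2 =>
      exfalso
      apply hn2.1
      have h5 : s e = s i := h4.1.trans hti
      rw [← h5, List.map_cons]
      exact List.mem_cons_self
  subst hW2
  have hx0 : t i = x0 := h4
  have hW1 : W1 = [] := by
    cases W1 with
    | nil => rfl
    | cons e W1 =>
      exfalso
      have h5 : s e = s i := by rw [h1.1, ← hti, hx0]
      exact hn3 (s e) (by rw [List.map_cons]; exact List.mem_cons_self) (s i)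
        (List.mem_cons_self) h5
  subst hW1
  rfl

end A3

open A3 in
theorem t_A3 : S_CYCK → S_SWAP → S_POLY → S_A3 := by
  classical
  intro hCYCK hSWAP hPOLY G K L ι _ _ _ _ _ _ h k j d π r s htf hHg hπ U μ hUd hMt tg x0 W hW
    hwalk hnd
  by_contra hprod
  have hinf := htf _ hprod
  have hWne : W ≠ [] := by
    rintro rfl
    exact hprod (by simp)
  -- (a)
  have ha : ∀ i ∈ W, i ≠ μ (k i) := by
    intro i hi hcon
    obtain ⟨h1, h2, h3, _⟩ := hW i hi
    have h4 : k i = tg i := by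
      refine hMt.inj _ _ h1 h2 ?_
      rw [← hcon, h3]
    have h5 := loop hwalk hnd hi h4.symm
    apply hprod
    rw [h5, List.map_singleton, List.prod_singleton, ← h4, ← hcon, mul_inv_cancel]
  -- (b)
  obtain ⟨w, hw⟩ : ∃ w : ι → ℂ, w = fun i =>
    if ∃ x, x ∉ U ∧ (∀ e ∈ W, k e ≠ x) ∧ i = μ x then 1 else 0 := ⟨_, rfl⟩
  obtain ⟨u, hu⟩ : ∃ u : ι → ℂ, u = fun i =>
    if ∃ x, x ∉ U ∧ (∃ e ∈ W, k e = x) ∧ i = μ x then 1 else 0 := ⟨_, rfl⟩
  obtain ⟨v, hv⟩ : ∃ v : ι → ℂ, v = fun i => if i ∈ W then 1 else 0 := ⟨_, rfl⟩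
  have hw1 : ∀ i, (∃ x, x ∉ U ∧ (∀ e ∈ W, k e ≠ x) ∧ i = μ x) → w i = 1 := fun i hi => by
    rw [hw]; exact if_pos hi
  have hw0 : ∀ i, ¬ (∃ x, x ∉ U ∧ (∀ e ∈ W, k e ≠ x) ∧ i = μ x) → w i = 0 := fun i hi => by
    rw [hw]; exact if_neg hi
  have hu1 : ∀ i, (∃ x, x ∉ U ∧ (∃ e ∈ W, k e = x) ∧ i = μ x) → u i = 1 := fun i hi => by
    rw [hu]; exact if_pos hi
  have hu0 : ∀ i, ¬ (∃ x, x ∉ U ∧ (∃ e ∈ W, k e = x) ∧ i = μ x) → u i = 0 := fun i hi => by
    rw [hu]; exact if_neg hi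
  have hv1 : ∀ i, i ∈ W → v i = 1 := fun i hi => by
    rw [hv]; exact if_pos hi
  have hv0 : ∀ i, i ∉ W → v i = 0 := fun i hi => by
    rw [hv]; exact if_neg hi
  have hWw : ∀ i ∈ W, w i = 0 := by
    intro i hi
    refine hw0 i ?_
    rintro ⟨x, hx, h1, h2⟩
    apply h1 i hi
    rw [h2, hMt.row x hx]
  have hWu : ∀ i ∈ W, u i = 0 := by
    intro i hi
    refine hu0 i ?_
    rintro ⟨x, hx, h1, h2⟩
    apply ha i hi
    have h3 : k i = x := by rw [h2, hMt.row x hx]
    rw [h3]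
    exact h2
  have hcyc : ∀ t : ℂ, (fun i => if i ∈ W then t else if (∃ x, x ∉ U ∧ i = μ x) then 1 else 0) =
      w + u + t • v := by
    intro t
    funext i
    rw [Pi.add_apply, Pi.add_apply, Pi.smul_apply, smul_eq_mul]
    by_cases hi : i ∈ W
    · rw [if_pos hi, hWw i hi, hWu i hi, hv1 i hi]
      ring
    · rw [if_neg hi, hv0 i hi]
      by_cases hx : ∃ x, x ∉ U ∧ i = μ x
      · rw [if_pos hx]
        obtain ⟨x, hxU, hxi⟩ := hx
        by_cases hs : ∃ e ∈ W, k e = x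
        · rw [hu1 i ⟨x, hxU, hs, hxi⟩, hw0 i]
          · ring
          · rintro ⟨x', hx', h1, h2⟩
            obtain ⟨e, he, hex⟩ := hs
            apply h1 e he
            rw [hex, ← hMt.row x hxU, ← hxi, h2, hMt.row x' hx']
        · rw [hu0 i, hw1 i ⟨x, hxU, fun e he hex => hs ⟨e, he, hex⟩, hxi⟩]
          · ring
          · rintro ⟨x', hx', h1, h2⟩
            apply hs
            have h3 : x' = x := by rw [← hMt.row x' hx', ← h2, hxi, hMt.row x hxU]
            rw [← h3]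
            exact h1
      · rw [if_neg hx, hu0 i, hw0 i]
        · ring
        · rintro ⟨x, hxU, _, hxi⟩
          exact hx ⟨x, hxU, hxi⟩
        · rintro ⟨x, hxU, _, hxi⟩
          exact hx ⟨x, hxU, hxi⟩
  have hnz : ∀ y : ℂ, eval (w + u + y • v) π ≠ 0 := by
    intro y
    apply hπ
    have h1 := hCYCK G K L ι h k j U μ hMt tg x0 W
      (fun i hi => ⟨(hW i hi).1, (hW i hi).2.1, (hW i hi).2.2.1, ha i hi⟩) hwalk hnd hinf y
    rw [hcyc y] at h1
    rw [← hUd]
    exact h1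
  -- (c)
  obtain ⟨R, hR⟩ : ∃ R : ℕ, R = ∑ x, if ∃ e ∈ W, k e = x then r x else 0 := ⟨_, rfl⟩
  have hR0 : 0 < R := by
    obtain ⟨e, he⟩ := List.exists_mem_of_ne_nil W hWne
    have h1 : r (k e) ≤ R := by
      rw [hR]
      have h2 := Finset.single_le_sum (f := fun x => if ∃ e ∈ W, k e = x then r x else 0)
        (fun _ _ => Nat.zero_le _) (Finset.mem_univ (k e))
      refine le_trans (le_of_eq ?_) h2
      show r (k e) = if ∃ e' ∈ W, k e' = k e then r (k e) else 0
      rw [if_pos ⟨e, he, rfl⟩]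
    exact lt_of_lt_of_le (hW e he).2.2.2 h1
  have hhom : ∀ c x y : ℂ, eval (w + (c * x) • u + (c * y) • v) π =
      c ^ R * eval (w + x • u + y • v) π := by
    intro c x y
    have h1 := hHg (fun z => if ∃ e ∈ W, k e = z then c else 1) (fun _ => 1) (w + x • u + y • v)
    have h2 : (∏ z, (if ∃ e ∈ W, k e = z then c else 1) ^ r z) = c ^ R := by
      rw [hR, ← Finset.prod_pow_eq_pow_sum]
      refine Finset.prod_congr rfl fun z _ => ?_
      by_cases hz : ∃ e ∈ W, k e = z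
      · rw [if_pos hz, if_pos hz]
      · rw [if_neg hz, if_neg hz, one_pow, pow_zero]
    have h3 : (∏ y : L, (1 : ℂ) ^ s y) = 1 := by simp
    rw [h2, h3, mul_one] at h1
    rw [← h1]
    congr 1
    congr 1
    funext i
    simp only [Pi.add_apply, Pi.smul_apply, smul_eq_mul, mul_one]
    have e1 : (if ∃ e ∈ W, k e = k i then c else 1) * w i = w i := by
      by_cases hi : ∃ x, x ∉ U ∧ (∀ e ∈ W, k e ≠ x) ∧ i = μ x
      · rw [hw1 i hi, if_neg, one_mul]
        obtain ⟨x', hx', h4, h5⟩ := hi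
        rintro ⟨e, he, hex⟩
        apply h4 e he
        rw [hex, h5, hMt.row x' hx']
      · rw [hw0 i hi, mul_zero]
    have e2 : (if ∃ e ∈ W, k e = k i then c else 1) * u i = c * u i := by
      by_cases hi : ∃ x, x ∉ U ∧ (∃ e ∈ W, k e = x) ∧ i = μ x
      · rw [if_pos]
        obtain ⟨x', hx', ⟨e, he, hex⟩, h5⟩ := hi
        refine ⟨e, he, ?_⟩
        rw [hex, h5, hMt.row x' hx']
      · rw [hu0 i hi, mul_zero, mul_zero]
    have e3 : (if ∃ e ∈ W, k e = k i then c else 1) * v i = c * v i := by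
      by_cases hi : i ∈ W
      · rw [if_pos ⟨i, hi, rfl⟩]
      · rw [hv0 i hi, mul_zero, mul_zero]
    linear_combination -e1 - x * e2 - y * e3
  -- (d)
  have hzero := hPOLY ι π w u v R hR0 hhom hnz
  -- (e)
  obtain ⟨μ', hM1, hM2, hM3⟩ := hSWAP K L ι k j U μ hMt tg x0 W
    (fun i hi => ⟨(hW i hi).1, (hW i hi).2.1, (hW i hi).2.2.1⟩) hwalk hnd
  obtain ⟨M', hM'⟩ : ∃ M' : Finset ι, M' = (Finset.univ \ U).image μ' := ⟨_, rfl⟩
  have hM'm : ∀ i, i ∈ M' ↔ ∃ x, x ∉ U ∧ μ' x = i := by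
    intro i
    rw [hM', Finset.mem_image]
    simp
  have hwv : w + v = fun i => if i ∈ M' then 1 else 0 := by
    funext i
    rw [Pi.add_apply]
    by_cases hi : i ∈ M'
    · rw [if_pos hi]
      obtain ⟨x, hx, rfl⟩ := (hM'm i).1 hi
      by_cases hs : ∃ e ∈ W, k e = x
      · obtain ⟨e, he, rfl⟩ := hs
        rw [hM2 e he, hWw e he, hv1 e he, zero_add]
      · have hs' : ∀ e ∈ W, k e ≠ x := fun e he hex => hs ⟨e, he, hex⟩
        rw [hM3 x hs', hw1 (μ x) ⟨x, hx, hs', rfl⟩, hv0, add_zero]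
        intro hW'
        apply hs' _ hW'
        exact hMt.row x hx
    · rw [if_neg hi, hw0, hv0, add_zero]
      · intro hW'
        exact hi ((hM'm i).2 ⟨k i, (hW i hW').1, hM2 i hW'⟩)
      · rintro ⟨x, hx, h1, h2⟩
        exact hi ((hM'm i).2 ⟨x, hx, by rw [hM3 x h1, h2]⟩)
  have hinj : Set.InjOn μ' ((Finset.univ \ U : Finset K) : Set K) := by
    intro x hx y hy hxy
    have hx' : x ∉ U := (Finset.mem_sdiff.1 hx).2
    have hy' : y ∉ U := (Finset.mem_sdiff.1 hy).2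
    rw [← hM1.row x hx', hxy, hM1.row y hy']
  have hcard : M'.card = Fintype.card K - U.card := by
    rw [hM', Finset.card_image_of_injOn hinj, Finset.card_sdiff_of_subset (Finset.subset_univ U),
      Finset.card_univ]
  have hle : kd (famR h k j) (w + v) ≤ d := by
    rw [hwv]
    have h1 := kd_matching h k j M' ?_ ?_
    · rw [hcard, Nat.cast_sub (Finset.card_le_univ U), sub_sub_cancel] at h1
      rw [← hUd]
      exact h1
    · intro i hi i' hi' hk
      obtain ⟨x, hx, rfl⟩ := (hM'm i).1 hi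
      obtain ⟨x', hx', rfl⟩ := (hM'm i').1 hi'
      rw [hM1.row x hx, hM1.row x' hx'] at hk
      rw [hk]
    · intro i hi i' hi' hj
      obtain ⟨x, hx, rfl⟩ := (hM'm i).1 hi
      obtain ⟨x', hx', rfl⟩ := (hM'm i').1 hi'
      rw [hM1.inj x x' hx hx' hj]
  exact hπ _ hle hzero

end Pool.Agent.N17.CO
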