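import Pool.Agent.N17.CO.Stm
import Pool.Agent.W649.ZL.Avoid

set_option autoImplicit false

/-!
# Project CO, AV: a very general point and a zero on a coordinate line through it (helper953)
-/

namespace Pool.Agent.N17.CO

open MvPolynomial Pool.Agent.W649.ZL

namespace AV

variable {ι : Type} [DecidableEq ι]

/-- a nonconstant polynomial has a nonzero partial derivative -/
theorem exists_pderiv {π : MvPolynomial ι ℂ} (h : Irreducible π) : ∃ i, pderiv i π ≠ 0 := by
  by_contra hcon
  push Not at hcon
  have h1 : ∀ m : ι →₀ ℕ, m ≠ 0 → coeff m π = 0 := by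
    intro m hm
    obtain ⟨i, hi⟩ := Finsupp.ne_iff.1 hm
    rw [Finsupp.coe_zero, Pi.zero_apply] at hi
    have h2 := coeff_pderiv (i := i) π (m - Finsupp.single i 1)
    rw [hcon i, coeff_zero] at h2
    have h3 : m - Finsupp.single i 1 + Finsupp.single i 1 = m := by
      apply tsub_add_cancel_of_le
      rw [Finsupp.single_le_iff]
      omega
    rw [h3] at h2
    have h4 := h2.symm
    rw [mul_eq_zero] at h4
    rcases h4 with h4 | h4
    · exact h4
    · exact absurd h4 (Nat.cast_add_one_ne_zero _)
  have h2 : π = C (coeff 0 π) := by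
    ext m
    rw [coeff_C]
    by_cases hm : (0 : ι →₀ ℕ) = m
    · rw [if_pos hm, hm]
    · rw [if_neg hm, h1 m fun h => hm h.symm]
  have h3 : coeff 0 π ≠ 0 := by
    intro h3
    rw [h3, map_zero] at h2
    exact h.ne_zero h2
  apply h.not_isUnit
  rw [h2]
  exact (isUnit_iff_ne_zero.2 h3).map (C : ℂ →+* MvPolynomial ι ℂ)

/-- the restriction to the coordinate line -/
noncomputable def ln (b : ι → ℂ) (i : ι) (π : MvPolynomial ι ℂ) : Polynomial ℂ :=
  aeval (fun j => if j = i then Polynomial.X else Polynomial.C (b j)) π

theorem ln_eval (b : ι → ℂ) (i : ι) (t : ℂ) (π : MvPolynomial ι ℂ) :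
    (ln b i π).eval t = eval (Function.update b i t) π := by
  induction π using MvPolynomial.induction_on with
  | C a => simp [ln]
  | add p q hp hq =>
    have : ln b i (p + q) = ln b i p + ln b i q := map_add _ _ _
    rw [this, Polynomial.eval_add, hp, hq, map_add]
  | mul_X p j hp =>
    have : ln b i (p * X j) = ln b i p * (if j = i then Polynomial.X else Polynomial.C (b j)) := by
      unfold ln
      rw [map_mul, aeval_X]
    rw [this, Polynomial.eval_mul, hp, map_mul, eval_X]
    congr 1
    by_cases h : j = i
    · subst h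
      simp
    · rw [if_neg h, Function.update_of_ne h, Polynomial.eval_C]

theorem ln_deriv (b : ι → ℂ) (i : ι) (π : MvPolynomial ι ℂ) :
    (Polynomial.derivative (ln b i π)).eval (b i) = eval b (pderiv i π) := by
  induction π using MvPolynomial.induction_on with
  | C a => simp [ln]
  | add p q hp hq =>
    have : ln b i (p + q) = ln b i p + ln b i q := map_add _ _ _
    rw [this, Polynomial.derivative_add, Polynomial.eval_add, hp, hq, map_add, map_add]
  | mul_X p j hp =>
    have : ln b i (p * X j) = ln b i p * (if j = i then Polynomial.X else Polynomial.C (b j)) := by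
      unfold ln
      rw [map_mul, aeval_X]
    have hb : (ln b i p).eval (b i) = eval b p := by
      rw [ln_eval, Function.update_eq_self]
    rw [this, Polynomial.derivative_mul, Polynomial.eval_add, Polynomial.eval_mul,
      Polynomial.eval_mul, hp, hb, pderiv_mul, map_add, map_mul, map_mul, eval_X]
    by_cases h : j = i
    · subst h
      simp
    · rw [if_neg h, pderiv_X_of_ne (fun h' => h h')]
      simp

end AV

open AV in
/-- AV -/
theorem t_AV : S_AV := by
  intro ι _ _ π hπ P hP
  obtain ⟨i, hi⟩ := exists_pderiv hπ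
  obtain ⟨b, hb⟩ := avoid (fun n : ℕ => P n * pderiv i π) fun n => mul_ne_zero (hP n) hi
  have h1 : ∀ n, eval b (P n) ≠ 0 := by
    intro n h
    apply hb n
    show eval b (P n * pderiv i π) = 0
    rw [map_mul, h, zero_mul]
  have h2 : eval b (pderiv i π) ≠ 0 := by
    intro h
    apply hb 0
    show eval b (P 0 * pderiv i π) = 0
    rw [map_mul, h, mul_zero]
  have h3 : (ln b i π).degree ≠ 0 := by
    intro h
    have h4 := ln_deriv b i π
    rw [Polynomial.eq_C_of_degree_eq_zero h, Polynomial.derivative_C, Polynomial.eval_zero] at h4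
    exact h2 h4.symm
  obtain ⟨t, ht⟩ := IsAlgClosed.exists_root (ln b i π) h3
  refine ⟨b, i, t, ?_, h1⟩
  rw [← ln_eval]
  exact ht

end Pool.Agent.N17.CO
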