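import Pool.Agent.N17.CO.Stm

/-!
# Project CO: the diagonal edges with positive degree are on closed walks of such edges (helper608)
-/

set_option autoImplicit false

namespace Pool.Agent.N17.CO

open Finset

theorem t_CONN (hHALL : S_HALL) (hTIGHT : S_TIGHT) : S_CONN := by
  classical
  intro K L ι _ _ _ _ _ k j d r s hDf hTex hCp U μ hUd hMt tg htg i hDi hri
  haveI : Nonempty ι := ⟨i⟩
  obtain ⟨-, h2, h3, h4⟩ := hHALL K L ι k j d hDf hTex
  obtain ⟨-, hTt⟩ := hTIGHT K L ι k j d hDf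
  have hT := hTt U μ hUd hMt
  have hmem : ∀ (S : Finset K) (y : L), y ∈ nb k j S ↔ ∃ i, k i ∈ S ∧ j i = y := by
    intro S y
    unfold nb
    simp
  set step : K → K → Prop := fun z z' => ∃ e, k e = z ∧ z' ∉ U ∧ j e = j (μ z') with hstep
  have hcl1 : ∀ S, Ti k j d S → ∀ z z', step z z' → z ∈ S → z' ∈ S := by
    intro S hS z z' hzz hz
    obtain ⟨e, h5, h6, h7⟩ := hzz
    apply (hT S hS).2.2 z' h6
    rw [hmem]
    exact ⟨e, by rw [h5]; exact hz, h7⟩
  have hcl : ∀ S, Ti k j d S → ∀ z z', Relation.ReflTransGen step z z' → z ∈ S → z' ∈ S := by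
    intro S hS z z' hzz hz
    induction hzz with
    | refl => exact hz
    | tail _ h ih => exact hcl1 S hS _ _ h ih
  obtain ⟨hC1, hC2, -⟩ := hCp U μ hUd hMt
  have hnU : ∀ z, 0 < r z → z ∉ U := by
    intro z hz hzU
    rw [hC1 z hzU] at hz
    exact lt_irrefl _ hz
  have hA : ∀ z, 0 < r z → ∃ S, Ti k j d S ∧ z ∈ S := by
    intro z hz
    by_contra hcon
    push Not at hcon
    have h5 : ∀ S, Ti k j d S → j (μ z) ∉ nb k j S := fun S hS hy =>
      hcon S hS ((hT S hS).2.2 z (hnU z hz) hy)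
    obtain ⟨U', μ', h6, h7, h8⟩ := h3 (j (μ z)) h5
    have h9 := (hCp U' μ' h6 h7).2.2 (j (μ z)) h8
    have h10 := hC2 z (hnU z hz)
    omega
  have hB : ∀ z, 0 < r z → ∃ S, Ti k j d S ∧ z ∉ S := by
    intro z hz
    by_contra hcon
    push Not at hcon
    obtain ⟨U', μ', h6, h7, h8⟩ := h2 z hcon
    have h9 := (hCp U' μ' h6 h7).1 z h8
    omega
  have hC : ∀ e, Dg k j d e → 0 < r (k e) → r (tg e) = r (k e) := by
    intro e he hre
    obtain ⟨U', μ', h6, h7, h8, h9⟩ := h4 e he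
    have h10 := (hCp U' μ' h6 h7).2.1 (k e) h8
    rw [h9] at h10
    obtain ⟨h11, h12⟩ := htg e he hre
    have h13 := hC2 (tg e) h11
    rw [h13, h10, h12]
  obtain ⟨hyU, hji⟩ := htg i hDi hri
  have hry : 0 < r (tg i) := by rw [hC i hDi hri]; exact hri
  set R : Finset K := univ.filter (fun z => ∃ u, (u = tg i ∨ u ∈ U) ∧ Relation.ReflTransGen step u z) with hR
  have hRm : ∀ z, z ∈ R ↔ ∃ u, (u = tg i ∨ u ∈ U) ∧ Relation.ReflTransGen step u z := by
    intro z
    rw [hR]
    simp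
  obtain ⟨S0, hS0, hyS0⟩ := hA (tg i) hry
  have hRS : R ⊆ S0 := by
    intro z hz
    obtain ⟨u, hu, huz⟩ := (hRm z).mp hz
    rcases hu with rfl | hu
    · exact hcl S0 hS0 _ _ huz hyS0
    · exact hcl S0 hS0 _ _ huz ((hT S0 hS0).1 hu)
  have hUR : U ⊆ R := fun u hu => (hRm u).mpr ⟨u, Or.inr hu, Relation.ReflTransGen.refl⟩
  have hyR : tg i ∈ R := (hRm _).mpr ⟨_, Or.inl rfl, Relation.ReflTransGen.refl⟩
  have hnbR : nb k j R = (R \ U).image (fun z => j (μ z)) := by
    ext y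
    rw [hmem, mem_image]
    constructor
    · rintro ⟨e, he, rfl⟩
      have h5 : j e ∈ nb k j S0 := (hmem _ _).mpr ⟨e, hRS he, rfl⟩
      obtain ⟨z', h6, h7, h8⟩ := (hT S0 hS0).2.1 _ h5
      obtain ⟨u, hu, hue⟩ := (hRm _).mp he
      refine ⟨z', ?_, h8⟩
      rw [mem_sdiff, hRm]
      exact ⟨⟨u, hu, hue.tail ⟨e, rfl, h7, h8.symm⟩⟩, h7⟩
    · rintro ⟨z', hz', rfl⟩
      rw [mem_sdiff] at hz'
      exact ⟨μ z', by rw [hMt.row z' hz'.2]; exact hz'.1, rfl⟩
  have hRT : Ti k j d R := by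
    unfold Ti
    rw [hnbR, card_image_of_injOn, ← hUd, card_sdiff_add_card_eq_card hUR]
    intro x hx y hy hxy
    simp only [coe_sdiff, Set.mem_sdiff, mem_coe] at hx hy
    exact hMt.inj x y hx.2 hy.2 hxy
  have hxR : k i ∈ R := by
    apply hDi R hRT
    rw [hji, hmem]
    exact ⟨μ (tg i), by rw [hMt.row _ hyU]; exact hyR, rfl⟩
  have hyx : Relation.ReflTransGen step (tg i) (k i) := by
    obtain ⟨u, hu, hux⟩ := (hRm _).mp hxR
    rcases hu with rfl | hu
    · exact hux
    · exfalso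
      obtain ⟨S', hS', hxS'⟩ := hB (k i) hri
      exact hxS' (hcl S' hS' _ _ hux ((hT S' hS').1 hu))
  have main : ∀ z, Relation.ReflTransGen step z (k i) → Relation.ReflTransGen step (tg i) z → 0 < r z →
      ∃ W : List ι, (∀ e ∈ W, Dg k j d e ∧ 0 < r (k e)) ∧ Walk k tg z W (k i) := by
    intro z hz
    induction hz using Relation.ReflTransGen.head_induction_on with
    | refl =>
      intro _ _
      exact ⟨[], by simp, rfl⟩
    | head hzz hzx ih =>
      rename_i z z'
      intro hyz hrz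
      have hst := hzz
      obtain ⟨e, h5, h6, h7⟩ := hzz
      have hDe : Dg k j d e := by
        intro S hS hje
        rw [h7] at hje
        have h8 : z' ∈ S := (hT S hS).2.2 z' h6 hje
        have h9 : k i ∈ S := hcl S hS _ _ hzx h8
        have h10 : tg i ∈ S := by
          apply (hT S hS).2.2 _ hyU
          rw [← hji, hmem]
          exact ⟨i, h9, rfl⟩
        rw [h5]
        exact hcl S hS _ _ hyz h10
      have hre : 0 < r (k e) := by rw [h5]; exact hrz
      obtain ⟨h11, h12⟩ := htg e hDe hre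
      have h13 : z' = tg e := hMt.inj _ _ h6 h11 (by rw [← h7, ← h12])
      have hrz' : 0 < r z' := by rw [h13, hC e hDe hre]; exact hre
      obtain ⟨W, hW1, hW2⟩ := ih (hyz.tail hst) hrz'
      refine ⟨e :: W, ?_, ?_⟩
      · intro e' he'
        rw [List.mem_cons] at he'
        rcases he' with rfl | he'
        · exact ⟨hDe, hre⟩
        · exact hW1 e' he'
      · exact ⟨h5, by rw [← h13]; exact hW2⟩
  exact main (tg i) hyx Relation.ReflTransGen.refl hry

end Pool.Agent.N17.CO
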