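import Pool.Agent.N17.CO.Stm

/-! # CO/COUNT: integral points of sets of codimension two (helper570) -/

set_option autoImplicit false
set_option linter.unusedVariables false

namespace Pool.Agent.N17.CO.COUNT

section alg

open Polynomial nonZeroDivisors

attribute [local instance] Polynomial.algebra Polynomial.isLocalization in
/-- if the elements of `S` have no common divisor, the ideal contains a nonzero constant -/
theorem exists_const {R : Type} [CommRing R] [IsDomain R] [IsGCDMonoid R] (S : Set R[X])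
    (h : ∀ d, (∀ f ∈ S, d ∣ f) → IsUnit d) : ∃ r : R, r ≠ 0 ∧ C r ∈ Ideal.span S := by
  classical
  let _ : NormalizedGCDMonoid R := Nonempty.some inferInstance
  set K := FractionRing R with hK
  set I := Ideal.span S with hI
  set J : Ideal K[X] := Ideal.map (algebraMap R[X] K[X]) I with hJ
  have hinj : Function.Injective (algebraMap R K) := IsFractionRing.injective R K
  have hmap : ∀ f : R[X], algebraMap R[X] K[X] f = f.map (algebraMap R K) := fun f => rfl
  -- the generator
  set g := Submodule.IsPrincipal.generator J with hg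
  have hJg : Ideal.span {g} = J := Ideal.span_singleton_generator J
  have hdvd : ∀ f ∈ S, g ∣ f.map (algebraMap R K) := by
    intro f hf
    rw [← hmap, ← Ideal.mem_span_singleton, hJg]
    exact Ideal.mem_map_of_mem _ (Ideal.subset_span hf)
  have hg0 : g ≠ 0 := by
    intro h0
    have h1 : ∀ f ∈ S, (0 : R[X]) ∣ f := by
      intro f hf
      have h2 := hdvd f hf
      rw [h0, zero_dvd_iff] at h2
      have h3 : f = 0 := by
        apply map_injective (algebraMap R K) hinj
        rw [h2, Polynomial.map_zero]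
      rw [h3]
    exact not_isUnit_zero (h 0 h1)
  set g1 := IsLocalization.integerNormalization R⁰ g with hg1
  have hu : IsUnit g1.primPart := by
    apply h
    intro f hf
    have hp : g1.primPart.IsPrimitive := isPrimitive_primPart _
    apply hp.dvd_of_fraction_map_dvd_fraction_map (K := K)
    obtain ⟨b, hb1, hb2⟩ := IsLocalization.integerNormalization_spec R⁰ g
    have h2 : g1.primPart.map (algebraMap R K) ∣ g1.map (algebraMap R K) := by
      refine Polynomial.map_dvd _ ?_
      exact primPart_dvd g1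
    refine h2.trans ?_
    rw [hb2]
    have hb3 : IsUnit (C (algebraMap R K b)) := by
      rw [isUnit_C, isUnit_iff_ne_zero]
      intro h3
      exact nonZeroDivisors.ne_zero hb1 (hinj (by rw [h3, map_zero]))
    have h4 : b • g = C (algebraMap R K b) * g := by
      rw [← Polynomial.smul_eq_C_mul, algebraMap_smul]
    rw [h4]
    exact (hb3.mul_left_dvd).2 (hdvd f hf)
  have hgu := isUnit_or_eq_zero_of_isUnit_integerNormalization_primPart hg0 hu
  have htop : (1 : K[X]) ∈ J := by
    rw [← hJg, Ideal.mem_span_singleton]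
    exact hgu.dvd
  rw [hJ, IsLocalization.mem_map_algebraMap_iff (Submonoid.map C R⁰)] at htop
  obtain ⟨⟨x, s⟩, hx⟩ := htop
  obtain ⟨r, hr, hrs⟩ := s.2
  refine ⟨r, nonZeroDivisors.ne_zero hr, ?_⟩
  simp only [one_mul] at hx
  have h5 : (s : R[X]) = x := by
    apply map_injective (algebraMap R K) hinj
    rw [← hmap, ← hmap]
    exact hx
  have h6 : C r = (x : R[X]) := by
    rw [← h5]; exact hrs
  rw [h6]
  exact x.2

end alg

open MvPolynomial Finset

/-- the box -/
noncomputable def box (n N : ℕ) : Finset (Fin n → ℤ) := Fintype.piFinset fun _ => Icc (-(N : ℤ)) N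

theorem mem_box {n N : ℕ} {a : Fin n → ℤ} : a ∈ box n N ↔ ∀ i, |a i| ≤ N := by
  simp only [box, Fintype.mem_piFinset, mem_Icc, abs_le]

theorem card_Icc (N : ℕ) : (Icc (-(N : ℤ)) N).card = 2 * N + 1 := by
  rw [Int.card_Icc]
  omega

open Classical in
/-- the zeros in the box -/
noncomputable def Z {n : ℕ} (S : Finset (MvPolynomial (Fin n) ℂ)) (N : ℕ) : Finset (Fin n → ℤ) :=
  (box n N).filter fun a => ∀ f ∈ S, eval (fun i => (a i : ℂ)) f = 0

theorem mem_Z {n N : ℕ} {S : Finset (MvPolynomial (Fin n) ℂ)} {a : Fin n → ℤ} :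
    a ∈ Z S N ↔ a ∈ box n N ∧ ∀ f ∈ S, eval (fun i => (a i : ℂ)) f = 0 := by
  simp only [Z, mem_filter]

/-- Schwartz and Zippel -/
theorem sz {n : ℕ} (r : MvPolynomial (Fin n) ℂ) (hr : r ≠ 0) :
    ∃ C : ℕ, ∀ N : ℕ, (Z {r} N).card * (N + 1) ≤ C * (N + 1) ^ n := by
  classical
  refine ⟨r.totalDegree * 2 ^ n, fun N => ?_⟩
  set T : Finset ℂ := (Icc (-(N : ℤ)) N).image (fun z : ℤ => (z : ℂ)) with hT
  have hTc : T.card = 2 * N + 1 := by
    rw [hT, card_image_of_injective _ Int.cast_injective, card_Icc]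
  have h1 := schwartz_zippel_totalDegree hr T
  rw [hTc] at h1
  have h2 : (Z {r} N).card ≤ (filter (fun f => eval f r = 0) (Fintype.piFinset fun _ : Fin n => T)).card := by
    refine card_le_card_of_injOn (fun a i => (a i : ℂ)) ?_ ?_
    · intro a ha
      rw [mem_coe, mem_Z] at ha
      rw [mem_coe, mem_filter, Fintype.mem_piFinset]
      refine ⟨fun i => ?_, ha.2 r (mem_singleton_self r)⟩
      rw [hT, mem_image]
      exact ⟨a i, (Fintype.mem_piFinset.1 ha.1) i, rfl⟩
    · intro a _ b _ hab
      funext i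
      exact Int.cast_injective (congrFun hab i)
  have h3 : ((filter (fun f => eval f r = 0) (Fintype.piFinset fun _ : Fin n => T)).card : ℚ≥0) *
      (2 * N + 1 : ℕ) ≤ r.totalDegree * (2 * N + 1 : ℕ) ^ n := by
    have hpos : (0 : ℚ≥0) < ((2 * N + 1 : ℕ) : ℚ≥0) := by positivity
    rw [div_le_div_iff₀ (by positivity) hpos] at h1
    exact h1
  have h4 : (filter (fun f => eval f r = 0) (Fintype.piFinset fun _ : Fin n => T)).card *
      (2 * N + 1) ≤ r.totalDegree * (2 * N + 1) ^ n := by
    exact_mod_cast h3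
  calc (Z {r} N).card * (N + 1) ≤
      (filter (fun f => eval f r = 0) (Fintype.piFinset fun _ : Fin n => T)).card * (2 * N + 1) :=
        Nat.mul_le_mul h2 (by omega)
    _ ≤ r.totalDegree * (2 * N + 1) ^ n := h4
    _ ≤ r.totalDegree * (2 * (N + 1)) ^ n :=
        Nat.mul_le_mul_left _ (Nat.pow_le_pow_left (by omega) n)
    _ = r.totalDegree * 2 ^ n * (N + 1) ^ n := by rw [mul_pow]; ring

/-- one step of the induction -/
theorem step {n : ℕ} (S : Finset (MvPolynomial (Fin (n + 1)) ℂ)) (S' : Finset (MvPolynomial (Fin n) ℂ))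
    (r : MvPolynomial (Fin n) ℂ) (D : ℕ)
    (hS' : ∀ f ∈ S, ∀ k, (finSuccEquiv ℂ n f).coeff k ≠ 0 → (finSuccEquiv ℂ n f).coeff k ∈ S')
    (hS'' : ∀ c ∈ S', ∃ f ∈ S, ∃ k, (finSuccEquiv ℂ n f).coeff k = c)
    (hr : Polynomial.C r ∈ Ideal.span ((fun f => finSuccEquiv ℂ n f) '' (S : Set _)))
    (hD : ∀ f ∈ S, (finSuccEquiv ℂ n f).natDegree ≤ D) (N : ℕ) :
    (Z S N).card ≤ (Z S' N).card * (2 * N + 1) + (Z {r} N).card * D := by
  classical
  have hmaps : ∀ a ∈ Z S N, Fin.tail a ∈ box n N := by
    intro a ha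
    have h1 := mem_box.1 (mem_Z.1 ha).1
    exact mem_box.2 fun i => h1 i.succ
  rw [card_eq_sum_card_fiberwise hmaps]
  -- evaluation
  have hev : ∀ (a : Fin (n + 1) → ℤ) (f : MvPolynomial (Fin (n + 1)) ℂ),
      eval (fun i => (a i : ℂ)) f = Polynomial.eval ((a 0 : ℤ) : ℂ)
        (Polynomial.map (eval fun i => (Fin.tail a i : ℂ)) (finSuccEquiv ℂ n f)) := by
    intro a f
    rw [← eval_eq_eval_mv_eval']
    congr 2
    funext i
    refine Fin.cases ?_ (fun i => ?_) i
    · simp
    · simp [Fin.tail]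
  have key : ∀ b ∈ box n N, ((Z S N).filter fun a => Fin.tail a = b).card ≤
      (if b ∈ Z S' N then 2 * N + 1 else 0) + if b ∈ Z {r} N then D else 0 := by
    intro b hb
    have hinj : Set.InjOn (fun a : Fin (n + 1) → ℤ => a 0)
        (((Z S N).filter fun a => Fin.tail a = b : Finset _) : Set (Fin (n + 1) → ℤ)) := by
      intro a ha a' ha' h0
      rw [mem_coe, mem_filter] at ha ha'
      rw [← Fin.cons_self_tail a, ← Fin.cons_self_tail a', ha.2, ha'.2]
      have : a 0 = a' 0 := h0
      rw [this]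
    by_cases hb1 : b ∈ Z S' N
    · rw [if_pos hb1]
      refine le_trans ?_ (Nat.le_add_right _ _)
      rw [← card_Icc N]
      refine card_le_card_of_injOn (fun a => a 0) ?_ hinj
      intro a ha
      rw [mem_coe, mem_filter] at ha
      have h1 := (Fintype.mem_piFinset.1 (mem_Z.1 ha.1).1) 0
      exact h1
    · rw [if_neg hb1, zero_add]
      rcases ((Z S N).filter fun a => Fin.tail a = b).eq_empty_or_nonempty with he | ⟨a0, ha0⟩
      · rw [he, card_empty]
        exact Nat.zero_le _
      · rw [mem_filter] at ha0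
        -- `r` vanishes
        have hrb : eval (fun i => (b i : ℂ)) r = 0 := by
          let φ : Polynomial (MvPolynomial (Fin n) ℂ) →+* ℂ :=
            (Polynomial.evalRingHom ((a0 0 : ℤ) : ℂ)).comp
              (Polynomial.mapRingHom (eval fun i => (b i : ℂ)))
          have h1 : Ideal.span ((fun f => finSuccEquiv ℂ n f) '' (S : Set _)) ≤ RingHom.ker φ := by
            rw [Ideal.span_le]
            rintro _ ⟨f, hf, rfl⟩
            have h2 := (mem_Z.1 ha0.1).2 f hf
            rw [hev a0 f, ha0.2] at h2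
            exact h2
          have h3 : φ (Polynomial.C r) = 0 := h1 hr
          simpa [φ] using h3
        have hbr : b ∈ Z {r} N := by
          rw [mem_Z]
          refine ⟨hb, fun f hf => ?_⟩
          rw [mem_singleton] at hf
          rw [hf]
          exact hrb
        rw [if_pos hbr]
        -- a nonzero polynomial
        obtain ⟨c, hc, hc0⟩ : ∃ c ∈ S', eval (fun i => (b i : ℂ)) c ≠ 0 := by
          by_contra hcon
          push Not at hcon
          exact hb1 (mem_Z.2 ⟨hb, hcon⟩)
        obtain ⟨f, hf, k, hk⟩ := hS'' c hc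
        set g := Polynomial.map (eval fun i => (b i : ℂ)) (finSuccEquiv ℂ n f) with hg
        have hg0 : g ≠ 0 := by
          intro h0
          apply hc0
          rw [← hk, ← Polynomial.coeff_map, ← hg, h0, Polynomial.coeff_zero]
        have h5 : ((Z S N).filter fun a => Fin.tail a = b).card ≤ g.roots.toFinset.card := by
          refine card_le_card_of_injOn (fun a => ((a 0 : ℤ) : ℂ)) ?_ ?_
          · intro a ha
            rw [mem_coe, mem_filter] at ha
            rw [mem_coe, Multiset.mem_toFinset, Polynomial.mem_roots hg0, Polynomial.IsRoot.def]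
            have h2 := (mem_Z.1 ha.1).2 f hf
            rw [hev a f, ha.2] at h2
            exact h2
          · intro a ha a' ha' h0
            exact hinj ha ha' (Int.cast_injective h0)
        refine h5.trans ?_
        refine (Multiset.toFinset_card_le _).trans ?_
        refine (Polynomial.card_roots' g).trans ?_
        exact (Polynomial.natDegree_map_le).trans (hD f hf)
  refine (sum_le_sum key).trans ?_
  rw [sum_add_distrib, ← sum_filter, ← sum_filter, sum_const, sum_const, smul_eq_mul, smul_eq_mul]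
  refine Nat.add_le_add (Nat.mul_le_mul_right _ (card_le_card ?_))
    (Nat.mul_le_mul_right _ (card_le_card ?_))
  · intro b hb
    exact (mem_filter.1 hb).2
  · intro b hb
    exact (mem_filter.1 hb).2

/-- the claim for finite families -/
theorem claim (n : ℕ) : ∀ S : Finset (MvPolynomial (Fin n) ℂ),
    (∀ d, (∀ f ∈ S, d ∣ f) → IsUnit d) →
    ∃ C : ℕ, ∀ N : ℕ, (Z S N).card * (N + 1) ^ 2 ≤ C * (N + 1) ^ n := by
  classical
  induction n with
  | zero =>
    intro S hS
    refine ⟨0, fun N => ?_⟩
    obtain ⟨f, hf, hf0⟩ : ∃ f ∈ S, f ≠ 0 := by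
      by_contra hcon
      push Not at hcon
      exact not_isUnit_zero (hS 0 fun f hf => by rw [hcon f hf])
    have h1 : Z S N = ∅ := by
      rw [eq_empty_iff_forall_notMem]
      intro a ha
      have h2 := (mem_Z.1 ha).2 f hf
      rw [eq_C_of_isEmpty f] at h2 hf0
      rw [eval_C] at h2
      exact hf0 (by rw [h2, map_zero])
    rw [h1, card_empty, zero_mul, zero_mul]
  | succ n ih =>
    intro S hS
    set S' : Finset (MvPolynomial (Fin n) ℂ) := S.biUnion fun f => (finSuccEquiv ℂ n f).coeffs with hS'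
    have hmem : ∀ f ∈ S, ∀ k, (finSuccEquiv ℂ n f).coeff k ≠ 0 →
        (finSuccEquiv ℂ n f).coeff k ∈ S' := by
      intro f hf k hk
      rw [hS', mem_biUnion]
      exact ⟨f, hf, Polynomial.coeff_mem_coeffs hk⟩
    have hmem' : ∀ c ∈ S', ∃ f ∈ S, ∃ k, (finSuccEquiv ℂ n f).coeff k = c := by
      intro c hc
      rw [hS', mem_biUnion] at hc
      obtain ⟨f, hf, hc⟩ := hc
      rw [Polynomial.mem_coeffs_iff] at hc
      obtain ⟨k, hk, hck⟩ := hc
      exact ⟨f, hf, k, hck.symm⟩
    -- the coefficients have no common divisor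
    have hS1 : ∀ d, (∀ c ∈ S', d ∣ c) → IsUnit d := by
      intro d hd
      have h1 : ∀ f ∈ S, (finSuccEquiv ℂ n).symm (Polynomial.C d) ∣ f := by
        intro f hf
        have h2 : Polynomial.C d ∣ finSuccEquiv ℂ n f := by
          rw [Polynomial.C_dvd_iff_dvd_coeff]
          intro k
          by_cases hk : (finSuccEquiv ℂ n f).coeff k = 0
          · rw [hk]
            exact dvd_zero d
          · exact hd _ (hmem f hf k hk)
        have h3 := map_dvd (finSuccEquiv ℂ n).symm h2
        rwa [AlgEquiv.symm_apply_apply] at h3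
      have h4 := hS _ h1
      have h5 : IsUnit (Polynomial.C d) := by
        have h6 := h4.map (finSuccEquiv ℂ n)
        rwa [AlgEquiv.apply_symm_apply] at h6
      exact Polynomial.isUnit_C.1 h5
    obtain ⟨C1, hC1⟩ := ih S' hS1
    -- the resultant
    have hT : ∀ d, (∀ g ∈ (fun f => finSuccEquiv ℂ n f) '' (S : Set _), d ∣ g) → IsUnit d := by
      intro d hd
      have h1 : ∀ f ∈ S, (finSuccEquiv ℂ n).symm d ∣ f := by
        intro f hf
        have h3 := map_dvd (finSuccEquiv ℂ n).symm (hd _ ⟨f, hf, rfl⟩)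
        rwa [AlgEquiv.symm_apply_apply] at h3
      have h4 := (hS _ h1).map (finSuccEquiv ℂ n)
      rwa [AlgEquiv.apply_symm_apply] at h4
    have : IsGCDMonoid (MvPolynomial (Fin n) ℂ) := ⟨UniqueFactorizationMonoid.toGCDMonoid _⟩
    obtain ⟨r, hr0, hr⟩ := exists_const _ hT
    obtain ⟨C2, hC2⟩ := sz r hr0
    set D := S.sup fun f => (finSuccEquiv ℂ n f).natDegree with hD
    refine ⟨2 * C1 + C2 * D, fun N => ?_⟩
    have h1 := step S S' r D hmem hmem' hr
      (fun f hf => le_sup (f := fun f => (finSuccEquiv ℂ n f).natDegree) hf) N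
    have h2 := hC1 N
    have h3 := hC2 N
    calc (Z S N).card * (N + 1) ^ 2 ≤
        ((Z S' N).card * (2 * N + 1) + (Z {r} N).card * D) * (N + 1) ^ 2 :=
          Nat.mul_le_mul_right _ h1
      _ ≤ ((Z S' N).card * (2 * (N + 1)) + (Z {r} N).card * D) * (N + 1) ^ 2 := by
          gcongr
          omega
      _ = 2 * ((Z S' N).card * (N + 1) ^ 2) * (N + 1) +
          D * ((Z {r} N).card * (N + 1)) * (N + 1) := by ring
      _ ≤ 2 * (C1 * (N + 1) ^ n) * (N + 1) + D * (C2 * (N + 1) ^ n) * (N + 1) := by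
          gcongr
      _ = (2 * C1 + C2 * D) * (N + 1) ^ (n + 1) := by ring

end Pool.Agent.N17.CO.COUNT

namespace Pool.Agent.N17.CO

open MvPolynomial Finset COUNT

/-- COUNT -/
theorem t_COUNT : S_COUNT := by
  classical
  intro ι _ P Q hPQ
  set n := Fintype.card ι with hn
  let e : ι ≃ Fin n := Fintype.equivFin ι
  set S : Finset (MvPolynomial (Fin n) ℂ) := {rename e P, rename e Q} with hS
  have hS1 : ∀ d, (∀ f ∈ S, d ∣ f) → IsUnit d := by
    intro d hd
    have h1 := map_dvd (renameEquiv ℂ e).symm (hd (rename e P) (by simp [hS]))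
    have h2 := map_dvd (renameEquiv ℂ e).symm (hd (rename e Q) (by simp [hS]))
    have e1 : ∀ f : MvPolynomial ι ℂ, (renameEquiv ℂ e).symm (rename e f) = f := fun f =>
      (renameEquiv ℂ e).symm_apply_apply f
    rw [e1] at h1 h2
    have h3 := (hPQ h1 h2).map (renameEquiv ℂ e)
    rwa [AlgEquiv.apply_symm_apply] at h3
  obtain ⟨C, hC⟩ := claim n S hS1
  refine ⟨C, fun N => ?_⟩
  have hinj : Function.Injective fun (a : ι → ℤ) (i : Fin n) => a (e.symm i) := by
    intro a b hab
    funext i
    have := congrFun hab (e i)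
    simpa using this
  have h1 : Set.ncard {a : ι → ℤ | (∀ i, |a i| ≤ N) ∧
      eval (fun i => (a i : ℂ)) P = 0 ∧ eval (fun i => (a i : ℂ)) Q = 0} ≤ (Z S N).card := by
    rw [← Set.ncard_image_of_injective _ hinj, ← Set.ncard_coe_finset]
    refine Set.ncard_le_ncard ?_ (Finset.finite_toSet _)
    rintro _ ⟨a, ⟨ha, hP, hQ⟩, rfl⟩
    rw [mem_coe, mem_Z]
    refine ⟨mem_box.2 fun i => ha _, fun f hf => ?_⟩
    have e2 : ∀ f : MvPolynomial ι ℂ, eval (fun i : Fin n => ((a (e.symm i) : ℤ) : ℂ)) (rename e f) =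
        eval (fun i => (a i : ℂ)) f := by
      intro f
      rw [eval_rename]
      congr 2
      funext i
      simp
    rw [hS, mem_insert, mem_singleton] at hf
    rcases hf with rfl | rfl
    · rw [e2, hP]
    · rw [e2, hQ]
  have h2 := hC N
  refine h1.trans ?_
  have hpos : 0 < (N + 1) ^ 2 := by positivity
  refine Nat.le_of_mul_le_mul_right ?_ hpos
  refine h2.trans ?_
  rw [mul_assoc]
  refine Nat.mul_le_mul_left _ ?_
  rw [← pow_add]
  exact Nat.pow_le_pow_right (Nat.succ_pos N) (by omega)

end Pool.Agent.N17.CO
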