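import Pool.Agent.N17.CO.Stm

/-!
# Project CO, CP: degrees and maximum matchings
-/

set_option autoImplicit false

namespace Pool.Agent.N17.CO

open MvPolynomial Pool.Agent.W649.ZL

theorem CP.two_pow {a b : ℕ} (h : (2 : ℂ) ^ a * (1 / 2) ^ b = 1) : a = b := by
  have h1 : (2 : ℂ) ^ a = 2 ^ b := by
    have h2 : ((1 : ℂ) / 2) ^ b * 2 ^ b = 1 := by
      rw [← mul_pow]
      norm_num
    calc (2 : ℂ) ^ a = 2 ^ a * ((1 / 2) ^ b * 2 ^ b) := by rw [h2, mul_one]
      _ = (2 ^ a * (1 / 2) ^ b) * 2 ^ b := by ring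
      _ = 2 ^ b := by rw [h, one_mul]
  have h3 : (2 : ℕ) ^ a = 2 ^ b := by exact_mod_cast h1
  exact Nat.pow_right_injective (le_refl 2) h3

theorem t_CP : S_CP := by
  classical
  intro G K L ι _ _ _ _ _ _ h k j d π r s hH hπ U μ hU hM
  set M : Finset ι := (Finset.univ \ U).image μ with hMdef
  have hmem : ∀ i, i ∈ M ↔ ∃ x, x ∉ U ∧ μ x = i := by
    intro i
    rw [hMdef, Finset.mem_image]
    constructor
    · rintro ⟨x, hx, rfl⟩
      exact ⟨x, (Finset.mem_sdiff.1 hx).2, rfl⟩
    · rintro ⟨x, hx, rfl⟩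
      exact ⟨x, Finset.mem_sdiff.2 ⟨Finset.mem_univ _, hx⟩, rfl⟩
  have hk : ∀ i ∈ M, ∀ i' ∈ M, k i = k i' → i = i' := by
    intro i hi i' hi' he
    obtain ⟨x, hx, rfl⟩ := (hmem i).1 hi
    obtain ⟨x', hx', rfl⟩ := (hmem i').1 hi'
    rw [hM.row x hx, hM.row x' hx'] at he
    rw [he]
  have hj : ∀ i ∈ M, ∀ i' ∈ M, j i = j i' → i = i' := by
    intro i hi i' hi' he
    obtain ⟨x, hx, rfl⟩ := (hmem i).1 hi
    obtain ⟨x', hx', rfl⟩ := (hmem i').1 hi'
    rw [hM.inj x x' hx hx' he]
  have hcard : M.card + d = Fintype.card K := by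
    have h1 : M.card = (Finset.univ \ U).card := by
      rw [hMdef]
      apply Finset.card_image_of_injOn
      intro x hx x' hx' he
      have h2 := hM.row x (Finset.mem_sdiff.1 hx).2
      have h3 := hM.row x' (Finset.mem_sdiff.1 hx').2
      have he' : μ x = μ x' := he
      rw [← h2, ← h3, he']
    rw [h1, ← hU, Finset.card_sdiff_add_card_eq_card (Finset.subset_univ U), Finset.card_univ]
  have h1 := kd_matching h k j M hk hj
  have h2 : (Fintype.card K : ℝ) - M.card = d := by
    rw [← hcard]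
    push_cast
    ring
  rw [h2] at h1
  have hne := hπ _ h1
  set b : ι → ℂ := fun i => if i ∈ M then 1 else 0 with hb
  have key : ∀ (ρ : K → ℂ) (σ : L → ℂ), (∀ i ∈ M, ρ (k i) * σ (j i) = 1) →
      (∏ x, ρ x ^ r x) * (∏ y, σ y ^ s y) = 1 := by
    intro ρ σ hρσ
    have h3 := hH ρ σ b
    have h4 : (fun i => ρ (k i) * σ (j i) * b i) = b := by
      funext i
      by_cases hi : i ∈ M
      · rw [hρσ i hi, one_mul]
      · have : b i = 0 := by rw [hb]; exact if_neg hi
        rw [this, mul_zero]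
    rw [h4] at h3
    have h5 : ((∏ x, ρ x ^ r x) * (∏ y, σ y ^ s y) - 1) * eval b π = 0 := by
      linear_combination -h3
    have h6 := (mul_eq_zero.1 h5).resolve_right hne
    linear_combination h6
  refine ⟨?_, ?_, ?_⟩
  · intro x hx
    by_contra hr
    have h3 := key (fun x' => if x' = x then 0 else 1) (fun _ => 1) (by
      intro i hi
      obtain ⟨x', hx', rfl⟩ := (hmem i).1 hi
      have hne' : k (μ x') ≠ x := by
        rw [hM.row x' hx']
        rintro rfl
        exact hx' hx
      rw [if_neg hne', mul_one])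
    rw [Finset.prod_eq_zero (Finset.mem_univ x) (by rw [if_pos rfl, zero_pow hr]), zero_mul] at h3
    exact zero_ne_one h3
  · intro x hx
    have h3 := key (fun x' => if x' = x then 2 else 1)
      (fun y => if y = j (μ x) then 1 / 2 else 1) (by
      intro i hi
      obtain ⟨x', hx', rfl⟩ := (hmem i).1 hi
      rw [hM.row x' hx']
      by_cases he : x' = x
      · rw [if_pos he, if_pos (by rw [he])]
        norm_num
      · rw [if_neg he, if_neg (fun h' => he (hM.inj x' x hx' hx h')), mul_one])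
    have e1 : (∏ x', (if x' = x then (2 : ℂ) else 1) ^ r x') = 2 ^ r x := by
      rw [Finset.prod_eq_single x]
      · rw [if_pos rfl]
      · intro x' _ hx'
        rw [if_neg hx', one_pow]
      · intro hx'
        exact absurd (Finset.mem_univ x) hx'
    have e2 : (∏ y, (if y = j (μ x) then (1 / 2 : ℂ) else 1) ^ s y) =
        (1 / 2) ^ s (j (μ x)) := by
      rw [Finset.prod_eq_single (j (μ x))]
      · rw [if_pos rfl]
      · intro y _ hy
        rw [if_neg hy, one_pow]
      · intro hy
        exact absurd (Finset.mem_univ _) hy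
    rw [e1, e2] at h3
    exact CP.two_pow h3
  · intro y hy
    by_contra hr
    have h3 := key (fun _ => 1) (fun y' => if y' = y then 0 else 1) (by
      intro i hi
      obtain ⟨x', hx', rfl⟩ := (hmem i).1 hi
      rw [if_neg (hy x' hx'), mul_one])
    rw [mul_comm, Finset.prod_eq_zero (Finset.mem_univ y) (by rw [if_pos rfl, zero_pow hr]),
      zero_mul] at h3
    exact zero_ne_one h3

end Pool.Agent.N17.CO
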