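import Pool.Agent.N17.CO.Stm

set_option autoImplicit false
set_option linter.unusedSectionVars false

/-!
# Project CO, CYCK: a matching plus a multiple of a simple alternating cycle
-/

namespace Pool.Agent.N17.CO.CYCK

open Pool.Agent.W649.ZL Pool.Agent.N17.CO

/-- sources and targets of a walk -/
theorem walk_list {V E : Type} (s t : E → V) : ∀ (W : List E) (x y : V), Walk s t x W y →
    x :: W.map t = W.map s ++ [y] := by
  intro W
  induction W with
  | nil =>
    intro x y h
    have h' : x = y := h
    simp [h']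
  | cons e W ih =>
    intro x y h
    obtain ⟨h1, h2⟩ : s e = x ∧ Walk s t (t e) W y := h
    have h3 := ih (t e) y h2
    rw [List.map_cons, List.map_cons, h3, h1]
    rfl

theorem walk_nodup {V E : Type} (s t : E → V) (W : List E) (x : V) (h : Walk s t x W x)
    (hn : (W.map s).Nodup) : (W.map t).Nodup := by
  have h1 := walk_list s t W x x h
  have h2 : (x :: W.map t).Perm (x :: W.map s) := by
    rw [h1]
    exact List.perm_append_singleton _ _
  exact ((List.perm_cons x).1 h2).nodup_iff.2 hn

/-- a square summable function with `F v = c F (g v)`, `g` of infinite order, is zero -/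
theorem shift_zero {G K : Type} [Group G] (F : EE G K) (x : K) (g : G) (c : ℂ)
    (hg : ¬ IsOfFinOrder g) (h : ∀ v, F (v, x) = c * F (g * v, x)) : ∀ v, F (v, x) = 0 := by
  intro v
  by_contra hv
  have hsum : Summable fun y : G × K => ‖F y‖ ^ 2 := (memlp_two_iff _).1 F.2
  have hinj : Function.Injective (fun n : ℕ => g ^ n) := injective_pow_iff_not_isOfFinOrder.2 hg
  have hpos : 0 < ‖F (v, x)‖ ^ 2 := by positivity
  rcases le_total 1 ‖c‖ with hc | hc
  · have h1 : ∀ n : ℕ, ‖F (v, x)‖ ^ 2 ≤ ‖F ((g ^ n)⁻¹ * v, x)‖ ^ 2 := by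
      intro n
      induction n with
      | zero => simp
      | succ n ih =>
        refine ih.trans ?_
        rw [h ((g ^ (n + 1))⁻¹ * v)]
        have e : g * ((g ^ (n + 1))⁻¹ * v) = (g ^ n)⁻¹ * v := by
          rw [pow_succ, mul_inv_rev, ← mul_assoc, ← mul_assoc, mul_inv_cancel, one_mul]
        rw [e, norm_mul, mul_pow]
        have h2 : 1 ≤ ‖c‖ ^ 2 := one_le_pow₀ hc
        exact le_mul_of_one_le_left (by positivity) h2
    have h3 : Summable fun n : ℕ => ‖F ((g ^ n)⁻¹ * v, x)‖ ^ 2 := by
      refine hsum.comp_injective (i := fun n : ℕ => ((g ^ n)⁻¹ * v, x)) ?_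
      intro m n hmn
      have h4 := (Prod.mk.inj hmn).1
      exact hinj (inv_injective (mul_right_cancel h4))
    have h4 := h3.tendsto_atTop_zero
    have h5 := ge_of_tendsto' h4 h1
    linarith
  · have hc0 : c ≠ 0 := by
      rintro rfl
      exact hv (by rw [h v, zero_mul])
    have h1 : ∀ n : ℕ, ‖F (v, x)‖ ^ 2 ≤ ‖F (g ^ n * v, x)‖ ^ 2 := by
      intro n
      induction n with
      | zero => simp
      | succ n ih =>
        refine ih.trans ?_
        rw [h (g ^ n * v)]
        have e : g * (g ^ n * v) = g ^ (n + 1) * v := by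
          rw [pow_succ', mul_assoc]
        rw [e, norm_mul, mul_pow]
        have h2 : ‖c‖ ^ 2 ≤ 1 := pow_le_one₀ (norm_nonneg _) hc
        exact mul_le_of_le_one_left (by positivity) h2
    have h3 : Summable fun n : ℕ => ‖F (g ^ n * v, x)‖ ^ 2 := by
      refine hsum.comp_injective (i := fun n : ℕ => (g ^ n * v, x)) ?_
      intro m n hmn
      have h4 := (Prod.mk.inj hmn).1
      exact hinj (mul_right_cancel h4)
    have h4 := h3.tendsto_atTop_zero
    have h5 := ge_of_tendsto' h4 h1
    linarith

section
variable {G K ι : Type} [Group G] (F : EE G K) (k tg : ι → K) (l : ι → G) (c : ℂ)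

theorem walk_val (W : List ι) (hW : ∀ e ∈ W, ∀ v, F (v, tg e) = c * F (l e * v, k e)) :
    ∀ x z, Walk k tg x W z → ∀ v, F (v, z) = c ^ W.length * F ((W.map l).prod * v, x) := by
  induction W with
  | nil =>
    intro x z h v
    have h' : x = z := h
    simp [h']
  | cons e W ih =>
    intro x z h v
    obtain ⟨h1, h2⟩ : k e = x ∧ Walk k tg (tg e) W z := h
    rw [ih (fun e' he' => hW e' (List.mem_cons_of_mem _ he')) (tg e) z h2 v,
      hW e List.mem_cons_self, List.map_cons, List.prod_cons, List.length_cons, ← h1, mul_assoc,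
      pow_succ, mul_assoc]

theorem walk_zero (W : List ι) (hW : ∀ e ∈ W, ∀ v, F (v, tg e) = c * F (l e * v, k e)) :
    ∀ x z, Walk k tg x W z → (∀ v, F (v, x) = 0) → ∀ e ∈ W, ∀ v, F (v, k e) = 0 := by
  induction W with
  | nil =>
    intro x z _ _ e he
    exact absurd he List.not_mem_nil
  | cons e W ih =>
    intro x z h h0 e' he'
    obtain ⟨h1, h2⟩ : k e = x ∧ Walk k tg (tg e) W z := h
    rcases List.mem_cons.1 he' with rfl | he'
    · intro v
      rw [h1, h0]
    · refine ih (fun e' he' => hW e' (List.mem_cons_of_mem _ he')) (tg e) z h2 (fun v => ?_) e' he'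
      rw [hW e List.mem_cons_self, h1, h0, mul_zero]

end

end Pool.Agent.N17.CO.CYCK

namespace Pool.Agent.N17.CO

open Pool.Agent.W649.ZL

open Classical in
theorem t_CYCK : S_CYCK := by
  intro G K L ι _ _ _ _ _ _ h k j U μ hM tg x0 W hW hwalk hnd hord t
  set a : ι → ℂ := fun i => if i ∈ W then t else if (∃ x, x ∉ U ∧ i = μ x) then 1 else 0 with ha
  have htn : (W.map tg).Nodup := CYCK.walk_nodup k tg W x0 hwalk hnd
  have hti : ∀ e ∈ W, ∀ e' ∈ W, tg e = tg e' → e = e' := by
    intro e he e' he' heq
    exact List.inj_on_of_nodup_map htn he he' heq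
  have hμW : ∀ y, y ∉ U → μ y ∉ W := by
    intro y hy hmem
    exact (hW _ hmem).2.2.2 (by rw [hM.row y hy])
  have hle : LinearMap.ker (lin (famR h k j) a : EE G K →ₗ[ℂ] EE G L) ≤ cosub G U := by
    intro F hF
    have hF' : lin (famR h k j) a F = 0 := hF
    have heq : ∀ (y : K) (u : G), ∑ i, a i * (if j (μ y) = j i then F (h i * u, k i) else 0) = 0 := by
      intro y u
      rw [← lin_famR_apply, hF']
      rfl
    -- not a target
    have hb : ∀ y, y ∉ U → (∀ e ∈ W, tg e ≠ y) → ∀ v, F (v, y) = 0 := by
      intro y hy hny v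
      have h1 := heq y ((h (μ y))⁻¹ * v)
      rw [Finset.sum_eq_single (μ y)] at h1
      · rw [if_pos rfl, mul_inv_cancel_left, hM.row y hy, ha] at h1
        simp only [] at h1
        rw [if_neg (hμW y hy), if_pos ⟨y, hy, rfl⟩, one_mul] at h1
        exact h1
      · intro i _ hi
        by_cases hji : j (μ y) = j i
        · have hai : a i = 0 := by
            rw [ha]
            simp only []
            rw [if_neg, if_neg]
            · rintro ⟨x, hx, rfl⟩
              exact hi (by rw [hM.inj x y hx hy hji.symm])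
            · intro hiW
              have h2 := (hW i hiW).2.2.1
              exact hny i hiW (hM.inj _ _ (hW i hiW).2.1 hy (by rw [← h2, hji]))
          rw [hai, zero_mul]
        · rw [if_neg hji, mul_zero]
      · intro hh; exact absurd (Finset.mem_univ _) hh
    have hc : ∀ e ∈ W, ∀ v, F (v, tg e) = (-t) * F (h e * (h (μ (tg e)))⁻¹ * v, k e) := by
      intro e he v
      have hy := (hW e he).2.1
      have hne : μ (tg e) ≠ e := by
        intro h2
        exact hμW (tg e) hy (by rw [h2]; exact he)
      have h1 := heq (tg e) ((h (μ (tg e)))⁻¹ * v)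
      rw [Finset.sum_eq_add (μ (tg e)) e hne] at h1
      · rw [if_pos rfl, if_pos (hW e he).2.2.1.symm, mul_inv_cancel_left, hM.row _ hy, ha] at h1
        simp only [] at h1
        rw [if_neg (hμW _ hy), if_pos ⟨tg e, hy, rfl⟩, one_mul, if_pos he, ← mul_assoc (h e)] at h1
        linear_combination h1
      · intro i _ hi
        by_cases hji : j (μ (tg e)) = j i
        · have hai : a i = 0 := by
            rw [ha]
            simp only []
            rw [if_neg, if_neg]
            · rintro ⟨x, hx, rfl⟩
              exact hi.1 (by rw [hM.inj x (tg e) hx hy hji.symm])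
            · intro hiW
              have h2 := (hW i hiW).2.2.1
              exact hi.2 (hti i hiW e he (hM.inj _ _ (hW i hiW).2.1 hy (by rw [← h2, hji])))
          rw [hai, zero_mul]
        · rw [if_neg hji, mul_zero]
      · intro hh; exact absurd (Finset.mem_univ _) hh
      · intro hh; exact absurd (Finset.mem_univ _) hh
    have hx0 : ∀ v, F (v, x0) = 0 := by
      refine CYCK.shift_zero F x0 _ ((-t) ^ W.length) hord ?_
      exact CYCK.walk_val F k tg (fun i => h i * (h (μ (tg i)))⁻¹) (-t) W hc x0 x0 hwalk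
    have hWz := CYCK.walk_zero F k tg (fun i => h i * (h (μ (tg i)))⁻¹) (-t) W hc x0 x0 hwalk hx0
    intro v y hy
    by_cases hex : ∃ e ∈ W, tg e = y
    · obtain ⟨e, he, rfl⟩ := hex
      rw [hc e he, hWz e he, mul_zero]
    · push Not at hex
      exact hb y hy hex v
  have h1 := vd_mono hle
  rw [vd_cosub] at h1
  exact h1

end Pool.Agent.N17.CO
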