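import Pool.Agent.N17.CO.Stm

set_option autoImplicit false

/-! # Project CO (helper17), FULL (helper701): upper bound from an invertible scalar matrix -/

namespace Pool.Agent.N17.CO

open Pool.Agent.W649.ZL

/-- FULL: an upper bound from an invertible scalar matrix. -/
theorem t_FULL : S_FULL := by
  intro G K L ι _ _ _ _ _ _ h k j b U μ α hM hb hv
  have hle : LinearMap.ker (lin (famR h k j) b : EE G K →ₗ[ℂ] EE G L) ≤ cosub G U := by
    intro f hf w x hx
    have hf' : lin (famR h k j) b f = 0 := hf
    have key := hv (fun x' => f ((α x')⁻¹ * (α x * w), x')) ?_ x hx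
    · simpa using key
    · intro y hy
      have h1 := lin_famR_apply h k j b f ((α y * h (μ y))⁻¹ * (α x * w)) (j (μ y))
      rw [hf'] at h1
      have h2 : (0 : EE G L) ((α y * h (μ y))⁻¹ * (α x * w), j (μ y)) = 0 := rfl
      rw [h2] at h1
      refine Eq.trans (Finset.sum_congr rfl fun i _ => ?_) h1.symm
      by_cases hj : j i = j (μ y)
      · rw [if_pos hj, if_pos hj.symm]
        by_cases hbi : b i = 0
        · rw [hbi, zero_mul, zero_mul]
        · obtain ⟨-, y', hy', hjy, hh⟩ := hb i hbi
          have hyy : y' = y := hM.inj y' y hy' hy (hjy.symm.trans hj)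
          subst hyy
          have h3 : h i * ((α y' * h (μ y'))⁻¹ * (α x * w)) = (α (k i))⁻¹ * (α x * w) := by
            have h4 : h i = (α (k i))⁻¹ * α y' * h (μ y') := by
              rw [← hh, inv_mul_cancel_right]
            rw [h4]
            group
          rw [h3]
      · rw [if_neg hj, if_neg fun h => hj h.symm, mul_zero]
  have h1 := vd_mono hle
  rw [vd_cosub] at h1
  exact h1

end Pool.Agent.N17.CO
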