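import Pool.Agent.N17.CO.Stm

/-!
# Project CO: a Zariski closed set is a hypersurface together with a set of codimension two (helper608)
-/

set_option autoImplicit false

namespace Pool.Agent.N17.CO

open MvPolynomial

theorem t_GCD : S_GCD := by
  classical
  intro ι _ V hV hne
  have hae : ∀ (a : ι → ℂ) (f : MvPolynomial ι ℂ), aeval a f = eval a f := by
    intro a f
    rw [← coe_aeval_eq_eval]
    rfl
  set I : Ideal (MvPolynomial ι ℂ) := vanishingIdeal ℂ V with hI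
  have hIbot : I ≠ ⊥ := by
    intro h
    apply hne
    rw [← hV, h, zeroLocus_bot]
    rfl
  obtain ⟨f1, hf1, hf10⟩ := Submodule.exists_mem_ne_zero_of_ne_bot hIbot
  have hwf : WellFounded (DvdNotUnit : MvPolynomial ι ℂ → MvPolynomial ι ℂ → Prop) :=
    _root_.wellFounded_dvdNotUnit
  set A : Set (MvPolynomial ι ℂ) := {p | ∃ g, f1 = g * p ∧ ∀ f ∈ I, g ∣ f} with hA
  have hAne : A.Nonempty := ⟨f1, 1, by rw [one_mul], fun f _ => one_dvd f⟩
  obtain ⟨p, ⟨g, hgp, hgd⟩, hmin⟩ : ∃ p ∈ A, ∀ q ∈ A, ¬ DvdNotUnit q p :=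
    ⟨hwf.min A hAne, hwf.min_mem A hAne, fun q hq => hwf.not_lt_min A hq⟩
  have hg0 : g ≠ 0 := by
    rintro rfl
    exact hf10 (by rw [hgp, zero_mul])
  have hp0 : p ≠ 0 := by
    rintro rfl
    exact hf10 (by rw [hgp, mul_zero])
  have hpr : ∀ π : MvPolynomial ι ℂ, Irreducible π → π ∣ p → ∃ f, g * f ∈ I ∧ ¬ π ∣ f := by
    intro π hπ hπp
    by_contra hcon
    push Not at hcon
    obtain ⟨p', hp'⟩ := hπp
    refine hmin p' ⟨g * π, ?_, ?_⟩ ⟨?_, π, hπ.not_isUnit, ?_⟩
    · rw [hgp, hp', mul_assoc]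
    · intro f hf
      obtain ⟨f', rfl⟩ := hgd f hf
      exact mul_dvd_mul_left g (hcon f' hf)
    · rintro rfl
      exact hp0 (by rw [hp', mul_zero])
    · rw [hp', mul_comm]
  set I' : Ideal (MvPolynomial ι ℂ) := Submodule.comap (LinearMap.mulLeft (MvPolynomial ι ℂ) g) I with hI'
  have hI'm : ∀ f, f ∈ I' ↔ g * f ∈ I := fun f => Iff.rfl
  set F : Finset (MvPolynomial ι ℂ) := (UniqueFactorizationMonoid.factors p).toFinset with hF
  have hq : ∃ q ∈ I', ∀ π ∈ F, ¬ π ∣ q := by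
    by_contra hcon
    push Not at hcon
    have hsub : ((I' : Set (MvPolynomial ι ℂ)) ⊆ ⋃ π ∈ (F : Set (MvPolynomial ι ℂ)),
        (Ideal.span {π} : Set (MvPolynomial ι ℂ))) := by
      intro q hq
      obtain ⟨π, hπ, hd⟩ := hcon q hq
      rw [Set.mem_iUnion₂]
      exact ⟨π, hπ, Ideal.mem_span_singleton.mpr hd⟩
    rw [Ideal.subset_union_prime (s := F) (f := fun π => Ideal.span {π}) 0 0] at hsub
    · obtain ⟨π, hπ, hle⟩ := hsub
      rw [hF, Multiset.mem_toFinset] at hπ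
      obtain ⟨f, hf1, hf2⟩ := hpr π (UniqueFactorizationMonoid.irreducible_of_factor π hπ)
        (UniqueFactorizationMonoid.dvd_of_mem_factors hπ)
      exact hf2 (Ideal.mem_span_singleton.mp (hle ((hI'm f).mpr hf1)))
    · intro π hπ _ _
      rw [hF, Multiset.mem_toFinset] at hπ
      have h1 := UniqueFactorizationMonoid.prime_of_factor π hπ
      exact (Ideal.span_singleton_prime h1.ne_zero).mpr h1
  obtain ⟨q, hq1, hq2⟩ := hq
  refine ⟨g, p, q, hg0, ?_, ?_, ?_⟩
  · intro c hcp hcq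
    by_contra hcu
    have hc0 : c ≠ 0 := by
      rintro rfl
      exact hp0 (zero_dvd_iff.mp hcp)
    obtain ⟨π0, hπ0, hπc⟩ := WfDvdMonoid.exists_irreducible_factor hcu hc0
    obtain ⟨π, hπ, hass⟩ := UniqueFactorizationMonoid.exists_mem_factors_of_dvd hp0 hπ0 (hπc.trans hcp)
    exact hq2 π (by rw [hF, Multiset.mem_toFinset]; exact hπ) (hass.symm.dvd.trans (hπc.trans hcq))
  · intro a ha
    rw [← hV, mem_zeroLocus_iff]
    intro f hf
    obtain ⟨f', rfl⟩ := hgd f hf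
    rw [map_mul, hae, ha, zero_mul]
  · intro a ha
    have h1 : eval a (g * p) = 0 := by
      rw [← hae, ← hgp]
      exact mem_vanishingIdeal_iff.mp hf1 a ha
    have h2 : eval a (g * q) = 0 := by
      rw [← hae]
      exact mem_vanishingIdeal_iff.mp ((hI'm q).mp hq1) a ha
    rw [map_mul] at h1 h2
    rcases mul_eq_zero.mp h1 with h | h
    · exact Or.inl h
    · rcases mul_eq_zero.mp h2 with h' | h'
      · exact Or.inl h'
      · exact Or.inr ⟨h, h'⟩

end Pool.Agent.N17.CO
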