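import Pool.Agent.N17.CO.Stm

/-!
# Project CO: maximum matchings and tight sets (helper608)
-/

set_option autoImplicit false

namespace Pool.Agent.N17.CO

open Finset

namespace HALL

variable {K L ι : Type} [Fintype K] [Fintype L] [DecidableEq K] [DecidableEq L] [Fintype ι]

/-- a tight set shows that every matching leaves at least `d` rows -/
theorem ge_of_tight {k : ι → K} {j : ι → L} {d : ℕ} (hT : ∃ S, Ti k j d S) {U : Finset K} {μ : K → ι}
    (hM : Mt k j U μ) : d ≤ U.card := by
  classical
  obtain ⟨S, hS⟩ := hT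
  unfold Ti at hS
  have h1 : ((S \ U).image fun x => j (μ x)).card = (S \ U).card := by
    apply card_image_of_injOn
    intro x hx y hy hxy
    simp only [coe_sdiff, Set.mem_sdiff, mem_coe] at hx hy
    exact hM.inj x y hx.2 hy.2 hxy
  have h2 : ((S \ U).image fun x => j (μ x)) ⊆ nb k j S := by
    intro y hy
    rw [mem_image] at hy
    obtain ⟨x, hx, rfl⟩ := hy
    rw [mem_sdiff] at hx
    unfold nb
    rw [mem_filter]
    exact ⟨mem_univ _, μ x, by rw [hM.row x hx.2]; exact hx.1, rfl⟩
  have h3 := card_le_card h2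
  have h4 := card_le_card_sdiff_add_card (s := S) (t := U)
  omega

theorem gen [Nonempty ι] (k : ι → K) (j : ι → L) (d : ℕ) (hT : ∃ S, Ti k j d S) (p : ι → Prop)
    (hp : ∀ S : Finset K, ∃ N : Finset L, (∀ y ∈ N, ∃ i, p i ∧ k i ∈ S ∧ j i = y) ∧ S.card ≤ N.card + d) :
    ∃ (M : Finset ι) (U : Finset K) (μ : K → ι), (∀ i ∈ M, p i) ∧ U.card = d ∧ Mt k j U μ ∧
      (∀ x, x ∉ U → μ x ∈ M) ∧ (∀ i ∈ M, k i ∉ U ∧ μ (k i) = i) := by
  classical
  obtain ⟨M', hM1, hM2, hM3⟩ := Pool.Agent.W649.ZL.hall_deficiency (fun i : {i // p i} => k i.1)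
    (fun i : {i // p i} => j i.1) d (by
      intro S
      obtain ⟨N, hN1, hN2⟩ := hp S
      refine hN2.trans (Nat.add_le_add_right (card_le_card ?_) d)
      intro y hy
      obtain ⟨i, hi, hk, hj⟩ := hN1 y hy
      rw [mem_filter]
      exact ⟨mem_univ _, ⟨i, hi⟩, hk, hj⟩)
  set M : Finset ι := M'.image Subtype.val with hM
  have hcard : M.card = M'.card := card_image_of_injective _ Subtype.val_injective
  have hMp : ∀ i ∈ M, p i := by
    intro i hi
    rw [hM, mem_image] at hi
    obtain ⟨i', _, rfl⟩ := hi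
    exact i'.2
  have hMk : ∀ i ∈ M, ∀ i' ∈ M, k i = k i' → i = i' := by
    intro i hi i' hi' h
    rw [hM, mem_image] at hi hi'
    obtain ⟨a, ha, rfl⟩ := hi
    obtain ⟨b, hb, rfl⟩ := hi'
    rw [hM2 a ha b hb h]
  have hMj : ∀ i ∈ M, ∀ i' ∈ M, j i = j i' → i = i' := by
    intro i hi i' hi' h
    rw [hM, mem_image] at hi hi'
    obtain ⟨a, ha, rfl⟩ := hi
    obtain ⟨b, hb, rfl⟩ := hi'
    rw [hM3 a ha b hb h]
  set U : Finset K := univ \ M.image k with hU
  set μ : K → ι := fun x => if h : ∃ i ∈ M, k i = x then h.choose else Classical.arbitrary ι with hμ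
  have hμM : ∀ x, x ∉ U → μ x ∈ M ∧ k (μ x) = x := by
    intro x hx
    have h : ∃ i ∈ M, k i = x := by
      by_contra hcon
      apply hx
      rw [hU, mem_sdiff, mem_image]
      exact ⟨mem_univ _, hcon⟩
    rw [hμ]
    simp only
    rw [dif_pos h]
    exact h.choose_spec
  have hMt : Mt k j U μ := ⟨fun x hx => (hμM x hx).2, fun x y hx hy hxy => by
    have h1 := hMj _ (hμM x hx).1 _ (hμM y hy).1 hxy
    rw [← (hμM x hx).2, ← (hμM y hy).2, h1]⟩
  have hUc : U.card ≤ d := by
    rw [hU, card_univ_diff, card_image_of_injOn (fun i hi i' hi' h => hMk i hi i' hi' h), hcard]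
    omega
  refine ⟨M, U, μ, hMp, le_antisymm hUc (ge_of_tight hT hMt), hMt, fun x hx => (hμM x hx).1, ?_⟩
  intro i hi
  have h1 : k i ∉ U := by
    rw [hU, mem_sdiff]
    push Not
    exact fun _ => mem_image_of_mem k hi
  exact ⟨h1, hMk _ (hμM _ h1).1 _ hi (hμM _ h1).2⟩

end HALL

open HALL in
theorem t_HALL : S_HALL := by
  classical
  intro K L ι _ _ _ _ _ _ k j d hD hT
  have hmem : ∀ (S : Finset K) (y : L), y ∈ nb k j S ↔ ∃ i, k i ∈ S ∧ j i = y := by
    intro S y
    unfold nb
    simp
  have hnt : ∀ S : Finset K, ¬ Ti k j d S → S.card + 1 ≤ (nb k j S).card + d := by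
    intro S hS
    have h1 := hD S
    unfold Ti at hS
    omega
  refine ⟨?_, ?_, ?_, ?_⟩
  · obtain ⟨M, U, μ, -, hU, hM, -, -⟩ := gen k j d hT (fun _ => True) (fun S => ⟨nb k j S, fun y hy => by
      obtain ⟨i, h1, h2⟩ := (hmem S y).mp hy
      exact ⟨i, trivial, h1, h2⟩, hD S⟩)
    exact ⟨U, μ, hU, hM⟩
  · intro x hx
    obtain ⟨M, U, μ, hp, hU, hM, hμ, -⟩ := gen k j d hT (fun i => k i ≠ x) (fun S => by
      by_cases hxS : x ∈ S
      · have h0 : x ∉ S.erase x := notMem_erase x S
        have h1 := hnt (S.erase x) (fun h => h0 (hx _ h))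
        have h2 := card_erase_add_one hxS
        refine ⟨nb k j (S.erase x), ?_, by omega⟩
        intro y hy
        obtain ⟨i, h3, h4⟩ := (hmem _ y).mp hy
        rw [mem_erase] at h3
        exact ⟨i, h3.1, h3.2, h4⟩
      · refine ⟨nb k j S, ?_, hD S⟩
        intro y hy
        obtain ⟨i, h3, h4⟩ := (hmem _ y).mp hy
        exact ⟨i, fun h => hxS (h ▸ h3), h3, h4⟩)
    refine ⟨U, μ, hU, hM, ?_⟩
    by_contra hxU
    exact hp _ (hμ x hxU) (hM.row x hxU)
  · intro y hy
    obtain ⟨M, U, μ, hp, hU, hM, hμ, -⟩ := gen k j d hT (fun i => j i ≠ y) (fun S => by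
      refine ⟨(nb k j S).erase y, ?_, ?_⟩
      · intro y' hy'
        rw [mem_erase] at hy'
        obtain ⟨i, h3, h4⟩ := (hmem _ y').mp hy'.2
        exact ⟨i, by rw [h4]; exact hy'.1, h3, h4⟩
      · by_cases hS : Ti k j d S
        · rw [erase_eq_of_notMem (hy S hS)]
          exact hD S
        · have h1 := hnt S hS
          have h2 := pred_card_le_card_erase (s := nb k j S) (a := y)
          omega)
    exact ⟨U, μ, hU, hM, fun x hx => hp _ (hμ x hx)⟩
  · intro i hi
    have key : ∀ S : Finset K, k i ∉ S → S.card ≤ ((nb k j S).erase (j i)).card + d := by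
      intro S hS
      by_cases hTS : Ti k j d S
      · rw [erase_eq_of_notMem (fun h => hS (hi S hTS h))]
        exact hD S
      · have h1 := hnt S hTS
        have h2 := pred_card_le_card_erase (s := nb k j S) (a := j i)
        omega
    obtain ⟨M, U, μ, hp, hU, hM, hμ, hMi⟩ := gen k j d hT (fun i' => i' = i ∨ (k i' ≠ k i ∧ j i' ≠ j i)) (fun S => by
      by_cases hS : k i ∈ S
      · have h0 : k i ∉ S.erase (k i) := notMem_erase _ S
        have h1 := key _ h0
        have h2 := card_erase_add_one hS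
        refine ⟨insert (j i) ((nb k j (S.erase (k i))).erase (j i)), ?_, ?_⟩
        · intro y hy
          rw [mem_insert] at hy
          rcases hy with rfl | hy
          · exact ⟨i, Or.inl rfl, hS, rfl⟩
          · rw [mem_erase] at hy
            obtain ⟨i', h3, h4⟩ := (hmem _ y).mp hy.2
            rw [mem_erase] at h3
            exact ⟨i', Or.inr ⟨h3.1, by rw [h4]; exact hy.1⟩, h3.2, h4⟩
        · rw [card_insert_of_notMem (notMem_erase _ _)]
          omega
      · refine ⟨(nb k j S).erase (j i), ?_, key S hS⟩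
        intro y hy
        rw [mem_erase] at hy
        obtain ⟨i', h3, h4⟩ := (hmem _ y).mp hy.2
        exact ⟨i', Or.inr ⟨fun h => hS (h ▸ h3), by rw [h4]; exact hy.1⟩, h3, h4⟩)
    have hiM : i ∈ M := by
      by_contra hiM
      have hne : ∀ i' ∈ M, k i' ≠ k i ∧ j i' ≠ j i := by
        intro i' hi'
        rcases hp i' hi' with h | h
        · exact absurd (h ▸ hi') hiM
        · exact h
      have hkU : k i ∈ U := by
        by_contra hkU
        exact (hne _ (hμ _ hkU)).1 (hM.row _ hkU)
      have hM' : Mt k j (U.erase (k i)) (Function.update μ (k i) i) := by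
        have hc : ∀ x, x ∉ U.erase (k i) → x = k i ∨ (x ≠ k i ∧ x ∉ U) := by
          intro x hx
          by_cases h : x = k i
          · exact Or.inl h
          · refine Or.inr ⟨h, fun hxU => hx ?_⟩
            rw [mem_erase]
            exact ⟨h, hxU⟩
        constructor
        · intro x hx
          rcases hc x hx with rfl | ⟨h, hxU⟩
          · rw [Function.update_self]
          · rw [Function.update_of_ne h]
            exact hM.row x hxU
        · intro x y hx hy hxy
          rcases hc x hx with rfl | ⟨h, hxU⟩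
          · rcases hc y hy with rfl | ⟨h', hyU⟩
            · rfl
            · rw [Function.update_self, Function.update_of_ne h'] at hxy
              exact absurd hxy.symm (hne _ (hμ y hyU)).2
          · rcases hc y hy with rfl | ⟨h', hyU⟩
            · rw [Function.update_self, Function.update_of_ne h] at hxy
              exact absurd hxy (hne _ (hμ x hxU)).2
            · rw [Function.update_of_ne h, Function.update_of_ne h'] at hxy
              exact hM.inj x y hxU hyU hxy
      have h1 := ge_of_tight hT hM'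
      have h2 := card_erase_add_one hkU
      omega
    exact ⟨U, μ, hU, hM, (hMi i hiM).1, (hMi i hiM).2⟩

end Pool.Agent.N17.CO
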