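import Pool.Agent.N17.CO.Stm

/-!
# Project CO (helper17), part HOM (helper157): homogeneity of irreducible polynomials
-/

set_option autoImplicit false

namespace Pool.Agent.N17.CO

open MvPolynomial

namespace HOM

section
variable {ι : Type} [Fintype ι]

/-- rescaling of the variables -/
noncomputable def ph (w : ι → ℕ) (c : ℂ) : MvPolynomial ι ℂ →ₐ[ℂ] MvPolynomial ι ℂ :=
  aeval (fun i => C (c ^ w i) * X i)

/-- the weight -/
def Wt (w : ι → ℕ) (m : ι →₀ ℕ) : ℕ := ∑ i, w i * m i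

omit [Fintype ι] in
theorem eval_ph (w : ι → ℕ) (c : ℂ) (p : MvPolynomial ι ℂ) (a : ι → ℂ) :
    eval a (ph w c p) = eval (fun i => c ^ w i * a i) p := by
  have h : ((aeval a : MvPolynomial ι ℂ →ₐ[ℂ] ℂ).comp (ph w c)) =
      aeval (fun i => c ^ w i * a i) := by
    apply algHom_ext
    intro i
    simp [ph]
  have h2 := congrArg (fun g => g p) h
  simpa [coe_aeval_eq_eval] using h2

theorem prod_pow_wt (w : ι → ℕ) (c : ℂ) (m : ι →₀ ℕ) : ∏ i, (c ^ w i) ^ m i = c ^ Wt w m := by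
  unfold Wt
  rw [← Finset.prod_pow_eq_pow_sum]
  apply Finset.prod_congr rfl
  intro i _
  rw [pow_mul]

theorem ph_monomial (w : ι → ℕ) (c : ℂ) (m : ι →₀ ℕ) (b : ℂ) :
    ph w c (monomial m b) = monomial m (c ^ Wt w m * b) := by
  unfold ph
  rw [aeval_monomial, monomial_eq, C_mul]
  rw [Finsupp.prod_fintype _ _ (fun i => pow_zero _), Finsupp.prod_fintype _ _ (fun i => pow_zero _)]
  simp only [mul_pow, Finset.prod_mul_distrib, ← C_pow, algebraMap_eq]
  rw [← map_prod C, prod_pow_wt]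
  ring

theorem coeff_ph (w : ι → ℕ) (c : ℂ) (p : MvPolynomial ι ℂ) (m : ι →₀ ℕ) :
    coeff m (ph w c p) = c ^ Wt w m * coeff m p := by
  classical
  induction p using MvPolynomial.induction_on' with
  | monomial u b =>
    rw [ph_monomial, coeff_monomial, coeff_monomial]
    split_ifs with h
    · rw [h]
    · rw [mul_zero]
  | add p q hp hq =>
    rw [map_add, coeff_add, coeff_add, hp, hq]
    ring

theorem ph_ph (w : ι → ℕ) (c d : ℂ) (hcd : c * d = 1) (p : MvPolynomial ι ℂ) :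
    ph w c (ph w d p) = p := by
  ext m
  rw [coeff_ph, coeff_ph, ← mul_assoc, ← mul_pow, hcd, one_pow, one_mul]

/-- the rescaling is an isomorphism -/
noncomputable def phE (w : ι → ℕ) (c : ℂ) (hc : c ≠ 0) : MvPolynomial ι ℂ ≃ₐ[ℂ] MvPolynomial ι ℂ :=
  AlgEquiv.ofAlgHom (ph w c) (ph w c⁻¹)
    (by ext1 i; exact ph_ph w c c⁻¹ (mul_inv_cancel₀ hc) _)
    (by ext1 i; exact ph_ph w c⁻¹ c (inv_mul_cancel₀ hc) _)

theorem irr_ph (w : ι → ℕ) (c : ℂ) (hc : c ≠ 0) {p : MvPolynomial ι ℂ} (hp : Irreducible p) :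
    Irreducible (ph w c p) :=
  (MulEquiv.irreducible_iff (phE w c hc)).2 hp

theorem eval_scale (w : ι → ℕ) (p : MvPolynomial ι ℂ) (r : ℕ) (hr : ∀ m ∈ p.support, Wt w m = r)
    (c : ℂ) (a : ι → ℂ) : eval (fun i => c ^ w i * a i) p = c ^ r * eval a p := by
  rw [eval_eq', eval_eq', Finset.mul_sum]
  apply Finset.sum_congr rfl
  intro m hm
  simp only [mul_pow, Finset.prod_mul_distrib]
  rw [prod_pow_wt, hr m hm]
  ring

end

end HOM

open HOM in
theorem t_HOM : S_HOM := by
  intro ι _ π f w hπ hf hv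
  classical
  -- all the rescalings divide `f`
  have hdvd : ∀ c : ℂ, c ≠ 0 → ph w c π ∣ f := by
    intro c hc
    have hirr := irr_ph w c hc hπ
    have hprime : (Ideal.span {ph w c π}).IsPrime :=
      (Ideal.span_singleton_prime hirr.ne_zero).2 hirr.prime
    have hmem : f ∈ vanishingIdeal ℂ (zeroLocus ℂ (Ideal.span {ph w c π})) := by
      rw [mem_vanishingIdeal_iff]
      intro x hx
      rw [mem_zeroLocus_iff] at hx
      have h1 := hx _ (Ideal.mem_span_singleton_self _)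
      have key : ∀ p : MvPolynomial ι ℂ, (aeval x p : ℂ) = eval x p := by
        intro p
        rw [← coe_aeval_eq_eval]
        rfl
      rw [key] at h1 ⊢
      rw [eval_ph] at h1
      exact hv c hc x h1
    rw [vanishingIdeal_zeroLocus_eq_radical, hprime.radical, Ideal.mem_span_singleton] at hmem
    exact hmem
  have hc0 : ∀ s : ℕ, ((2 : ℂ) ^ s) ≠ 0 := fun s => pow_ne_zero _ two_ne_zero
  have hq : ∀ s : ℕ, ∃ q ∈ UniqueFactorizationMonoid.factors f, Associated (ph w (2 ^ s) π) q :=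
    fun s => UniqueFactorizationMonoid.exists_mem_factors_of_dvd hf (irr_ph w _ (hc0 s) hπ)
      (hdvd _ (hc0 s))
  choose q hqm hqa using hq
  obtain ⟨s, s', hne, heq⟩ := Finite.exists_ne_map_eq_of_infinite
    (fun s : ℕ => (⟨q s, Multiset.mem_toFinset.2 (hqm s)⟩ :
      {x // x ∈ (UniqueFactorizationMonoid.factors f).toFinset}))
  have hqq : q s = q s' := congrArg Subtype.val heq
  have hass : Associated (ph w (2 ^ s) π) (ph w (2 ^ s') π) :=
    (hqa s).trans ((hqq ▸ Associated.refl (q s) : Associated (q s) (q s')).trans (hqa s').symm)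
  obtain ⟨v, hvv⟩ := hass
  obtain ⟨u, hu, huv⟩ := isUnit_iff_eq_C_of_isReduced.1 v.isUnit
  have hu0 : u ≠ 0 := hu.ne_zero
  have hcoef : ∀ m ∈ π.support, ((2 : ℂ) ^ s) ^ Wt w m * u = ((2 : ℂ) ^ s') ^ Wt w m := by
    intro m hm
    have h1 := congrArg (coeff m) hvv
    rw [huv, mul_comm, coeff_C_mul, coeff_ph, coeff_ph] at h1
    have h2 : coeff m π ≠ 0 := mem_support_iff.1 hm
    apply mul_right_cancel₀ h2
    linear_combination h1
  have hsame : ∀ m ∈ π.support, ∀ m' ∈ π.support, Wt w m = Wt w m' := by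
    intro m hm m' hm'
    have h1 := hcoef m hm
    have h2 := hcoef m' hm'
    have h3 : ((2 : ℂ) ^ s) ^ Wt w m * ((2 : ℂ) ^ s') ^ Wt w m' =
        ((2 : ℂ) ^ s) ^ Wt w m' * ((2 : ℂ) ^ s') ^ Wt w m := by
      rw [← h1, ← h2]
      ring
    rw [← pow_mul, ← pow_mul, ← pow_mul, ← pow_mul, ← pow_add, ← pow_add] at h3
    have h4 : (2 : ℕ) ^ (s * Wt w m + s' * Wt w m') = 2 ^ (s * Wt w m' + s' * Wt w m) := by
      exact_mod_cast h3
    have h5 := Nat.pow_right_injective le_rfl h4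
    have h6 : ((s : ℤ) - s') * ((Wt w m : ℤ) - Wt w m') = 0 := by
      have h7 : (s : ℤ) * Wt w m + s' * Wt w m' = s * Wt w m' + s' * Wt w m := by exact_mod_cast h5
      linear_combination h7
    rcases mul_eq_zero.1 h6 with h7 | h7
    · exact absurd (by omega) hne
    · omega
  obtain ⟨m0, hm0⟩ : π.support.Nonempty := by
    rw [support_nonempty]
    exact hπ.ne_zero
  exact ⟨Wt w m0, fun c a => eval_scale w π _ (fun m hm => hsame m hm m0 hm0) c a⟩

end Pool.Agent.N17.CO
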