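import Pool.Agent.N17.CO.Stm

set_option autoImplicit false

/-!
# CO/IND (helper401): only the diagonal variables in rows of positive degree matter
-/

namespace Pool.Agent.N17.CO

open MvPolynomial Pool.Agent.W649.ZL

namespace IND

open Classical in
/-- the variables with the property `P` do not matter -/
def Null {ι : Type} (π : MvPolynomial ι ℂ) (P : ι → Prop) : Prop :=
  ∀ a : ι → ℂ, eval (fun i => if P i then 0 else a i) π = eval a π

theorem null_congr {ι : Type} {π : MvPolynomial ι ℂ} {P Q : ι → Prop} (h : ∀ i, P i ↔ Q i)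
    (hP : Null π P) : Null π Q := by
  have : P = Q := funext fun i => propext (h i)
  rwa [← this]

theorem null_or {ι : Type} {π : MvPolynomial ι ℂ} {P Q : ι → Prop} (hP : Null π P)
    (hQ : Null π Q) : Null π (fun i => P i ∨ Q i) := by
  classical
  intro a
  rw [← hQ a, ← hP (fun i => if Q i then 0 else a i)]
  congr 2
  funext i
  by_cases h1 : P i <;> by_cases h2 : Q i <;> simp [h1, h2]

theorem null_ex {ι T : Type} {π : MvPolynomial ι ℂ} (s : Finset T) (P : T → ι → Prop)
    (h : ∀ t ∈ s, Null π (P t)) : Null π (fun i => ∃ t ∈ s, P t i) := by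
  classical
  induction s using Finset.induction_on with
  | empty =>
    intro a
    simp
  | insert t s ht ih =>
    refine null_congr (fun i => ?_) (null_or (h t (Finset.mem_insert_self t s))
      (ih fun t' ht' => h t' (Finset.mem_insert_of_mem ht')))
    simp

theorem null_of {ι : Type} {π : MvPolynomial ι ℂ} {P : ι → Prop} (h : ∀ c : ℂ, c ≠ 0 →
    ∀ a : ι → ℂ, (open Classical in eval (fun i => (if P i then c else 1) * a i) π) = eval a π) :
    Null π P := by
  classical
  intro a
  let q : Polynomial ℂ := MvPolynomial.aeval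
    (fun i => (if P i then Polynomial.X else 1) * Polynomial.C (a i)) π
  have hq : ∀ c : ℂ, q.eval c = eval (fun i => (if P i then c else 1) * a i) π := by
    intro c
    have h1 : q.eval c = (Polynomial.evalRingHom c).comp
        (MvPolynomial.aeval (R := ℂ)
          (fun i => (if P i then Polynomial.X else 1) * Polynomial.C (a i))).toRingHom π := rfl
    rw [h1]
    have h2 : ((Polynomial.evalRingHom c).comp
        (MvPolynomial.aeval (R := ℂ)
          (fun i => (if P i then Polynomial.X else 1) * Polynomial.C (a i))).toRingHom) =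
        (eval (fun i => (if P i then c else 1) * a i) : MvPolynomial ι ℂ →+* ℂ) := by
      apply MvPolynomial.ringHom_ext
      · intro r
        simp
      · intro i
        simp only [RingHom.comp_apply, AlgHom.toRingHom_eq_coe, RingHom.coe_coe, aeval_X, eval_X,
          Polynomial.coe_evalRingHom, Polynomial.eval_mul, Polynomial.eval_C]
        split_ifs <;> simp
    rw [h2]
  have h3 : q = Polynomial.C (eval a π) := by
    apply Polynomial.eq_of_infinite_eval_eq
    have h4 : {c : ℂ | c ≠ 0} ⊆ {x | Polynomial.eval x q =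
        Polynomial.eval x (Polynomial.C (eval a π))} := by
      intro c hc
      show q.eval c = _
      rw [hq c, Polynomial.eval_C]
      exact h c hc a
    refine Set.Infinite.mono h4 ?_
    have h5 : {c : ℂ | c ≠ 0} = ({0} : Set ℂ)ᶜ := rfl
    rw [h5]
    exact (Set.finite_singleton (0 : ℂ)).infinite_compl
  have h4 := hq 0
  rw [h3, Polynomial.eval_C] at h4
  rw [h4]
  congr 2
  funext i
  by_cases h1 : P i <;> simp [h1]

end IND

open IND in
theorem t_IND : S_TIGHT → S_IND := by
  classical
  intro hT K L ι _ _ _ _ _ k j d r s π hHg hDf hCp U μ hU hMt a b hab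
  have hnull1 : ∀ S, Ti k j d S → Null π (fun i => k i ∉ S ∧ j i ∈ nb k j S) := by
    intro S hS
    obtain ⟨hUS, -, hx⟩ := (hT K L ι k j d hDf).2 U μ hU hMt S hS
    apply null_of
    intro c hc a
    have h1 := hHg (fun x => if x ∈ S then 1 else c) (fun y => if y ∈ nb k j S then 1 else c⁻¹) a
    have h2 : (fun i => (if k i ∈ S then 1 else c) * (if j i ∈ nb k j S then 1 else c⁻¹) * a i) =
        (fun i => (if k i ∉ S ∧ j i ∈ nb k j S then c else 1) * a i) := by
      funext i
      congr 1
      by_cases h3 : k i ∈ S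
      · have h4 : j i ∈ nb k j S := by
          unfold nb
          rw [Finset.mem_filter]
          exact ⟨Finset.mem_univ _, i, h3, rfl⟩
        simp [h3, h4]
      · by_cases h4 : j i ∈ nb k j S
        · simp [h3, h4]
        · simp [h3, h4, mul_inv_cancel₀ hc]
    rw [h2] at h1
    have h5 : (∏ x, (if x ∈ S then (1 : ℂ) else c) ^ r x) = c ^ (∑ x ∈ Sᶜ, r x) := by
      rw [← Finset.prod_pow_eq_pow_sum, ← Finset.prod_mul_prod_compl S]
      have e1 : ∏ x ∈ S, (if x ∈ S then (1 : ℂ) else c) ^ r x = 1 := by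
        refine Finset.prod_eq_one fun x hx => ?_
        rw [if_pos hx, one_pow]
      rw [e1, one_mul]
      refine Finset.prod_congr rfl fun x hx => ?_
      rw [if_neg (Finset.mem_compl.1 hx)]
    have h6 : (∏ y, (if y ∈ nb k j S then (1 : ℂ) else c⁻¹) ^ s y) =
        c⁻¹ ^ (∑ y ∈ (nb k j S)ᶜ, s y) := by
      rw [← Finset.prod_pow_eq_pow_sum, ← Finset.prod_mul_prod_compl (nb k j S)]
      have e1 : ∏ y ∈ nb k j S, (if y ∈ nb k j S then (1 : ℂ) else c⁻¹) ^ s y = 1 := by
        refine Finset.prod_eq_one fun x hx => ?_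
        rw [if_pos hx, one_pow]
      rw [e1, one_mul]
      refine Finset.prod_congr rfl fun x hx => ?_
      rw [if_neg (Finset.mem_compl.1 hx)]
    have h7 : ∑ x ∈ Sᶜ, r x = ∑ y ∈ (nb k j S)ᶜ, s y := by
      obtain ⟨hc1, hc2, hc3⟩ := hCp U μ hU hMt
      have hnU : ∀ x ∈ Sᶜ, x ∉ U := fun x hx hxU => (Finset.mem_compl.1 hx) (hUS hxU)
      have e1 : ∑ x ∈ Sᶜ, r x = ∑ x ∈ Sᶜ, s (j (μ x)) :=
        Finset.sum_congr rfl fun x hx => hc2 x (hnU x hx)
      have e2 : ∑ y ∈ (Sᶜ).image (fun x => j (μ x)), s y = ∑ x ∈ Sᶜ, s (j (μ x)) :=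
        Finset.sum_image fun x hx y hy hxy => hMt.inj x y (hnU x hx) (hnU y hy) hxy
      rw [e1, ← e2]
      refine Finset.sum_subset ?_ ?_
      · intro y hy
        obtain ⟨x, hx1, rfl⟩ := Finset.mem_image.1 hy
        rw [Finset.mem_compl]
        intro h8
        exact (Finset.mem_compl.1 hx1) (hx x (hnU x hx1) h8)
      · intro y hy hyn
        apply hc3
        intro x hxU hxy
        by_cases hxS : x ∈ S
        · apply Finset.mem_compl.1 hy
          unfold nb
          rw [Finset.mem_filter]
          exact ⟨Finset.mem_univ _, μ x, by rw [hMt.row x hxU]; exact hxS, hxy⟩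
        · exact hyn (Finset.mem_image.2 ⟨x, Finset.mem_compl.2 hxS, hxy⟩)
    rw [h5, h6, h7, ← mul_pow, mul_inv_cancel₀ hc, one_pow, one_mul] at h1
    rw [← h1]
    congr 2
    funext i
    by_cases h8 : k i ∉ S ∧ j i ∈ nb k j S
    · rw [if_pos h8, if_pos h8]
    · rw [if_neg h8, if_neg h8]
  have hnull2 : ∀ x, r x = 0 → Null π (fun i => k i = x) := by
    intro x hx a
    have h1 := hHg (fun y => if y = x then 0 else 1) (fun _ => 1) a
    have h2 : (∏ y, (if y = x then (0 : ℂ) else 1) ^ r y) = 1 := by
      refine Finset.prod_eq_one fun y _ => ?_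
      by_cases hy : y = x
      · subst hy
        rw [hx, pow_zero]
      · rw [if_neg hy, one_pow]
    simp only [h2, one_pow, Finset.prod_const_one, one_mul, mul_one] at h1
    rw [← h1]
    congr 2
    funext i
    by_cases h3 : k i = x <;> simp [h3]
  have hN1 := null_ex (π := π) (Finset.univ.filter fun S : Finset K => Ti k j d S)
    (fun S i => k i ∉ S ∧ j i ∈ nb k j S) (fun S hS => hnull1 S (Finset.mem_filter.1 hS).2)
  have hN2 := null_ex (π := π) (Finset.univ.filter fun x : K => r x = 0)
    (fun x i => k i = x) (fun x hx => hnull2 x (Finset.mem_filter.1 hx).2)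
  have hN : Null π (fun i => ¬ (Dg k j d i ∧ 0 < r (k i))) := by
    refine null_congr (fun i => ?_) (null_or hN1 hN2)
    constructor
    · rintro (⟨S, hS, h1, h2⟩ | ⟨x, hx, h1⟩) ⟨h3, h4⟩
      · exact h1 (h3 S (Finset.mem_filter.1 hS).2 h2)
      · have := (Finset.mem_filter.1 hx).2
        rw [h1] at h4
        omega
    · intro h1
      by_cases h2 : Dg k j d i
      · right
        have h3 : r (k i) = 0 := by
          by_contra h4
          exact h1 ⟨h2, Nat.pos_of_ne_zero h4⟩
        exact ⟨k i, Finset.mem_filter.2 ⟨Finset.mem_univ _, h3⟩, rfl⟩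
      · left
        unfold Dg at h2
        push Not at h2
        obtain ⟨S, hS, h3, h4⟩ := h2
        exact ⟨S, Finset.mem_filter.2 ⟨Finset.mem_univ _, hS⟩, h4, h3⟩
  rw [← hN a, ← hN b]
  congr 2
  funext i
  by_cases h1 : Dg k j d i ∧ 0 < r (k i)
  · rw [if_neg (not_not.2 h1), if_neg (not_not.2 h1)]
    exact hab i h1.1 h1.2
  · rw [if_pos h1, if_pos h1]

end Pool.Agent.N17.CO
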