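import Pool.Agent.N17.CO.Stm

set_option autoImplicit false
set_option linter.unusedSectionVars false

/-!
# Project CO (helper17), LB: the lower bound on hypersurfaces

By helper814.
-/

namespace Pool.Agent.N17.CO

open MvPolynomial Pool.Agent.W649.ZL

namespace LB

/-- walks in a subset of the edges, forgetting the subset -/
lemma walk_map {V E : Type} {P : E → Prop} (s t : E → V) :
    ∀ (W : List {e : E // P e}) (x y : V),
      Walk (fun e : {e : E // P e} => s e.1) (fun e => t e.1) x W y →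
      Walk s t x (W.map Subtype.val) y
  | [], _, _, h => h
  | e :: W, _, y, h => ⟨h.1, walk_map s t W (t e.1) y h.2⟩

/-- walks all of whose edges are in a subset -/
lemma walk_lift {V E : Type} {P : E → Prop} (s t : E → V) :
    ∀ (W : List E) (x y : V), (∀ e ∈ W, P e) → Walk s t x W y →
      ∃ W' : List {e : E // P e},
        Walk (fun e : {e : E // P e} => s e.1) (fun e => t e.1) x W' y
  | [], _, _, _, h => ⟨[], h⟩
  | e :: W, _, y, hP, h => by
    obtain ⟨W', hW'⟩ := walk_lift s t W (t e) y (fun e' he' => hP e' (List.mem_cons_of_mem _ he'))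
      h.2
    exact ⟨⟨e, hP e List.mem_cons_self⟩ :: W', h.1, hW'⟩

section
variable {K L ι : Type} [Fintype K] [Fintype L] [DecidableEq K] [DecidableEq L] [Fintype ι]

lemma mem_nb {k : ι → K} {j : ι → L} {S : Finset K} {y : L} :
    y ∈ nb k j S ↔ ∃ i, k i ∈ S ∧ j i = y := by
  classical
  unfold nb
  rw [Finset.mem_filter]
  exact ⟨fun h => h.2, fun h => ⟨Finset.mem_univ _, h⟩⟩

lemma nb_mono {k : ι → K} {j : ι → L} {S T : Finset K} (h : S ⊆ T) {y : L}
    (hy : y ∈ nb k j S) : y ∈ nb k j T := by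
  obtain ⟨i, h1, h2⟩ := mem_nb.1 hy
  exact mem_nb.2 ⟨i, h h1, h2⟩

/-- a largest tight set without `x0` -/
lemma exists_Q {k : ι → K} {j : ι → L} {d : ℕ}
    (hun : ∀ S T, Ti k j d S → Ti k j d T → Ti k j d (S ∪ T)) {x0 : K}
    (h : ∃ S, Ti k j d S ∧ x0 ∉ S) :
    ∃ Q, Ti k j d Q ∧ x0 ∉ Q ∧ ∀ S, Ti k j d S → x0 ∉ S → S ⊆ Q := by
  classical
  obtain ⟨S0, h1, h2⟩ := h
  obtain ⟨Q, hQ, hmax⟩ := Finset.exists_max_image
    (Finset.univ.filter fun S : Finset K => Ti k j d S ∧ x0 ∉ S) Finset.card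
    ⟨S0, Finset.mem_filter.2 ⟨Finset.mem_univ _, h1, h2⟩⟩
  obtain ⟨-, hQ1, hQ2⟩ := Finset.mem_filter.1 hQ
  refine ⟨Q, hQ1, hQ2, fun S hS hxS => ?_⟩
  have h3 : Ti k j d (S ∪ Q) := hun S Q hS hQ1
  have h4 : x0 ∉ S ∪ Q := by
    rw [Finset.mem_union]
    rintro (h | h)
    · exact hxS h
    · exact hQ2 h
  have h5 := hmax (S ∪ Q) (Finset.mem_filter.2 ⟨Finset.mem_univ _, h3, h4⟩)
  have h6 : Q = S ∪ Q := Finset.eq_of_subset_of_card_le Finset.subset_union_right h5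
  rw [h6]
  exact Finset.subset_union_left

end

end LB

theorem t_LB : S_CP → S_A3 → S_POT → S_CONN → S_IND → S_HALL → S_TIGHT → S_FULL → S_LOW →
    S_LB := by
  intro hCP hA3 hPOT hCONN hIND hHALL hTIGHT hFULL hLOW
  intro G K L ι _ _ _ _ _ _ h k j d π r s hG hDf hTi hne hHg hπ a ha
  classical
  have hCp : Cp k j d r s := hCP G K L ι h k j d π r s hHg hπ
  obtain ⟨hH1, hH2, -, hH4⟩ := hHALL K L ι k j d hDf hTi
  obtain ⟨U, μ, hU, hMt⟩ := hH1
  obtain ⟨hT1, hT2⟩ := hTIGHT K L ι k j d hDf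
  have hrU : ∀ x, x ∈ U → r x = 0 := (hCp U μ hU hMt).1
  have hrs : ∀ x, x ∉ U → r x = s (j (μ x)) := (hCp U μ hU hMt).2.1
  -- the targets
  have hC : ∀ i, Dg k j d i → 0 < r (k i) →
      ∃ z, (z ∉ U ∧ j i = j (μ z)) ∧ r z = r (k i) := by
    intro i hi hr
    obtain ⟨U', μ', hU', hMt', h1, h2⟩ := hH4 i hi
    have h3 := (hCp U' μ' hU' hMt').2.1 (k i) h1
    rw [h2] at h3
    by_contra hcon
    have h4 : s (j i) = 0 := by
      refine (hCp U μ hU hMt).2.2 (j i) fun x hx hj => ?_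
      refine hcon ⟨x, ⟨hx, hj.symm⟩, ?_⟩
      rw [hrs x hx, hj, h3]
    omega
  obtain ⟨tg, htg⟩ : ∃ tg : ι → K, ∀ i, Dg k j d i → 0 < r (k i) →
      (tg i ∉ U ∧ j i = j (μ (tg i))) ∧ r (tg i) = r (k i) := by
    refine ⟨fun i => if hi : ∃ z, (z ∉ U ∧ j i = j (μ z)) ∧ r z = r (k i) then hi.choose else k i,
      fun i hi hr => ?_⟩
    have h1 := hC i hi hr
    dsimp only
    rw [dif_pos h1]
    exact h1.choose_spec
  have hkU : ∀ i, 0 < r (k i) → k i ∉ U := by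
    intro i hr hk
    have := hrU _ hk
    omega
  -- the potentials
  obtain ⟨α, hα⟩ := hPOT K {i // Dg k j d i ∧ 0 < r (k i)} G (fun e => k e.1) (fun e => tg e.1)
    (fun e => h e.1 * (h (μ (tg e.1)))⁻¹) (by
      intro x W hW hnd
      have h1 := hA3 G K L ι h k j d π r s hG hHg hπ U μ hU hMt tg x (W.map Subtype.val) (by
        intro i hi
        obtain ⟨e, -, rfl⟩ := List.mem_map.1 hi
        have h2 := (htg e.1 e.2.1 e.2.2).1
        exact ⟨hkU _ e.2.2, h2.1, h2.2, e.2.2⟩) (LB.walk_map k tg W x x hW) (by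
        rw [List.map_map]
        exact hnd)
      rw [List.map_map] at h1
      exact h1)
  have hα' : ∀ i, Dg k j d i → 0 < r (k i) →
      h i * (h (μ (tg i)))⁻¹ = (α (k i))⁻¹ * α (tg i) := by
    intro i hi hr
    obtain ⟨W, hW1, hW2⟩ := hCONN K L ι k j d r s hDf hTi hCp U μ hU hMt tg
      (fun i hi hr => (htg i hi hr).1) i hi hr
    obtain ⟨W', hW'⟩ := LB.walk_lift (P := fun i => Dg k j d i ∧ 0 < r (k i)) k tg W (tg i) (k i)
      hW1 hW2
    exact hα ⟨i, hi, hr⟩ ⟨W', hW'⟩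
  -- the coefficients
  obtain ⟨b, hb1, hb2, hb3⟩ : ∃ b : ι → ℂ, (∀ i, Dg k j d i → 0 < r (k i) → b i = a i) ∧
      (∀ i, ¬ (Dg k j d i ∧ 0 < r (k i)) → (∃ x, x ∉ U ∧ i = μ x) → b i = 1) ∧
      (∀ i, ¬ (Dg k j d i ∧ 0 < r (k i)) → ¬ (∃ x, x ∉ U ∧ i = μ x) → b i = 0) := by
    refine ⟨fun i => if Dg k j d i ∧ 0 < r (k i) then a i else
      if ∃ x, x ∉ U ∧ i = μ x then 1 else 0, ?_, ?_, ?_⟩
    · intro i hi hr
      exact if_pos ⟨hi, hr⟩
    · intro i hi hx
      dsimp only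
      rw [if_neg hi, if_pos hx]
    · intro i hi hx
      dsimp only
      rw [if_neg hi, if_neg hx]
  have hbd : ¬ (kd (famR h k j) b ≤ d) := by
    intro hle
    apply hπ b hle
    rw [← ha]
    exact (hIND K L ι k j d r s π hHg hDf hCp U μ hU hMt a b
      (fun i hi hr => (hb1 i hi hr).symm)).symm
  have hv : ∃ v : K → ℂ, (∀ y, y ∉ U → ∑ i, (if j i = j (μ y) then b i * v (k i) else 0) = 0) ∧
      ∃ x, x ∉ U ∧ v x ≠ 0 := by
    by_contra hcon
    apply hbd
    rw [← hU]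
    refine hFULL G K L ι h k j b U μ α hMt ?_ ?_
    · intro i hbi
      by_cases hE : Dg k j d i ∧ 0 < r (k i)
      · have h2 := (htg i hE.1 hE.2).1
        exact ⟨hkU _ hE.2, tg i, h2.1, h2.2, hα' i hE.1 hE.2⟩
      · by_cases hx : ∃ x, x ∉ U ∧ i = μ x
        · obtain ⟨x, hx, rfl⟩ := hx
          refine ⟨by rw [hMt.row x hx]; exact hx, x, hx, rfl, ?_⟩
          rw [hMt.row x hx, mul_inv_cancel, inv_mul_cancel]
        · exact absurd (hb3 i hE hx) hbi
    · intro v hv x hx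
      by_contra hvx
      exact hcon ⟨v, hv, x, hx, hvx⟩
  obtain ⟨v, hv, x0, hx0U, hvx0⟩ := hv
  -- (1)
  have h1 : ∀ z, z ∉ U → v z ≠ 0 → 0 < r z := by
    intro z hz hvz
    by_contra hr
    have hr0 : r z = 0 := by omega
    have hE : ∀ i, j i = j (μ z) → ¬ (Dg k j d i ∧ 0 < r (k i)) := by
      rintro i hi ⟨h2, h3⟩
      have h4 := htg i h2 h3
      have h5 : tg i = z := hMt.inj _ _ h4.1.1 hz (by rw [← h4.1.2, hi])
      rw [h5, hr0] at h4
      omega
    have h2 := hv z hz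
    rw [Finset.sum_eq_single (μ z)] at h2
    · rw [if_pos rfl, hb2 (μ z) (hE _ rfl) ⟨z, hz, rfl⟩, hMt.row z hz, one_mul] at h2
      exact hvz h2
    · intro i _ hi
      split_ifs with hji
      · rw [hb3 i (hE i hji), zero_mul]
        rintro ⟨x, hx, rfl⟩
        apply hi
        rw [hMt.inj x z hx hz hji]
      · rfl
    · intro hh
      exact absurd (Finset.mem_univ _) hh
  have hr0 : 0 < r x0 := h1 x0 hx0U hvx0
  -- (2)
  have hex : ∃ S, Ti k j d S ∧ x0 ∉ S := by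
    by_contra hcon
    have h2 : ∀ S, Ti k j d S → x0 ∈ S := by
      intro S hS
      by_contra hx
      exact hcon ⟨S, hS, hx⟩
    obtain ⟨U', μ', hU', hMt', h3⟩ := hH2 x0 h2
    have := (hCp U' μ' hU' hMt').1 x0 h3
    omega
  obtain ⟨Q, hQ, hxQ, hQmax⟩ := LB.exists_Q hT1 hex
  have hUQ : U ⊆ Q := (hT2 U μ hU hMt Q hQ).1
  obtain ⟨B, hB⟩ : ∃ B : Set K, B = {x | ∀ S, Ti k j d S → (x ∈ S ↔ x0 ∈ S)} := ⟨_, rfl⟩
  have hBm : ∀ x, x ∈ B ↔ ∀ S, Ti k j d S → (x ∈ S ↔ x0 ∈ S) := by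
    intro x
    rw [hB]
    exact Iff.rfl
  have hBQ : ∀ x, x ∈ B → x ∉ Q := fun x hx hxq => hxQ (((hBm x).1 hx Q hQ).1 hxq)
  obtain ⟨vB, hvB1, hvB0⟩ : ∃ vB : K → ℂ, (∀ x, x ∈ B → vB x = v x) ∧ ∀ x, x ∉ B → vB x = 0 := by
    refine ⟨fun x => if x ∈ B then v x else 0, fun x hx => if_pos hx, fun x hx => if_neg hx⟩
  have hvBB : ∀ x, vB x ≠ 0 → x ∈ B := by
    intro x hx
    by_contra hxB
    exact hx (hvB0 x hxB)
  have hx0B : x0 ∈ B := (hBm x0).2 fun S _ => Iff.rfl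
  -- (3)
  have h3 : ∀ i, vB (k i) ≠ 0 → j i ∉ nb k j Q → Dg k j d i ∧ 0 < r (k i) := by
    intro i hvi hji
    have hkB := hvBB _ hvi
    constructor
    · intro S hS hjS
      by_cases hx : x0 ∈ S
      · exact ((hBm _).1 hkB S hS).2 hx
      · exact absurd (LB.nb_mono (hQmax S hS hx) hjS) hji
    · refine h1 (k i) (fun hk => hBQ _ hkB (hUQ hk)) ?_
      rw [← hvB1 _ hkB]
      exact hvi
  obtain ⟨β, hβ⟩ : ∃ β : L → G, ∀ z, z ∉ U → β (j (μ z)) = α z * h (μ z) := by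
    refine ⟨fun y => if hy : ∃ z, z ∉ U ∧ y = j (μ z) then
      α hy.choose * h (μ hy.choose) else 1, fun z hz => ?_⟩
    have hy : ∃ z', z' ∉ U ∧ j (μ z) = j (μ z') := ⟨z, hz, rfl⟩
    dsimp only
    rw [dif_pos hy]
    have h4 : hy.choose = z := hMt.inj _ _ hy.choose_spec.1 hz hy.choose_spec.2.symm
    rw [h4]
  -- the row and the target of an edge are in the same tight sets
  have heq : ∀ i, Dg k j d i → 0 < r (k i) → ∀ S, Ti k j d S → (tg i ∈ S ↔ k i ∈ S) := by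
    intro i hi hr S hS
    obtain ⟨⟨h4, h5⟩, -⟩ := htg i hi hr
    constructor
    · intro hz
      refine hi S hS ?_
      rw [h5]
      exact LB.mem_nb.2 ⟨μ (tg i), by rw [hMt.row _ h4]; exact hz, rfl⟩
    · intro hk
      refine (hT2 U μ hU hMt S hS).2.2 (tg i) h4 ?_
      rw [← h5]
      exact LB.mem_nb.2 ⟨i, hk, rfl⟩
  -- (4)
  have h4 : ∀ y, y ∉ nb k j Q → ∑ i, (if j i = y then a i * vB (k i) else 0) = 0 := by
    intro y hy
    by_cases hi0 : ∃ i, j i = y ∧ vB (k i) ≠ 0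
    · obtain ⟨i0, rfl, hi0⟩ := hi0
      obtain ⟨hD0, hr0'⟩ := h3 i0 hi0 hy
      obtain ⟨⟨hz, hjz⟩, -⟩ := htg i0 hD0 hr0'
      have hzB : tg i0 ∈ B := by
        rw [hBm]
        intro S hS
        rw [heq i0 hD0 hr0' S hS]
        exact (hBm _).1 (hvBB _ hi0) S hS
      have h5 := hv (tg i0) hz
      refine Eq.trans ?_ h5
      refine Finset.sum_congr rfl fun i _ => ?_
      rw [← hjz]
      by_cases hji : j i = j i0
      · rw [if_pos hji, if_pos hji]
        by_cases hvi : vB (k i) = 0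
        · rw [hvi, mul_zero]
          by_contra hcon
          have hbi : b i ≠ 0 := fun hh => hcon (by rw [hh, zero_mul])
          have hvi' : v (k i) ≠ 0 := fun hh => hcon (by rw [hh, mul_zero])
          have hkB : k i ∉ B := fun hh => hvi' (by rw [← hvB1 _ hh, hvi])
          apply hkB
          by_cases hE : Dg k j d i ∧ 0 < r (k i)
          · obtain ⟨⟨h6, h7⟩, -⟩ := htg i hE.1 hE.2
            have h8 : tg i = tg i0 := hMt.inj _ _ h6 hz (by rw [← h7, hji, hjz])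
            rw [hBm]
            intro S hS
            rw [← heq i hE.1 hE.2 S hS, h8]
            exact (hBm _).1 hzB S hS
          · by_cases hx : ∃ x, x ∉ U ∧ i = μ x
            · obtain ⟨x, hx, rfl⟩ := hx
              have h8 : x = tg i0 := hMt.inj _ _ hx hz (by rw [hji, hjz])
              rw [hMt.row x hx, h8]
              exact hzB
            · exact absurd (hb3 i hE hx) hbi
        · obtain ⟨hD, hr⟩ := h3 i hvi (by rw [hji]; exact hy)
          rw [hb1 i hD hr, hvB1 _ (hvBB _ hvi)]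
      · rw [if_neg hji, if_neg hji]
    · refine Finset.sum_eq_zero fun i _ => ?_
      split_ifs with hji
      · have : vB (k i) = 0 := by
          by_contra hh
          exact hi0 ⟨i, hji, hh⟩
        rw [this, mul_zero]
      · rfl
  -- (5)
  have h5 := hLOW G K L ι h k j a Q (nb k j Q) vB α β
    (fun i hi => LB.mem_nb.2 ⟨i, hi, rfl⟩)
    (fun x hx => hvB0 x fun hxB => hBQ x hxB hx)
    ⟨x0, by rw [hvB1 _ hx0B]; exact hvx0⟩
    (by
      intro i hvi hji
      obtain ⟨hD, hr⟩ := h3 i hvi hji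
      obtain ⟨⟨h6, h7⟩, -⟩ := htg i hD hr
      rw [h7, hβ _ h6, ← mul_assoc, ← hα' i hD hr, inv_mul_cancel_right]) h4
  have h6 : (Q.card : ℝ) = (nb k j Q).card + d := by
    have := hQ
    unfold Ti at this
    exact_mod_cast this
  rw [h6] at h5
  linarith

end Pool.Agent.N17.CO
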