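import Pool.Agent.N17.CO.Stm

set_option autoImplicit false

/-!
# Project CO: the obvious kernel vectors on the exceptional hypersurfaces
-/

namespace Pool.Agent.N17.CO

open MvPolynomial Pool.Agent.W649.ZL

/-- There are a tight set of rows `Q` and a nonzero combination of the other rows, with coefficients
`v x • α x`, a complex multiple of a group element, which has nonzero entries only in the columns
adjacent to `Q`; the terms which cancel in the other columns are complex multiples of one group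
element. -/
def Ob {G K L ι : Type} [Group G] [Fintype K] [Fintype L] [DecidableEq K] [DecidableEq L]
    [Fintype ι] (h : ι → G) (k : ι → K) (j : ι → L) (d : ℕ) (a : ι → ℂ) : Prop :=
  ∃ (Q : Finset K) (v : K → ℂ) (α : K → G) (β : L → G), Ti k j d Q ∧ (∀ x ∈ Q, v x = 0) ∧
    (∃ x, v x ≠ 0) ∧
    (∀ i, v (k i) ≠ 0 → j i ∉ nb k j Q → h i = (α (k i))⁻¹ * β (j i)) ∧
    ∀ y, y ∉ nb k j Q → ∑ i, (if j i = y then a i * v (k i) else 0) = 0

/-- LB2: on the hypersurfaces there is an obvious kernel vector. -/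
def S_LB2 : Prop := ∀ (G K L ι : Type) [Group G] [Fintype K] [Fintype L] [DecidableEq K]
  [DecidableEq L] [Fintype ι] (h : ι → G) (k : ι → K) (j : ι → L) (d : ℕ) (π : MvPolynomial ι ℂ)
  (r : K → ℕ) (s : L → ℕ), (∀ g : G, g ≠ 1 → ¬ IsOfFinOrder g) → Df k j d →
  (∃ S, Ti k j d S) → Nonempty ι → Hg k j π r s →
  (∀ a, kd (famR h k j) a ≤ d → eval a π ≠ 0) →
  ∀ a, eval a π = 0 → Ob h k j d a

/-- MAIN2: the codimension one theorem with the reason for the kernel. -/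
def S_MAIN2 : Prop := ∀ (G K L ι : Type) [Group G] [Fintype K] [Fintype L] [DecidableEq K]
  [DecidableEq L] [Fintype ι] (h : ι → G) (k : ι → K) (j : ι → L) (d : ℕ),
  (∀ g : G, g ≠ 1 → ¬ IsOfFinOrder g) → Df k j d → (∃ S, Ti k j d S) →
  ∃ (D : MvPolynomial ι ℂ) (P Q : ℕ → MvPolynomial ι ℂ), D ≠ 0 ∧ (∀ n, IsRelPrime (P n) (Q n)) ∧
    (∀ a, eval a D = 0 → Ob h k j d a) ∧
    (∀ a, Ob h k j d a → (d : ℝ) + 1 ≤ kd (famR h k j) a) ∧
    ∀ (n : ℕ) (a : ι → ℂ), (eval a D ≠ 0 ∧ (d : ℝ) + 1 / ((n : ℝ) + 1) ≤ kd (famR h k j) a) ∨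
      ((d : ℝ) + 1 + 1 / ((n : ℝ) + 1) ≤ kd (famR h k j) a) →
      ∃ m ≤ 2 * n + 2, eval a (P m) = 0 ∧ eval a (Q m) = 0

end Pool.Agent.N17.CO
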