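import Pool.Agent.N17.CO.LB
import Pool.Agent.N17.CO.Stm2

/-!
# CO/LB2: the proof of CO/LB (helper814) with the explicit kernel vector
-/

set_option autoImplicit false
set_option linter.unusedSectionVars false

namespace Pool.Agent.N17.CO

open MvPolynomial Pool.Agent.W649.ZL

theorem t_LB2 : S_CP → S_A3 → S_POT → S_CONN → S_IND → S_HALL → S_TIGHT → S_FULL →
    S_LB2 := by
  intro hCP hA3 hPOT hCONN hIND hHALL hTIGHT hFULL
  intro G K L ι _ _ _ _ _ _ h k j d π r s hG hDf hTi hne hHg hπ a ha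
  classical
  have hCp : Cp k j d r s := hCP G K L ι h k j d π r s hHg hπ
  obtain ⟨hH1, hH2, -, hH4⟩ := hHALL K L ι k j d hDf hTi
  obtain ⟨U, μ, hU, hMt⟩ := hH1
  obtain ⟨hT1, hT2⟩ := hTIGHT K L ι k j d hDf
  have hrU : ∀ x, x ∈ U → r x = 0 := (hCp U μ hU hMt).1
  have hrs : ∀ x, x ∉ U → r x = s (j (μ x)) := (hCp U μ hU hMt).2.1
  -- the targets
  have hC : ∀ i, Dg k j d i → 0 < r (k i) →
      ∃ z, (z ∉ U ∧ j i = j (μ z)) ∧ r z = r (k i) := by
    intro i hi hr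
    obtain ⟨U', μ', hU', hMt', h1, h2⟩ := hH4 i hi
    have h3 := (hCp U' μ' hU' hMt').2.1 (k i) h1
    rw [h2] at h3
    by_contra hcon
    have h4 : s (j i) = 0 := by
      refine (hCp U μ hU hMt).2.2 (j i) fun x hx hj => ?_
      refine hcon ⟨x, ⟨hx, hj.symm⟩, ?_⟩
      rw [hrs x hx, hj, h3]
    omega
  obtain ⟨tg, htg⟩ : ∃ tg : ι → K, ∀ i, Dg k j d i → 0 < r (k i) →
      (tg i ∉ U ∧ j i = j (μ (tg i))) ∧ r (tg i) = r (k i) := by
    refine ⟨fun i => if hi : ∃ z, (z ∉ U ∧ j i = j (μ z)) ∧ r z = r (k i) then hi.choose else k i,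
      fun i hi hr => ?_⟩
    have h1 := hC i hi hr
    dsimp only
    rw [dif_pos h1]
    exact h1.choose_spec
  have hkU : ∀ i, 0 < r (k i) → k i ∉ U := by
    intro i hr hk
    have := hrU _ hk
    omega
  -- the potentials
  obtain ⟨α, hα⟩ := hPOT K {i // Dg k j d i ∧ 0 < r (k i)} G (fun e => k e.1) (fun e => tg e.1)
    (fun e => h e.1 * (h (μ (tg e.1)))⁻¹) (by
      intro x W hW hnd
      have h1 := hA3 G K L ι h k j d π r s hG hHg hπ U μ hU hMt tg x (W.map Subtype.val) (by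
        intro i hi
        obtain ⟨e, -, rfl⟩ := List.mem_map.1 hi
        have h2 := (htg e.1 e.2.1 e.2.2).1
        exact ⟨hkU _ e.2.2, h2.1, h2.2, e.2.2⟩) (LB.walk_map k tg W x x hW) (by
        rw [List.map_map]
        exact hnd)
      rw [List.map_map] at h1
      exact h1)
  have hα' : ∀ i, Dg k j d i → 0 < r (k i) →
      h i * (h (μ (tg i)))⁻¹ = (α (k i))⁻¹ * α (tg i) := by
    intro i hi hr
    obtain ⟨W, hW1, hW2⟩ := hCONN K L ι k j d r s hDf hTi hCp U μ hU hMt tg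
      (fun i hi hr => (htg i hi hr).1) i hi hr
    obtain ⟨W', hW'⟩ := LB.walk_lift (P := fun i => Dg k j d i ∧ 0 < r (k i)) k tg W (tg i) (k i)
      hW1 hW2
    exact hα ⟨i, hi, hr⟩ ⟨W', hW'⟩
  -- the coefficients
  obtain ⟨b, hb1, hb2, hb3⟩ : ∃ b : ι → ℂ, (∀ i, Dg k j d i → 0 < r (k i) → b i = a i) ∧
      (∀ i, ¬ (Dg k j d i ∧ 0 < r (k i)) → (∃ x, x ∉ U ∧ i = μ x) → b i = 1) ∧
      (∀ i, ¬ (Dg k j d i ∧ 0 < r (k i)) → ¬ (∃ x, x ∉ U ∧ i = μ x) → b i = 0) := by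
    refine ⟨fun i => if Dg k j d i ∧ 0 < r (k i) then a i else
      if ∃ x, x ∉ U ∧ i = μ x then 1 else 0, ?_, ?_, ?_⟩
    · intro i hi hr
      exact if_pos ⟨hi, hr⟩
    · intro i hi hx
      dsimp only
      rw [if_neg hi, if_pos hx]
    · intro i hi hx
      dsimp only
      rw [if_neg hi, if_neg hx]
  have hbd : ¬ (kd (famR h k j) b ≤ d) := by
    intro hle
    apply hπ b hle
    rw [← ha]
    exact (hIND K L ι k j d r s π hHg hDf hCp U μ hU hMt a b
      (fun i hi hr => (hb1 i hi hr).symm)).symm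
  have hv : ∃ v : K → ℂ, (∀ y, y ∉ U → ∑ i, (if j i = j (μ y) then b i * v (k i) else 0) = 0) ∧
      ∃ x, x ∉ U ∧ v x ≠ 0 := by
    by_contra hcon
    apply hbd
    rw [← hU]
    refine hFULL G K L ι h k j b U μ α hMt ?_ ?_
    · intro i hbi
      by_cases hE : Dg k j d i ∧ 0 < r (k i)
      · have h2 := (htg i hE.1 hE.2).1
        exact ⟨hkU _ hE.2, tg i, h2.1, h2.2, hα' i hE.1 hE.2⟩
      · by_cases hx : ∃ x, x ∉ U ∧ i = μ x
        · obtain ⟨x, hx, rfl⟩ := hx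
          refine ⟨by rw [hMt.row x hx]; exact hx, x, hx, rfl, ?_⟩
          rw [hMt.row x hx, mul_inv_cancel, inv_mul_cancel]
        · exact absurd (hb3 i hE hx) hbi
    · intro v hv x hx
      by_contra hvx
      exact hcon ⟨v, hv, x, hx, hvx⟩
  obtain ⟨v, hv, x0, hx0U, hvx0⟩ := hv
  -- (1)
  have h1 : ∀ z, z ∉ U → v z ≠ 0 → 0 < r z := by
    intro z hz hvz
    by_contra hr
    have hr0 : r z = 0 := by omega
    have hE : ∀ i, j i = j (μ z) → ¬ (Dg k j d i ∧ 0 < r (k i)) := by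
      rintro i hi ⟨h2, h3⟩
      have h4 := htg i h2 h3
      have h5 : tg i = z := hMt.inj _ _ h4.1.1 hz (by rw [← h4.1.2, hi])
      rw [h5, hr0] at h4
      omega
    have h2 := hv z hz
    rw [Finset.sum_eq_single (μ z)] at h2
    · rw [if_pos rfl, hb2 (μ z) (hE _ rfl) ⟨z, hz, rfl⟩, hMt.row z hz, one_mul] at h2
      exact hvz h2
    · intro i _ hi
      split_ifs with hji
      · rw [hb3 i (hE i hji), zero_mul]
        rintro ⟨x, hx, rfl⟩
        apply hi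
        rw [hMt.inj x z hx hz hji]
      · rfl
    · intro hh
      exact absurd (Finset.mem_univ _) hh
  have hr0 : 0 < r x0 := h1 x0 hx0U hvx0
  -- (2)
  have hex : ∃ S, Ti k j d S ∧ x0 ∉ S := by
    by_contra hcon
    have h2 : ∀ S, Ti k j d S → x0 ∈ S := by
      intro S hS
      by_contra hx
      exact hcon ⟨S, hS, hx⟩
    obtain ⟨U', μ', hU', hMt', h3⟩ := hH2 x0 h2
    have := (hCp U' μ' hU' hMt').1 x0 h3
    omega
  obtain ⟨Q, hQ, hxQ, hQmax⟩ := LB.exists_Q hT1 hex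
  have hUQ : U ⊆ Q := (hT2 U μ hU hMt Q hQ).1
  obtain ⟨B, hB⟩ : ∃ B : Set K, B = {x | ∀ S, Ti k j d S → (x ∈ S ↔ x0 ∈ S)} := ⟨_, rfl⟩
  have hBm : ∀ x, x ∈ B ↔ ∀ S, Ti k j d S → (x ∈ S ↔ x0 ∈ S) := by
    intro x
    rw [hB]
    exact Iff.rfl
  have hBQ : ∀ x, x ∈ B → x ∉ Q := fun x hx hxq => hxQ (((hBm x).1 hx Q hQ).1 hxq)
  obtain ⟨vB, hvB1, hvB0⟩ : ∃ vB : K → ℂ, (∀ x, x ∈ B → vB x = v x) ∧ ∀ x, x ∉ B → vB x = 0 := by
    refine ⟨fun x => if x ∈ B then v x else 0, fun x hx => if_pos hx, fun x hx => if_neg hx⟩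
  have hvBB : ∀ x, vB x ≠ 0 → x ∈ B := by
    intro x hx
    by_contra hxB
    exact hx (hvB0 x hxB)
  have hx0B : x0 ∈ B := (hBm x0).2 fun S _ => Iff.rfl
  -- (3)
  have h3 : ∀ i, vB (k i) ≠ 0 → j i ∉ nb k j Q → Dg k j d i ∧ 0 < r (k i) := by
    intro i hvi hji
    have hkB := hvBB _ hvi
    constructor
    · intro S hS hjS
      by_cases hx : x0 ∈ S
      · exact ((hBm _).1 hkB S hS).2 hx
      · exact absurd (LB.nb_mono (hQmax S hS hx) hjS) hji
    · refine h1 (k i) (fun hk => hBQ _ hkB (hUQ hk)) ?_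
      rw [← hvB1 _ hkB]
      exact hvi
  obtain ⟨β, hβ⟩ : ∃ β : L → G, ∀ z, z ∉ U → β (j (μ z)) = α z * h (μ z) := by
    refine ⟨fun y => if hy : ∃ z, z ∉ U ∧ y = j (μ z) then
      α hy.choose * h (μ hy.choose) else 1, fun z hz => ?_⟩
    have hy : ∃ z', z' ∉ U ∧ j (μ z) = j (μ z') := ⟨z, hz, rfl⟩
    dsimp only
    rw [dif_pos hy]
    have h4 : hy.choose = z := hMt.inj _ _ hy.choose_spec.1 hz hy.choose_spec.2.symm
    rw [h4]
  -- the row and the target of an edge are in the same tight sets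
  have heq : ∀ i, Dg k j d i → 0 < r (k i) → ∀ S, Ti k j d S → (tg i ∈ S ↔ k i ∈ S) := by
    intro i hi hr S hS
    obtain ⟨⟨h4, h5⟩, -⟩ := htg i hi hr
    constructor
    · intro hz
      refine hi S hS ?_
      rw [h5]
      exact LB.mem_nb.2 ⟨μ (tg i), by rw [hMt.row _ h4]; exact hz, rfl⟩
    · intro hk
      refine (hT2 U μ hU hMt S hS).2.2 (tg i) h4 ?_
      rw [← h5]
      exact LB.mem_nb.2 ⟨i, hk, rfl⟩
  -- (4)
  have h4 : ∀ y, y ∉ nb k j Q → ∑ i, (if j i = y then a i * vB (k i) else 0) = 0 := by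
    intro y hy
    by_cases hi0 : ∃ i, j i = y ∧ vB (k i) ≠ 0
    · obtain ⟨i0, rfl, hi0⟩ := hi0
      obtain ⟨hD0, hr0'⟩ := h3 i0 hi0 hy
      obtain ⟨⟨hz, hjz⟩, -⟩ := htg i0 hD0 hr0'
      have hzB : tg i0 ∈ B := by
        rw [hBm]
        intro S hS
        rw [heq i0 hD0 hr0' S hS]
        exact (hBm _).1 (hvBB _ hi0) S hS
      have h5 := hv (tg i0) hz
      refine Eq.trans ?_ h5
      refine Finset.sum_congr rfl fun i _ => ?_
      rw [← hjz]
      by_cases hji : j i = j i0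
      · rw [if_pos hji, if_pos hji]
        by_cases hvi : vB (k i) = 0
        · rw [hvi, mul_zero]
          by_contra hcon
          have hbi : b i ≠ 0 := fun hh => hcon (by rw [hh, zero_mul])
          have hvi' : v (k i) ≠ 0 := fun hh => hcon (by rw [hh, mul_zero])
          have hkB : k i ∉ B := fun hh => hvi' (by rw [← hvB1 _ hh, hvi])
          apply hkB
          by_cases hE : Dg k j d i ∧ 0 < r (k i)
          · obtain ⟨⟨h6, h7⟩, -⟩ := htg i hE.1 hE.2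
            have h8 : tg i = tg i0 := hMt.inj _ _ h6 hz (by rw [← h7, hji, hjz])
            rw [hBm]
            intro S hS
            rw [← heq i hE.1 hE.2 S hS, h8]
            exact (hBm _).1 hzB S hS
          · by_cases hx : ∃ x, x ∉ U ∧ i = μ x
            · obtain ⟨x, hx, rfl⟩ := hx
              have h8 : x = tg i0 := hMt.inj _ _ hx hz (by rw [hji, hjz])
              rw [hMt.row x hx, h8]
              exact hzB
            · exact absurd (hb3 i hE hx) hbi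
        · obtain ⟨hD, hr⟩ := h3 i hvi (by rw [hji]; exact hy)
          rw [hb1 i hD hr, hvB1 _ (hvBB _ hvi)]
      · rw [if_neg hji, if_neg hji]
    · refine Finset.sum_eq_zero fun i _ => ?_
      split_ifs with hji
      · have : vB (k i) = 0 := by
          by_contra hh
          exact hi0 ⟨i, hji, hh⟩
        rw [this, mul_zero]
      · rfl
  -- (5)
  exact ⟨Q, vB, α, β, hQ, fun x hx => hvB0 x fun hxB => hBQ x hxB hx,
    ⟨x0, by rw [hvB1 _ hx0B]; exact hvx0⟩, (by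
      intro i hvi hji
      obtain ⟨hD, hr⟩ := h3 i hvi hji
      obtain ⟨⟨h6, h7⟩, -⟩ := htg i hD hr
      rw [h7, hβ _ h6, ← mul_assoc, ← hα' i hD hr, inv_mul_cancel_right]), h4⟩

end Pool.Agent.N17.CO
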