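import Pool.Agent.N17.CO.Stm

set_option autoImplicit false

/-!
# LOW: a lower bound from a scalar kernel vector (helper521)
-/

namespace Pool.Agent.N17.CO

open MvPolynomial Pool.Agent.W649.ZL

namespace LOW

variable {G K L ι : Type} [Group G] [Fintype K] [Fintype L] [DecidableEq K] [DecidableEq L]
  [Fintype ι]

/-- the elementary operators -/
noncomputable def AA (Q : Finset K) (α : K → G) :
    ({x // x ∈ Q} ⊕ K) → EE G (Option {x // x ∈ Q}) →L[ℂ] EE G K
  | Sum.inl q => elem 1 q.1 (some q)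
  | Sum.inr κ => elem (α κ)⁻¹ κ none

/-- the coefficients -/
def cc (Q : Finset K) (v : K → ℂ) : ({x // x ∈ Q} ⊕ K) → ℂ
  | Sum.inl _ => 1
  | Sum.inr κ => v κ

omit [Fintype K] in
theorem AA_eqv (Q : Finset K) (α : K → G) (i : {x // x ∈ Q} ⊕ K) : Eqv (AA Q α i) := by
  cases i with
  | inl q => exact elem_eqv _ _ _
  | inr κ => exact elem_eqv _ _ _

/-- the embedding -/
noncomputable def JJ (Q : Finset K) (α : K → G) (v : K → ℂ) :
    EE G (Option {x // x ∈ Q}) →L[ℂ] EE G K := lin (AA Q α) (cc Q v)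

theorem JJ_eqv (Q : Finset K) (α : K → G) (v : K → ℂ) : Eqv (JJ Q α v) :=
  lin_eqv _ (AA_eqv Q α) _

theorem JJ_apply (Q : Finset K) (α : K → G) (v : K → ℂ) (f : EE G (Option {x // x ∈ Q})) (x : G)
    (κ : K) : JJ Q α v f (x, κ) =
      (if h : κ ∈ Q then f (x, some ⟨κ, h⟩) else 0) + v κ * f (α κ * x, none) := by
  unfold JJ
  rw [lin_apply, sum_apply_EE, Fintype.sum_sum_type]
  congr 1
  · have h1 : ∀ q : {x // x ∈ Q}, (cc Q v (Sum.inl q) • AA Q α (Sum.inl q) f) (x, κ) =
        if κ = q.1 then f (x, some q) else 0 := by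
      intro q
      have h2 : (cc Q v (Sum.inl q) • AA Q α (Sum.inl q) f) (x, κ) =
          1 * (elem 1 q.1 (some q) f) (x, κ) := rfl
      rw [h2, one_mul, elem_apply]
      simp
    rw [Finset.sum_congr rfl fun q _ => h1 q]
    split_ifs with h
    · rw [Finset.sum_eq_single (⟨κ, h⟩ : {x // x ∈ Q})]
      · simp
      · intro q _ hq
        rw [if_neg]
        intro h3
        exact hq (Subtype.ext h3.symm)
      · intro h3
        exact absurd (Finset.mem_univ _) h3
    · refine Finset.sum_eq_zero fun q _ => ?_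
      rw [if_neg]
      intro h3
      exact h (h3 ▸ q.2)
  · have h1 : ∀ κ' : K, (cc Q v (Sum.inr κ') • AA Q α (Sum.inr κ') f) (x, κ) =
        if κ = κ' then v κ' * f (α κ' * x, none) else 0 := by
      intro κ'
      have h2 : (cc Q v (Sum.inr κ') • AA Q α (Sum.inr κ') f) (x, κ) =
          v κ' * (elem (α κ')⁻¹ κ' none f) (x, κ) := rfl
      rw [h2, elem_apply]
      simp only [inv_inv]
      split_ifs <;> simp
    rw [Finset.sum_congr rfl fun q _ => h1 q]
    simp

theorem JJ_inj (Q : Finset K) (α : K → G) (v : K → ℂ) (hv : ∀ x ∈ Q, v x = 0)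
    (hv' : ∃ x, v x ≠ 0) : Function.Injective (JJ Q α v) := by
  rw [injective_iff_map_eq_zero]
  intro f hf
  obtain ⟨κ, hκ⟩ := hv'
  have hκQ : κ ∉ Q := fun h => hκ (hv κ h)
  have h1 : ∀ x : G, f (x, none) = 0 := by
    intro x
    have h2 := JJ_apply Q α v f ((α κ)⁻¹ * x) κ
    rw [hf, dif_neg hκQ, zero_add, mul_inv_cancel_left] at h2
    have h3 : (0 : EE G K) ((α κ)⁻¹ * x, κ) = 0 := rfl
    rw [h3] at h2
    exact (mul_eq_zero.1 h2.symm).resolve_left hκ
  ext ⟨x, q⟩
  cases q with
  | none => exact h1 x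
  | some q =>
    have h2 := JJ_apply Q α v f x q.1
    rw [hf, dif_pos q.2, h1, mul_zero, add_zero] at h2
    exact h2.symm

end LOW

theorem t_LOW : S_LOW := by
  intro G K L ι _ _ _ _ _ _ h k j a Q N v α β hQN hvQ hv hh hsum
  classical
  set T : EE G K →L[ℂ] EE G L := lin (famR h k j) a with hT
  have hTe : Eqv T := lin_eqv _ (famR_eqv h k j) a
  have hJe := LOW.JJ_eqv Q α v
  set J := LOW.JJ Q α v with hJ
  have hTJ : Eqv (T.comp J) := by
    intro g f
    rw [ContinuousLinearMap.comp_apply, ContinuousLinearMap.comp_apply, hJe, hTe]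
  have key : ∀ f u y, y ∉ N → (T.comp J f) (u, y) = 0 := by
    intro f u y hy
    rw [ContinuousLinearMap.comp_apply, hT, lin_famR_apply]
    have h1 : ∀ i, a i * (if y = j i then (J f) (h i * u, k i) else 0) =
        (if j i = y then a i * v (k i) else 0) * f (β y * u, none) := by
      intro i
      by_cases hi : j i = y
      · rw [if_pos hi.symm, if_pos hi]
        have hkQ : k i ∉ Q := fun h0 => hy (hi ▸ hQN i h0)
        rw [hJ, LOW.JJ_apply, dif_neg hkQ, zero_add]
        by_cases hv0 : v (k i) = 0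
        · rw [hv0]
          ring
        · have h2 := hh i hv0 (by rw [hi]; exact hy)
          have h3 : α (k i) * (h i * u) = β y * u := by
            rw [h2, hi]
            group
          rw [h3]
          ring
      · rw [if_neg (fun h0 => hi h0.symm), if_neg hi]
        ring
    rw [Finset.sum_congr rfl fun i _ => h1 i, ← Finset.sum_mul, hsum y hy, zero_mul]
  have h1 := zero_block (T.comp J) hTJ Finset.univ N (fun f _ u y hy => key f u y hy)
  have h2 : ((Finset.univ : Finset (Option {x // x ∈ Q})).card : ℝ) = Q.card + 1 := by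
    rw [Finset.card_univ, Fintype.card_option, Fintype.card_coe]
    push_cast
    ring
  rw [h2] at h1
  have h3 := rank_nullity J hJe (inv_ker (T.comp J) hTJ) (ContinuousLinearMap.isClosed_ker _)
  have h4 : LinearMap.ker (J : EE G (Option {x // x ∈ Q}) →ₗ[ℂ] EE G K) = ⊥ :=
    LinearMap.ker_eq_bot.2 (LOW.JJ_inj Q α v hvQ hv)
  rw [h4, inf_bot_eq, vd_bot, zero_add] at h3
  have h5 : vd ((LinearMap.ker ((T.comp J : EE G (Option {x // x ∈ Q}) →L[ℂ] EE G L) :
      EE G (Option {x // x ∈ Q}) →ₗ[ℂ] EE G L)).map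
      (J : EE G (Option {x // x ∈ Q}) →ₗ[ℂ] EE G K)) ≤ kd (famR h k j) a := by
    apply vd_mono
    rintro y ⟨f, hf, rfl⟩
    exact hf
  have h6 : (Q.card : ℝ) + 1 - N.card ≤ kd (famR h k j) a := by
    linarith
  exact h6

end Pool.Agent.N17.CO
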