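import Pool.Agent.N17.CO.Stm

/-!
# CO/MAIN (worker: helper284)
-/

set_option autoImplicit false
set_option linter.unusedSectionVars false

namespace Pool.Agent.N17.CO

open MvPolynomial Pool.Agent.W649.ZL

namespace MAIN

section
variable {G K L ι : Type} [Group G] [Fintype K] [Fintype L] [DecidableEq K] [DecidableEq L]
  [Fintype ι] (h : ι → G) (k : ι → K) (j : ι → L)

theorem generic (d : ℕ) (hd : Df k j d) (hd' : ∃ S, Ti k j d S) :
    (∀ a, (d : ℝ) ≤ kd (famR h k j) a) ∧
    ∃ P : ℕ → MvPolynomial ι ℂ, (∀ n, P n ≠ 0) ∧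
      ∀ a, (∀ n, eval a (P n) ≠ 0) → kd (famR h k j) a = d := by
  apply generic_value h k j d
  · intro S
    have h1 := hd S
    unfold nb at h1
    convert h1
  · obtain ⟨S, hS⟩ := hd'
    refine ⟨S, ?_⟩
    unfold Ti nb at hS
    convert hS

/-- the locus -/
def V (t : ℝ) : Set (ι → ℂ) := {a | t ≤ kd (famR h k j) a}

theorem V_closed (t : ℝ) : zeroLocus ℂ (vanishingIdeal ℂ (V h k j t)) = V h k j t :=
  locus_closed (famR h k j) (famR_eqv h k j) t

theorem V_ne {d : ℕ} (hd : Df k j d) (hd' : ∃ S, Ti k j d S) {t : ℝ} (ht : (d : ℝ) < t) :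
    V h k j t ≠ Set.univ := by
  obtain ⟨-, P, hP, hPd⟩ := generic h k j d hd hd'
  obtain ⟨b, hb⟩ := avoid P hP
  intro hu
  have h1 : b ∈ V h k j t := by rw [hu]; exact Set.mem_univ b
  have h2 : t ≤ kd (famR h k j) b := h1
  rw [hPd b hb] at h2
  exact absurd h2 (not_le.2 ht)

theorem nonempty_of_irr {π : MvPolynomial ι ℂ} (hπ : Irreducible π) : Nonempty ι := by
  by_contra hcon
  rw [not_nonempty_iff] at hcon
  have h1 := eq_C_of_isEmpty π
  apply hπ.not_isUnit
  rw [h1]
  refine (IsUnit.mk0 _ ?_).map C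
  intro h0
  rw [h0, map_zero] at h1
  exact hπ.ne_zero h1

/-- Claim 1 -/
theorem claim1 (SC : S_SC) (HOM : S_HOM) (MULTI : S_MULTI) (LB : S_LB) {d : ℕ}
    (htf : ∀ g : G, g ≠ 1 → ¬ IsOfFinOrder g) (hd : Df k j d) (hd' : ∃ S, Ti k j d S)
    {π : MvPolynomial ι ℂ} (hπ : Irreducible π) {t : ℝ} (ht : (d : ℝ) < t)
    (hz : ∀ a, eval a π = 0 → t ≤ kd (famR h k j) a) :
    ∀ a, eval a π = 0 → (d : ℝ) + 1 ≤ kd (famR h k j) a := by
  have hι := nonempty_of_irr hπ
  obtain ⟨f, hf, hf0⟩ : ∃ f ∈ vanishingIdeal ℂ (V h k j t), f ≠ 0 := by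
    by_contra hcon
    push Not at hcon
    apply V_ne h k j hd hd' ht
    rw [← V_closed, Set.eq_univ_iff_forall]
    intro a g hg
    rw [hcon g hg, map_zero]
  have hfz : ∀ a, t ≤ kd (famR h k j) a → eval a f = 0 := by
    intro a ha
    have := hf a ha
    rwa [aeval_eq_eval] at this
  have row : ∃ r : K → ℕ, ∀ (ρ : K → ℂ) (a : ι → ℂ),
      eval (fun i => ρ (k i) * a i) π = (∏ x, ρ x ^ r x) * eval a π := by
    apply MULTI K ι k π
    intro x
    obtain ⟨r, hr⟩ := HOM ι π f (fun i => if k i = x then 1 else 0) hπ hf0 (by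
      intro c hc a ha
      apply hfz
      have h1 := hz _ ha
      have h2 := SC G K L ι h k j (fun y => if y = x then c else 1) (fun _ => 1) a
        (fun y => by
          show (if y = x then c else (1 : ℂ)) ≠ 0
          split_ifs
          · exact hc
          · exact one_ne_zero) (fun _ => one_ne_zero)
      rw [← h2]
      convert h1 using 2
      funext i
      split_ifs <;> simp)
    refine ⟨r, fun c a => ?_⟩
    rw [← hr c a]
    congr 2
    funext i
    split_ifs <;> simp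
  have col : ∃ s : L → ℕ, ∀ (σ : L → ℂ) (a : ι → ℂ),
      eval (fun i => σ (j i) * a i) π = (∏ y, σ y ^ s y) * eval a π := by
    apply MULTI L ι j π
    intro x
    obtain ⟨r, hr⟩ := HOM ι π f (fun i => if j i = x then 1 else 0) hπ hf0 (by
      intro c hc a ha
      apply hfz
      have h1 := hz _ ha
      have h2 := SC G K L ι h k j (fun _ => 1) (fun y => if y = x then c else 1) a
        (fun _ => one_ne_zero) (fun y => by
          show (if y = x then c else (1 : ℂ)) ≠ 0
          split_ifs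
          · exact hc
          · exact one_ne_zero)
      rw [← h2]
      convert h1 using 2
      funext i
      split_ifs <;> simp)
    refine ⟨r, fun c a => ?_⟩
    rw [← hr c a]
    congr 2
    funext i
    split_ifs <;> simp
  obtain ⟨r, hr⟩ := row
  obtain ⟨s, hs⟩ := col
  have hHg : Hg k j π r s := by
    intro ρ σ a
    have h1 : (fun i => ρ (k i) * σ (j i) * a i) = fun i => ρ (k i) * (σ (j i) * a i) := by
      funext i
      ring
    rw [h1, hr ρ fun i => σ (j i) * a i, hs, mul_assoc]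
  exact LB G K L ι h k j d π r s htf hd hd' hι hHg (fun a ha h0 =>
    absurd ((hz a h0).trans ha) (not_le.2 ht))

/-- Claim 2 -/
theorem claim2 (PERT : S_PERT) (AV : S_AV) {d : ℕ} (hd : Df k j d) (hd' : ∃ S, Ti k j d S)
    {π : MvPolynomial ι ℂ} (hπ : Irreducible π) {ε : ℝ} (hε : 0 < ε)
    (hz : ∀ a, eval a π = 0 → (d : ℝ) + 1 + ε ≤ kd (famR h k j) a) : False := by
  classical
  obtain ⟨-, P, hP, hPd⟩ := generic h k j d hd hd'
  obtain ⟨b, i, t, h1, h2⟩ := AV ι π hπ P hP
  have h3 := hz _ h1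
  have h4 := PERT G K L ι h k j b i t
  rw [hPd b h2] at h4
  linarith

end

/-- irreducible factors -/
theorem exists_factor {ι : Type} {g : MvPolynomial ι ℂ} (hg : g ≠ 0) {a : ι → ℂ}
    (ha : eval a g = 0) : ∃ π : MvPolynomial ι ℂ, Irreducible π ∧ π ∣ g ∧ eval a π = 0 := by
  obtain ⟨f, hf, hfg⟩ := WfDvdMonoid.exists_factors g hg
  have h1 : eval a f.prod = 0 := by
    obtain ⟨u, hu⟩ := hfg.symm
    rw [← hu, map_mul, ha, zero_mul]
  rw [map_multiset_prod, Multiset.prod_eq_zero_iff, Multiset.mem_map] at h1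
  obtain ⟨π, hπ, h2⟩ := h1
  exact ⟨π, hf π hπ, (Multiset.dvd_prod hπ).trans hfg.dvd, h2⟩

end MAIN

open MAIN

/-- **MAIN** -/
theorem t_MAIN : S_SC → S_HOM → S_MULTI → S_PERT → S_AV → S_GCD → S_LB → S_MAIN := by
  intro SC HOM MULTI PERT AV GCD LB G K L ι _ _ _ _ _ _ h k j d htf hd hd'
  have e1 : ∀ n : ℕ, (0 : ℝ) < 1 / ((n : ℝ) + 1) := fun n => by positivity
  choose g P Q hg hPQ hgV hV using fun n : ℕ =>
    GCD ι (V h k j ((d : ℝ) + 1 / ((n : ℝ) + 1))) (V_closed h k j _)
      (V_ne h k j hd hd' (by linarith [e1 n]))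
  choose g' P' Q' hg' hPQ' hgV' hV' using fun n : ℕ =>
    GCD ι (V h k j ((d : ℝ) + 1 + 1 / ((n : ℝ) + 1))) (V_closed h k j _)
      (V_ne h k j hd hd' (by linarith [e1 n]))
  refine ⟨g 0, fun m => if m % 2 = 0 then P (m / 2) else P' (m / 2),
    fun m => if m % 2 = 0 then Q (m / 2) else Q' (m / 2), hg 0, ?_, ?_, ?_⟩
  · intro m
    show IsRelPrime (if m % 2 = 0 then P (m / 2) else P' (m / 2))
      (if m % 2 = 0 then Q (m / 2) else Q' (m / 2))
    split_ifs
    · exact hPQ _
    · exact hPQ' _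
  · intro a ha
    have h1 : (d : ℝ) + 1 / (((0 : ℕ) : ℝ) + 1) ≤ kd (famR h k j) a := hgV 0 a ha
    simpa using h1
  · intro n a hor
    rcases hor with ⟨h1, h2⟩ | h1
    · rcases hV n a h2 with h3 | ⟨h3, h4⟩
      · obtain ⟨π, hπ, hπg, hπa⟩ := exists_factor (hg n) h3
        have h4 := claim1 h k j SC HOM MULTI LB htf hd hd' hπ
          (t := (d : ℝ) + 1 / ((n : ℝ) + 1)) (by linarith [e1 n]) (fun b hb => hgV n b (by
            obtain ⟨c, hc⟩ := hπg
            rw [hc, map_mul, hb, zero_mul])) a hπa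
        have h5 : a ∈ V h k j ((d : ℝ) + 1 / (((0 : ℕ) : ℝ) + 1)) := by
          show (d : ℝ) + 1 / (((0 : ℕ) : ℝ) + 1) ≤ kd (famR h k j) a
          simpa using h4
        rcases hV 0 a h5 with h6 | ⟨h6, h7⟩
        · exact absurd h6 h1
        · exact ⟨0, by omega, h6, h7⟩
      · refine ⟨2 * n, by omega, ?_, ?_⟩
        · show eval a (if 2 * n % 2 = 0 then P (2 * n / 2) else P' (2 * n / 2)) = 0
          rw [if_pos (by omega), Nat.mul_div_cancel_left _ (by norm_num)]
          exact h3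
        · show eval a (if 2 * n % 2 = 0 then Q (2 * n / 2) else Q' (2 * n / 2)) = 0
          rw [if_pos (by omega), Nat.mul_div_cancel_left _ (by norm_num)]
          exact h4
    · rcases hV' n a h1 with h3 | ⟨h3, h4⟩
      · obtain ⟨π, hπ, hπg, hπa⟩ := exists_factor (hg' n) h3
        exact (claim2 h k j PERT AV hd hd' hπ (e1 n) (fun b hb => hgV' n b (by
            obtain ⟨c, hc⟩ := hπg
            rw [hc, map_mul, hb, zero_mul]))).elim
      · have e2 : (2 * n + 1) / 2 = n := by omega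
        refine ⟨2 * n + 1, by omega, ?_, ?_⟩
        · show eval a (if (2 * n + 1) % 2 = 0 then P ((2 * n + 1) / 2)
            else P' ((2 * n + 1) / 2)) = 0
          rw [if_neg (by omega), e2]
          exact h3
        · show eval a (if (2 * n + 1) % 2 = 0 then Q ((2 * n + 1) / 2)
            else Q' ((2 * n + 1) / 2)) = 0
          rw [if_neg (by omega), e2]
          exact h4

end Pool.Agent.N17.CO
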