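import Pool.Agent.N17.CO.MAIN
import Pool.Agent.N17.CO.Stm2

/-!
# CO/MAIN2: the proof of CO/MAIN (helper284) with the explicit kernel vectors
-/

set_option autoImplicit false
set_option linter.unusedSectionVars false

namespace Pool.Agent.N17.CO

open MvPolynomial Pool.Agent.W649.ZL

namespace MAIN

section
variable {G K L ι : Type} [Group G] [Fintype K] [Fintype L] [DecidableEq K] [DecidableEq L]
  [Fintype ι] (h : ι → G) (k : ι → K) (j : ι → L)

/-- Claim 1 -/
theorem claim1' (SC : S_SC) (HOM : S_HOM) (MULTI : S_MULTI) (LB : S_LB2) {d : ℕ}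
    (htf : ∀ g : G, g ≠ 1 → ¬ IsOfFinOrder g) (hd : Df k j d) (hd' : ∃ S, Ti k j d S)
    {π : MvPolynomial ι ℂ} (hπ : Irreducible π) {t : ℝ} (ht : (d : ℝ) < t)
    (hz : ∀ a, eval a π = 0 → t ≤ kd (famR h k j) a) :
    ∀ a, eval a π = 0 → Ob h k j d a := by
  have hι := nonempty_of_irr hπ
  obtain ⟨f, hf, hf0⟩ : ∃ f ∈ vanishingIdeal ℂ (V h k j t), f ≠ 0 := by
    by_contra hcon
    push Not at hcon
    apply V_ne h k j hd hd' ht
    rw [← V_closed, Set.eq_univ_iff_forall]
    intro a g hg
    rw [hcon g hg, map_zero]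
  have hfz : ∀ a, t ≤ kd (famR h k j) a → eval a f = 0 := by
    intro a ha
    have := hf a ha
    rwa [aeval_eq_eval] at this
  have row : ∃ r : K → ℕ, ∀ (ρ : K → ℂ) (a : ι → ℂ),
      eval (fun i => ρ (k i) * a i) π = (∏ x, ρ x ^ r x) * eval a π := by
    apply MULTI K ι k π
    intro x
    obtain ⟨r, hr⟩ := HOM ι π f (fun i => if k i = x then 1 else 0) hπ hf0 (by
      intro c hc a ha
      apply hfz
      have h1 := hz _ ha
      have h2 := SC G K L ι h k j (fun y => if y = x then c else 1) (fun _ => 1) a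
        (fun y => by
          show (if y = x then c else (1 : ℂ)) ≠ 0
          split_ifs
          · exact hc
          · exact one_ne_zero) (fun _ => one_ne_zero)
      rw [← h2]
      convert h1 using 2
      funext i
      split_ifs <;> simp)
    refine ⟨r, fun c a => ?_⟩
    rw [← hr c a]
    congr 2
    funext i
    split_ifs <;> simp
  have col : ∃ s : L → ℕ, ∀ (σ : L → ℂ) (a : ι → ℂ),
      eval (fun i => σ (j i) * a i) π = (∏ y, σ y ^ s y) * eval a π := by
    apply MULTI L ι j π
    intro x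
    obtain ⟨r, hr⟩ := HOM ι π f (fun i => if j i = x then 1 else 0) hπ hf0 (by
      intro c hc a ha
      apply hfz
      have h1 := hz _ ha
      have h2 := SC G K L ι h k j (fun _ => 1) (fun y => if y = x then c else 1) a
        (fun _ => one_ne_zero) (fun y => by
          show (if y = x then c else (1 : ℂ)) ≠ 0
          split_ifs
          · exact hc
          · exact one_ne_zero)
      rw [← h2]
      convert h1 using 2
      funext i
      split_ifs <;> simp)
    refine ⟨r, fun c a => ?_⟩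
    rw [← hr c a]
    congr 2
    funext i
    split_ifs <;> simp
  obtain ⟨r, hr⟩ := row
  obtain ⟨s, hs⟩ := col
  have hHg : Hg k j π r s := by
    intro ρ σ a
    have h1 : (fun i => ρ (k i) * σ (j i) * a i) = fun i => ρ (k i) * (σ (j i) * a i) := by
      funext i
      ring
    rw [h1, hr ρ fun i => σ (j i) * a i, hs, mul_assoc]
  exact LB G K L ι h k j d π r s htf hd hd' hι hHg (fun a ha h0 =>
    absurd ((hz a h0).trans ha) (not_le.2 ht))

end

end MAIN

open MAIN

/-- **MAIN2** -/
theorem t_MAIN2 : S_SC → S_HOM → S_MULTI → S_PERT → S_AV → S_GCD → S_LOW → S_LB2 →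
    S_MAIN2 := by
  intro SC HOM MULTI PERT AV GCD LOW LB G K L ι _ _ _ _ _ _ h k j d htf hd hd'
  have e1 : ∀ n : ℕ, (0 : ℝ) < 1 / ((n : ℝ) + 1) := fun n => by positivity
  choose g P Q hg hPQ hgV hV using fun n : ℕ =>
    GCD ι (V h k j ((d : ℝ) + 1 / ((n : ℝ) + 1))) (V_closed h k j _)
      (V_ne h k j hd hd' (by linarith [e1 n]))
  choose g' P' Q' hg' hPQ' hgV' hV' using fun n : ℕ =>
    GCD ι (V h k j ((d : ℝ) + 1 + 1 / ((n : ℝ) + 1))) (V_closed h k j _)
      (V_ne h k j hd hd' (by linarith [e1 n]))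
  have hOb : ∀ a, Ob h k j d a → (d : ℝ) + 1 ≤ kd (famR h k j) a := by
    rintro a ⟨Q0, v, α, β, hQ, h1, h2, h3, h4⟩
    have h5 := LOW G K L ι h k j a Q0 (nb k j Q0) v α β (fun i hi => by
      simp only [nb, Finset.mem_filter, Finset.mem_univ, true_and]
      exact ⟨i, hi, rfl⟩) h1 h2 h3 h4
    have h6 : (Q0.card : ℝ) = (nb k j Q0).card + d := by
      unfold Ti at hQ
      exact_mod_cast hQ
    rw [h6] at h5
    linarith
  refine ⟨g 0, fun m => if m % 2 = 0 then P (m / 2) else P' (m / 2),
    fun m => if m % 2 = 0 then Q (m / 2) else Q' (m / 2), hg 0, ?_, ?_, hOb, ?_⟩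
  · intro m
    show IsRelPrime (if m % 2 = 0 then P (m / 2) else P' (m / 2))
      (if m % 2 = 0 then Q (m / 2) else Q' (m / 2))
    split_ifs
    · exact hPQ _
    · exact hPQ' _
  · intro a ha
    obtain ⟨π, hπ, hπg, hπa⟩ := exists_factor (hg 0) ha
    exact claim1' h k j SC HOM MULTI LB htf hd hd' hπ
      (t := (d : ℝ) + 1 / (((0 : ℕ) : ℝ) + 1)) (by linarith [e1 0]) (fun b hb => hgV 0 b (by
        obtain ⟨c, hc⟩ := hπg
        rw [hc, map_mul, hb, zero_mul])) a hπa
  · intro n a hor
    rcases hor with ⟨h1, h2⟩ | h1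
    · rcases hV n a h2 with h3 | ⟨h3, h4⟩
      · obtain ⟨π, hπ, hπg, hπa⟩ := exists_factor (hg n) h3
        have h4 := hOb a (claim1' h k j SC HOM MULTI LB htf hd hd' hπ
          (t := (d : ℝ) + 1 / ((n : ℝ) + 1)) (by linarith [e1 n]) (fun b hb => hgV n b (by
            obtain ⟨c, hc⟩ := hπg
            rw [hc, map_mul, hb, zero_mul])) a hπa)
        have h5 : a ∈ V h k j ((d : ℝ) + 1 / (((0 : ℕ) : ℝ) + 1)) := by
          show (d : ℝ) + 1 / (((0 : ℕ) : ℝ) + 1) ≤ kd (famR h k j) a
          simpa using h4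
        rcases hV 0 a h5 with h6 | ⟨h6, h7⟩
        · exact absurd h6 h1
        · exact ⟨0, by omega, h6, h7⟩
      · refine ⟨2 * n, by omega, ?_, ?_⟩
        · show eval a (if 2 * n % 2 = 0 then P (2 * n / 2) else P' (2 * n / 2)) = 0
          rw [if_pos (by omega), Nat.mul_div_cancel_left _ (by norm_num)]
          exact h3
        · show eval a (if 2 * n % 2 = 0 then Q (2 * n / 2) else Q' (2 * n / 2)) = 0
          rw [if_pos (by omega), Nat.mul_div_cancel_left _ (by norm_num)]
          exact h4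
    · rcases hV' n a h1 with h3 | ⟨h3, h4⟩
      · obtain ⟨π, hπ, hπg, hπa⟩ := exists_factor (hg' n) h3
        exact (claim2 h k j PERT AV hd hd' hπ (e1 n) (fun b hb => hgV' n b (by
            obtain ⟨c, hc⟩ := hπg
            rw [hc, map_mul, hb, zero_mul]))).elim
      · have e2 : (2 * n + 1) / 2 = n := by omega
        refine ⟨2 * n + 1, by omega, ?_, ?_⟩
        · show eval a (if (2 * n + 1) % 2 = 0 then P ((2 * n + 1) / 2)
            else P' ((2 * n + 1) / 2)) = 0
          rw [if_neg (by omega), e2]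
          exact h3
        · show eval a (if (2 * n + 1) % 2 = 0 then Q ((2 * n + 1) / 2)
            else Q' ((2 * n + 1) / 2)) = 0
          rw [if_neg (by omega), e2]
          exact h4

end Pool.Agent.N17.CO
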