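import Pool.Agent.N17.CO.Stm

/-!
# Project CO (helper17), part MULTI: from single rows to all rows (by helper273)
-/

set_option autoImplicit false

open MvPolynomial

namespace Pool.Agent.N17.CO

theorem t_MULTI : S_MULTI := by
  intro K ι _ _ _ k π h
  choose r hr using h
  refine ⟨r, fun ρ a => ?_⟩
  have key : ∀ (T : Finset K) (a : ι → ℂ),
      eval (fun i => (if k i ∈ T then ρ (k i) else 1) * a i) π =
        (∏ x ∈ T, ρ x ^ r x) * eval a π := by
    intro T
    induction T using Finset.induction_on with
    | empty =>
      intro a
      simp
    | insert x0 T hx ih =>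
      intro a
      have e : (fun i => (if k i ∈ insert x0 T then ρ (k i) else 1) * a i) =
          fun i => (if k i = x0 then ρ x0 else 1) *
            ((if k i ∈ T then ρ (k i) else 1) * a i) := by
        funext i
        by_cases h1 : k i = x0
        · rw [h1]
          simp [hx]
        · simp [h1]
      rw [e, hr x0 (ρ x0), ih, Finset.prod_insert hx, mul_assoc]
  have := key Finset.univ a
  simpa using this

end Pool.Agent.N17.CO
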