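import Pool.Agent.N17.CO.Stm

/-!
# CO-PERT (project CO, helper17): a change of one coefficient changes the dimension by at most one

Written by helper216.
-/

set_option autoImplicit false

namespace Pool.Agent.N17.CO

open MvPolynomial Pool.Agent.W649.ZL

theorem t_PERT : S_PERT := by
  intro G K L ι _ _ _ _ _ _ _ h k j a i t
  set T := lin (famR h k j) a with hT
  set T' := lin (famR h k j) (Function.update a i t) with hT'
  have hTe : Eqv T := lin_eqv _ (famR_eqv h k j) a
  have hTe' : Eqv T' := lin_eqv _ (famR_eqv h k j) _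
  set P : Submodule ℂ (EE G K) := LinearMap.ker (T' : EE G K →ₗ[ℂ] EE G L) with hP
  have hPc : IsClosed (P : Set (EE G K)) := by
    have : (P : Set (EE G K)) = T' ⁻¹' {0} := by
      ext F
      rfl
    rw [this]
    exact isClosed_singleton.preimage T'.continuous
  have h1 := rank_nullity T hTe (U := P) (inv_ker T' hTe') hPc
  have h2 : vd (P ⊓ LinearMap.ker (T : EE G K →ₗ[ℂ] EE G L)) ≤
      vd (LinearMap.ker (T : EE G K →ₗ[ℂ] EE G L)) := vd_mono inf_le_right
  have h3 : P.map (T : EE G K →ₗ[ℂ] EE G L) ≤ cosub G {j i} := by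
    rintro _ ⟨F, hF, rfl⟩
    have hF0 : T' F = 0 := hF
    intro x y hy
    have hy' : y ≠ j i := fun h => hy (by rw [h]; exact Finset.mem_singleton_self _)
    have h4 : T' F (x, y) = 0 := by rw [hF0]; rfl
    change T F (x, y) = 0
    rw [hT', lin_famR_apply] at h4
    rw [hT, lin_famR_apply, ← h4]
    refine Finset.sum_congr rfl fun i' _ => ?_
    by_cases hi : i' = i
    · subst hi
      rw [if_neg hy', mul_zero, mul_zero]
    · rw [Function.update_of_ne hi]
  have h5 : vd (P.map (T : EE G K →ₗ[ℂ] EE G L)) ≤ 1 := by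
    have h6 := vd_mono h3
    rw [vd_cosub, Finset.card_singleton, Nat.cast_one] at h6
    exact h6
  change vd P ≤ vd (LinearMap.ker (T : EE G K →ₗ[ℂ] EE G L)) + 1
  linarith

end Pool.Agent.N17.CO
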