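import Pool.Agent.N17.CO.Stm

set_option autoImplicit false

/-!
Project CO (helper17), piece POLY (helper999): the degeneration argument.
-/

namespace Pool.Agent.N17.CO

namespace POLY

/-- restriction of a polynomial to a line -/
theorem line {ι : Type} (π : MvPolynomial ι ℂ) (α β : ι → ℂ) :
    ∃ q : Polynomial ℂ, ∀ y : ℂ, q.eval y = MvPolynomial.eval (α + y • β) π := by
  refine ⟨MvPolynomial.aeval (fun i => Polynomial.C (α i) + Polynomial.C (β i) * Polynomial.X) π,
    fun y => ?_⟩
  have h : (Polynomial.aeval y : Polynomial ℂ →ₐ[ℂ] ℂ)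
      (MvPolynomial.aeval (fun i => Polynomial.C (α i) + Polynomial.C (β i) * Polynomial.X) π) =
      MvPolynomial.aeval (fun i => Polynomial.aeval y
        (Polynomial.C (α i) + Polynomial.C (β i) * Polynomial.X)) π := by
    rw [← AlgHom.comp_apply, MvPolynomial.comp_aeval]
  rw [Polynomial.coe_aeval_eq_eval] at h
  rw [h, MvPolynomial.aeval_eq_eval]
  congr 2
  funext i
  rw [Polynomial.eval_add, Polynomial.eval_mul, Polynomial.eval_C, Polynomial.eval_C,
    Polynomial.eval_X, Pi.add_apply, Pi.smul_apply, smul_eq_mul, mul_comm (β i)]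

end POLY

theorem t_POLY : S_POLY := by
  intro ι _ π w u v R hR hhom hne
  obtain ⟨q, hq⟩ := POLY.line π (w + u) v
  have hdeg : q.degree = 0 := by
    by_contra h
    obtain ⟨x, hx⟩ := IsAlgClosed.exists_root q h
    apply hne x
    rw [← hq]
    exact hx
  have hc : ∀ y : ℂ, MvPolynomial.eval (w + u + y • v) π = q.coeff 0 := by
    intro y
    rw [← hq]
    conv_lhs => rw [Polynomial.eq_C_of_degree_eq_zero hdeg]
    rw [Polynomial.eval_C]
  obtain ⟨p, hp⟩ := POLY.line π (w + v) u
  have hpq : p = Polynomial.C (q.coeff 0) * Polynomial.X ^ R := by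
    apply Polynomial.eq_of_infinite_eval_eq
    refine (Set.finite_singleton (0 : ℂ)).infinite_compl.mono fun x hx => ?_
    have hx0 : x ≠ 0 := hx
    have h1 := hhom x 1 (1 / x)
    rw [mul_one, mul_one_div_cancel hx0, one_smul, one_smul, hc] at h1
    show p.eval x = _
    rw [hp, Polynomial.eval_mul, Polynomial.eval_C, Polynomial.eval_pow, Polynomial.eval_X,
      mul_comm, ← h1]
    congr 2
    funext i
    simp only [Pi.add_apply, Pi.smul_apply]
    ring
  have h2 := hp 0
  rw [zero_smul, add_zero, hpq, Polynomial.eval_mul, Polynomial.eval_pow, Polynomial.eval_X,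
    zero_pow hR.ne', mul_zero] at h2
  exact h2.symm

end Pool.Agent.N17.CO
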