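import Pool.Agent.N17.CO.Stm

/-!
# CO/POT: potentials on a labelled graph
-/

set_option autoImplicit false

namespace Pool.Agent.N17.CO

namespace POT

variable {V E G : Type} {s t : E → V}

theorem walk_append (W1 W2 : List E) : ∀ (x y : V), Walk s t x (W1 ++ W2) y ↔
    ∃ z, Walk s t x W1 z ∧ Walk s t z W2 y := by
  induction W1 with
  | nil =>
    intro x y
    simp [Walk]
  | cons e W ih =>
    intro x y
    simp only [List.cons_append, Walk, ih]
    constructor
    · rintro ⟨h1, z, h2, h3⟩
      exact ⟨z, ⟨h1, h2⟩, h3⟩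
    · rintro ⟨z, ⟨h1, h2⟩, h3⟩
      exact ⟨h1, z, h2, h3⟩

theorem split (s : E → V) (W : List E) (h : ¬ (W.map s).Nodup) :
    ∃ (W1 : List E) (e : E) (W2 : List E) (e' : E) (W3 : List E),
      W = W1 ++ (e :: W2) ++ (e' :: W3) ∧ s e = s e' := by
  induction W with
  | nil => exact absurd List.nodup_nil h
  | cons a W ih =>
    by_cases h1 : (W.map s).Nodup
    · have h2 : s a ∈ W.map s := by
        by_contra hcon
        exact h (by simpa using ⟨by simpa using hcon, h1⟩)
      obtain ⟨e', he', hs⟩ := List.mem_map.1 h2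
      obtain ⟨W2, W3, rfl⟩ := List.append_of_mem he'
      exact ⟨[], a, W2, e', W3, by simp, hs.symm⟩
    · obtain ⟨W1, e, W2, e', W3, rfl, hs⟩ := ih h1
      exact ⟨a :: W1, e, W2, e', W3, by simp, hs⟩

theorem closed_prod [Group G] (l : E → G)
    (H : ∀ (x : V) (W : List E), Walk s t x W x → (W.map s).Nodup → (W.map l).prod = 1) :
    ∀ (n : ℕ) (x : V) (W : List E), W.length ≤ n → Walk s t x W x → (W.map l).prod = 1 := by
  intro n
  induction n with
  | zero =>
    intro x W hW _
    have : W = [] := List.length_eq_zero_iff.1 (by omega)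
    subst this
    simp
  | succ n ih =>
    intro x W hW hwalk
    by_cases hnd : (W.map s).Nodup
    · exact H x W hwalk hnd
    · obtain ⟨W1, e, W2, e', W3, rfl, hs⟩ := split s W hnd
      obtain ⟨z2, h1, h2⟩ := (walk_append _ _ _ _).1 hwalk
      obtain ⟨z1, h3, h4⟩ := (walk_append _ _ _ _).1 h1
      have e1 : s e = z1 := h4.1
      have e2 : s e' = z2 := h2.1
      have e3 : z1 = z2 := by rw [← e1, ← e2, hs]
      subst e3
      simp only [List.length_append, List.length_cons] at hW
      have c1 := ih z1 (e :: W2) (by simp only [List.length_cons]; omega) h4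
      have c2 := ih x (W1 ++ (e' :: W3))
        (by simp only [List.length_append, List.length_cons]; omega)
        ((walk_append _ _ _ _).2 ⟨z1, h3, h2⟩)
      rw [List.map_append, List.prod_append] at c2
      rw [List.map_append, List.prod_append, List.map_append, List.prod_append, c1, mul_one, c2]

end POT

open POT in
theorem t_POT : S_POT := by
  intro V E G _ s t l H
  classical
  have hcl : ∀ (x : V) (W : List E), Walk s t x W x → (W.map l).prod = 1 :=
    fun x W h => closed_prod l H W.length x W le_rfl h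
  let r : Setoid V :=
    { r := fun x y => (∃ W, Walk s t x W y) ∧ ∃ W, Walk s t y W x
      iseqv :=
        { refl := fun x => ⟨⟨[], rfl⟩, ⟨[], rfl⟩⟩
          symm := fun h => ⟨h.2, h.1⟩
          trans := by
            rintro x y z ⟨⟨W1, h1⟩, W2, h2⟩ ⟨⟨W3, h3⟩, W4, h4⟩
            exact ⟨⟨W1 ++ W3, (walk_append _ _ _ _).2 ⟨y, h1, h3⟩⟩,
              ⟨W4 ++ W2, (walk_append _ _ _ _).2 ⟨y, h4, h2⟩⟩⟩ } }
  let b : V → V := fun x => (Quotient.mk r x).out
  have hb : ∀ x, (∃ W, Walk s t (b x) W x) ∧ ∃ W, Walk s t x W (b x) := fun x =>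
    Quotient.mk_out (s := r) x
  choose Wx hWx using fun x => (hb x).1
  refine ⟨fun x => ((Wx x).map l).prod, ?_⟩
  rintro e ⟨W, hW⟩
  have hrel : r (s e) (t e) := ⟨⟨[e], rfl, rfl⟩, W, hW⟩
  have hbb : b (s e) = b (t e) := by
    show (Quotient.mk r (s e)).out = (Quotient.mk r (t e)).out
    rw [Quotient.sound hrel]
  obtain ⟨W', hW'⟩ := (hb (t e)).2
  have c1 := hcl (b (t e)) (Wx (t e) ++ W') ((walk_append _ _ _ _).2 ⟨t e, hWx (t e), hW'⟩)
  have c2 := hcl (b (s e)) (Wx (s e) ++ (e :: W'))
    ((walk_append _ _ _ _).2 ⟨s e, hWx (s e), rfl, by rw [hbb]; exact hW'⟩)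
  rw [List.map_append, List.prod_append] at c1 c2
  rw [List.map_cons, List.prod_cons] at c2
  have c3 : ((Wx (s e)).map l).prod * l e = ((Wx (t e)).map l).prod := by
    apply mul_right_cancel (b := (W'.map l).prod)
    rw [mul_assoc, c2, c1]
  show l e = ((Wx (s e)).map l).prod⁻¹ * ((Wx (t e)).map l).prod
  rw [← c3]
  group

end Pool.Agent.N17.CO
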