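import Pool.Agent.N17.CO.Stm

/-!
# Project CO, part SC (helper713): rows and columns may be scaled
-/

set_option autoImplicit false
set_option linter.unusedSectionVars false

namespace Pool.Agent.N17.CO

open MvPolynomial Pool.Agent.W649.ZL

namespace SC

variable {G K L ι : Type} [Group G] [Fintype K] [Fintype L] [DecidableEq K] [DecidableEq L]
  [Fintype ι]

/-- multiplication of the coordinates by `ρ` -/
noncomputable def D (G : Type) {K : Type} [Group G] [Fintype K] [DecidableEq K] (ρ : K → ℂ) :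
    EE G K →L[ℂ] EE G K := lin (famR (fun _ : K => (1 : G)) id id) ρ

lemma D_apply (ρ : K → ℂ) (F : EE G K) (u : G) (y : K) : D G ρ F (u, y) = ρ y * F (u, y) := by
  unfold D
  rw [lin_famR_apply, Finset.sum_eq_single y]
  · simp
  · intro i _ hi
    rw [if_neg (fun h => hi h.symm), mul_zero]
  · intro h; exact absurd (Finset.mem_univ y) h

lemma D_eqv (ρ : K → ℂ) : Eqv (D G ρ) := lin_eqv _ (famR_eqv _ _ _) ρ

lemma D_ker {ρ : K → ℂ} (hρ : ∀ x, ρ x ≠ 0) :
    LinearMap.ker (D G ρ : EE G K →ₗ[ℂ] EE G K) = ⊥ := by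
  rw [eq_bot_iff]
  intro f hf
  have hf' : D G ρ f = 0 := hf
  rw [Submodule.mem_bot]
  ext ⟨u, y⟩
  have h1 := D_apply ρ f u y
  rw [hf'] at h1
  have h2 : ρ y * f (u, y) = 0 := h1.symm
  exact (mul_eq_zero.1 h2).resolve_left (hρ y)

lemma le_ (h : ι → G) (k : ι → K) (j : ι → L) (ρ : K → ℂ) (σ : L → ℂ) (a : ι → ℂ)
    (hρ : ∀ x, ρ x ≠ 0) (hσ : ∀ y, σ y ≠ 0) :
    kd (famR h k j) (fun i => ρ (k i) * σ (j i) * a i) ≤ kd (famR h k j) a := by
  have hmap : (LinearMap.ker (lin (famR h k j) (fun i => ρ (k i) * σ (j i) * a i) :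
      EE G K →ₗ[ℂ] EE G L)).map (D G ρ : EE G K →ₗ[ℂ] EE G K) ≤
      LinearMap.ker (lin (famR h k j) a : EE G K →ₗ[ℂ] EE G L) := by
    rintro _ ⟨f, hf, rfl⟩
    have hf' : lin (famR h k j) (fun i => ρ (k i) * σ (j i) * a i) f = 0 := hf
    change lin (famR h k j) a (D G ρ f) = 0
    ext ⟨u, y⟩
    have h1 := lin_famR_apply h k j (fun i => ρ (k i) * σ (j i) * a i) f u y
    rw [hf'] at h1
    have h2 : ∑ i, ρ (k i) * σ (j i) * a i * (if y = j i then f (h i * u, k i) else 0) = 0 :=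
      h1.symm
    rw [lin_famR_apply]
    have h3 : σ y * ∑ i, a i * (if y = j i then (D G ρ f) (h i * u, k i) else 0) = 0 := by
      rw [← h2, Finset.mul_sum]
      refine Finset.sum_congr rfl fun i _ => ?_
      by_cases hy : y = j i
      · rw [if_pos hy, if_pos hy, D_apply, hy]
        ring
      · rw [if_neg hy, if_neg hy]
        ring
    exact (mul_eq_zero.1 h3).resolve_left (hσ y)
  have h1 := rank_nullity (D G ρ) (D_eqv ρ)
    (inv_ker (lin (famR h k j) (fun i => ρ (k i) * σ (j i) * a i)) (lin_eqv _ (famR_eqv _ _ _) _))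
    (ContinuousLinearMap.isClosed_ker _)
  rw [D_ker hρ, inf_bot_eq, vd_bot, zero_add] at h1
  unfold kd
  rw [h1]
  exact vd_mono hmap

end SC

theorem t_SC : S_SC := by
  intro G K L ι _ _ _ _ _ _ h k j ρ σ a hρ hσ
  refine le_antisymm (SC.le_ h k j ρ σ a hρ hσ) ?_
  have h1 := SC.le_ h k j (fun x => (ρ x)⁻¹) (fun y => (σ y)⁻¹)
    (fun i => ρ (k i) * σ (j i) * a i) (fun x => inv_ne_zero (hρ x)) (fun y => inv_ne_zero (hσ y))
  have h2 : (fun i => (ρ (k i))⁻¹ * (σ (j i))⁻¹ * (ρ (k i) * σ (j i) * a i)) = a := by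
    funext i
    have := hρ (k i)
    have := hσ (j i)
    field_simp
  rw [h2] at h1
  exact h1

end Pool.Agent.N17.CO
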