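import Pool.Agent.N17.CO.Stm

set_option autoImplicit false

/-!
# Project CO, part SWAP: exchange along a simple alternating cycle
-/

namespace Pool.Agent.N17.CO

namespace SWAP

theorem walk_list {V E : Type} (s t : E → V) : ∀ (W : List E) (x y : V), Walk s t x W y →
    x :: W.map t = W.map s ++ [y]
  | [], x, y, h => by
    have h' : x = y := h
    simp [h']
  | e :: W, x, y, h => by
    obtain ⟨h1, h2⟩ : s e = x ∧ Walk s t (t e) W y := h
    have ih := walk_list s t W (t e) y h2
    simp only [List.map_cons, List.cons_append]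
    rw [ih, h1]

theorem walk_perm {V E : Type} (s t : E → V) (W : List E) (x : V) (h : Walk s t x W x) :
    (W.map t).Perm (W.map s) := by
  have h1 := walk_list s t W x x h
  have h2 : (x :: W.map t).Perm (x :: W.map s) := by
    rw [h1]; exact List.perm_append_singleton x (W.map s)
  exact List.Perm.cons_inv h2

end SWAP

open SWAP in
theorem t_SWAP : S_SWAP := by
  classical
  intro K L ι _ k j U μ hM tg x0 W hW hwalk hnd
  have hperm := walk_perm k tg W x0 hwalk
  have hndt : (W.map tg).Nodup := hperm.nodup_iff.2 hnd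
  have hinjk : ∀ e ∈ W, ∀ e' ∈ W, k e = k e' → e = e' := fun e he e' he' h =>
    List.inj_on_of_nodup_map hnd he he' h
  have hinjt : ∀ e ∈ W, ∀ e' ∈ W, tg e = tg e' → e = e' := fun e he e' he' h =>
    List.inj_on_of_nodup_map hndt he he' h
  have hts : ∀ e ∈ W, ∃ e' ∈ W, k e' = tg e := by
    intro e he
    have : tg e ∈ W.map k := hperm.mem_iff.1 (List.mem_map_of_mem he)
    obtain ⟨e', he', h⟩ := List.mem_map.1 this
    exact ⟨e', he', h⟩
  set μ' : K → ι := fun x => if h : ∃ e ∈ W, k e = x then h.choose else μ x with hμ'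
  have h1 : ∀ e ∈ W, μ' (k e) = e := by
    intro e he
    have hex : ∃ e' ∈ W, k e' = k e := ⟨e, he, rfl⟩
    simp only [hμ']
    rw [dif_pos hex]
    exact hinjk _ hex.choose_spec.1 e he hex.choose_spec.2
  have h2 : ∀ y, (∀ i ∈ W, k i ≠ y) → μ' y = μ y := by
    intro y hy
    simp only [hμ']
    rw [dif_neg]
    rintro ⟨e, he, h⟩
    exact hy e he h
  refine ⟨μ', ⟨?_, ?_⟩, h1, h2⟩
  · intro x hx
    by_cases hex : ∃ e ∈ W, k e = x
    · obtain ⟨e, he, rfl⟩ := hex
      rw [h1 e he]
    · push Not at hex
      rw [h2 x hex]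
      exact hM.row x hx
  · intro x y hx hy hxy
    by_cases hex : ∃ e ∈ W, k e = x
    · obtain ⟨e, he, rfl⟩ := hex
      rw [h1 e he, (hW e he).2.2] at hxy
      by_cases hey : ∃ e' ∈ W, k e' = y
      · obtain ⟨e', he', rfl⟩ := hey
        rw [h1 e' he', (hW e' he').2.2] at hxy
        have := hM.inj _ _ (hW e he).2.1 (hW e' he').2.1 hxy
        rw [hinjt e he e' he' this]
      · push Not at hey
        rw [h2 y hey] at hxy
        have := hM.inj _ _ (hW e he).2.1 hy hxy
        obtain ⟨e', he', h⟩ := hts e he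
        exact absurd (h.trans this) (hey e' he')
    · push Not at hex
      rw [h2 x hex] at hxy
      by_cases hey : ∃ e' ∈ W, k e' = y
      · obtain ⟨e', he', rfl⟩ := hey
        rw [h1 e' he', (hW e' he').2.2] at hxy
        have := hM.inj _ _ hx (hW e' he').2.1 hxy
        obtain ⟨e'', he'', h⟩ := hts e' he'
        exact absurd (h.trans this.symm) (hex e'' he'')
      · push Not at hey
        rw [h2 y hey] at hxy
        exact hM.inj _ _ hx hy hxy

end Pool.Agent.N17.CO

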