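import Pool.Agent.W649.ZL.Generic

set_option autoImplicit false

/-!
# Project CO: the Atiyah conjecture in codimension one, for torsion-free groups

`kd (famR h k j) a` (library `Pool.Agent.W649.ZL`) is the von Neumann dimension of the kernel of right
multiplication, on row vectors over `ℓ²(G)`, by the matrix `∑ i, a i • h i` at the place `(k i, j i)`
(rows `K`, columns `L`). Statements of the pieces.
-/

namespace Pool.Agent.N17.CO

open MvPolynomial Pool.Agent.W649.ZL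

section Defs
variable {K L ι : Type} [Fintype K] [Fintype L] [DecidableEq K] [DecidableEq L] [Fintype ι]

open Classical in
/-- the columns adjacent to the rows in `S` -/
noncomputable def nb (k : ι → K) (j : ι → L) (S : Finset K) : Finset L :=
  Finset.univ.filter (fun y : L => ∃ i, k i ∈ S ∧ j i = y)

/-- the deficiency is at most `d` -/
def Df (k : ι → K) (j : ι → L) (d : ℕ) : Prop := ∀ S : Finset K, S.card ≤ (nb k j S).card + d

/-- tight sets of rows -/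
def Ti (k : ι → K) (j : ι → L) (d : ℕ) (S : Finset K) : Prop := S.card = (nb k j S).card + d

/-- diagonal edges: every tight set with the column of `i` in its neighbourhood contains the row
of `i` -/
def Dg (k : ι → K) (j : ι → L) (d : ℕ) (i : ι) : Prop :=
  ∀ S : Finset K, Ti k j d S → j i ∈ nb k j S → k i ∈ S

omit [Fintype K] [Fintype L] [DecidableEq K] [DecidableEq L] [Fintype ι] in
/-- `μ` matches the rows outside `U` with different columns -/
structure Mt (k : ι → K) (j : ι → L) (U : Finset K) (μ : K → ι) : Prop where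
  row : ∀ x, x ∉ U → k (μ x) = x
  inj : ∀ x y, x ∉ U → y ∉ U → j (μ x) = j (μ y) → x = y

/-- the degrees are compatible with all the maximum matchings -/
def Cp (k : ι → K) (j : ι → L) (d : ℕ) (r : K → ℕ) (s : L → ℕ) : Prop :=
  ∀ (U : Finset K) (μ : K → ι), U.card = d → Mt k j U μ →
    (∀ x, x ∈ U → r x = 0) ∧ (∀ x, x ∉ U → r x = s (j (μ x))) ∧
      ∀ y, (∀ x, x ∉ U → j (μ x) ≠ y) → s y = 0

/-- `π` is homogeneous of degree `r x` in the variables of the row `x` and of degree `s y` in the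
variables of the column `y` (with `0 ^ 0 = 1`) -/
def Hg (k : ι → K) (j : ι → L) (π : MvPolynomial ι ℂ) (r : K → ℕ) (s : L → ℕ) : Prop :=
  ∀ (ρ : K → ℂ) (σ : L → ℂ) (a : ι → ℂ), eval (fun i => ρ (k i) * σ (j i) * a i) π =
    (∏ x, ρ x ^ r x) * (∏ y, σ y ^ s y) * eval a π

end Defs

/-- directed walks: edges `E`, sources `s`, targets `t` -/
def Walk {V E : Type} (s t : E → V) : V → List E → V → Prop
  | x, [], y => x = y
  | x, e :: W, y => s e = x ∧ Walk s t (t e) W y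

/-! ## Functional analysis -/

/-- SC: rows and columns may be scaled. -/
def S_SC : Prop := ∀ (G K L ι : Type) [Group G] [Fintype K] [Fintype L] [DecidableEq K]
  [DecidableEq L] [Fintype ι] (h : ι → G) (k : ι → K) (j : ι → L) (ρ : K → ℂ) (σ : L → ℂ)
  (a : ι → ℂ), (∀ x, ρ x ≠ 0) → (∀ y, σ y ≠ 0) →
  kd (famR h k j) (fun i => ρ (k i) * σ (j i) * a i) = kd (famR h k j) a

/-- PERT: a change of one coefficient changes the dimension by at most one. -/
def S_PERT : Prop := ∀ (G K L ι : Type) [Group G] [Fintype K] [Fintype L] [DecidableEq K]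
  [DecidableEq L] [Fintype ι] [DecidableEq ι] (h : ι → G) (k : ι → K) (j : ι → L) (a : ι → ℂ)
  (i : ι) (t : ℂ), kd (famR h k j) (Function.update a i t) ≤ kd (famR h k j) a + 1

/-- LOW: a lower bound from a scalar kernel vector. -/
def S_LOW : Prop := ∀ (G K L ι : Type) [Group G] [Fintype K] [Fintype L] [DecidableEq K]
  [DecidableEq L] [Fintype ι] (h : ι → G) (k : ι → K) (j : ι → L) (a : ι → ℂ)
  (Q : Finset K) (N : Finset L) (v : K → ℂ) (α : K → G) (β : L → G),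
  (∀ i, k i ∈ Q → j i ∈ N) → (∀ x ∈ Q, v x = 0) → (∃ x, v x ≠ 0) →
  (∀ i, v (k i) ≠ 0 → j i ∉ N → h i = (α (k i))⁻¹ * β (j i)) →
  (∀ y, y ∉ N → ∑ i, (if j i = y then a i * v (k i) else 0) = 0) →
  (Q.card : ℝ) + 1 - N.card ≤ kd (famR h k j) a

/-- FULL: an upper bound from an invertible scalar matrix. -/
def S_FULL : Prop := ∀ (G K L ι : Type) [Group G] [Fintype K] [Fintype L] [DecidableEq K]
  [DecidableEq L] [Fintype ι] (h : ι → G) (k : ι → K) (j : ι → L) (b : ι → ℂ)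
  (U : Finset K) (μ : K → ι) (α : K → G), Mt k j U μ →
  (∀ i, b i ≠ 0 → k i ∉ U ∧ ∃ y, y ∉ U ∧ j i = j (μ y) ∧
    h i * (h (μ y))⁻¹ = (α (k i))⁻¹ * α y) →
  (∀ v : K → ℂ, (∀ y, y ∉ U → ∑ i, (if j i = j (μ y) then b i * v (k i) else 0) = 0) →
    ∀ x, x ∉ U → v x = 0) →
  kd (famR h k j) b ≤ U.card

open Classical in
/-- CYCK: a matching plus a multiple of a simple alternating cycle whose product has infinite
order. -/
def S_CYCK : Prop := ∀ (G K L ι : Type) [Group G] [Fintype K] [Fintype L] [DecidableEq K]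
  [DecidableEq L] [Fintype ι] (h : ι → G) (k : ι → K) (j : ι → L) (U : Finset K) (μ : K → ι),
  Mt k j U μ → ∀ (tg : ι → K) (x0 : K) (W : List ι),
  (∀ i ∈ W, k i ∉ U ∧ tg i ∉ U ∧ j i = j (μ (tg i)) ∧ i ≠ μ (k i)) → Walk k tg x0 W x0 →
  (W.map k).Nodup → ¬ IsOfFinOrder (W.map (fun i => h i * (h (μ (tg i)))⁻¹)).prod →
  ∀ t : ℂ, kd (famR h k j) (fun i => if i ∈ W then t else if (∃ x, x ∉ U ∧ i = μ x) then 1 else 0)
    ≤ U.card

/-! ## Polynomials -/

/-- GCD: a Zariski closed set is a hypersurface together with a set of codimension two. -/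
def S_GCD : Prop := ∀ (ι : Type) [Fintype ι] (V : Set (ι → ℂ)),
  zeroLocus ℂ (vanishingIdeal ℂ V) = V → V ≠ Set.univ → ∃ g P Q : MvPolynomial ι ℂ,
    g ≠ 0 ∧ IsRelPrime P Q ∧ (∀ a, eval a g = 0 → a ∈ V) ∧
    ∀ a ∈ V, eval a g = 0 ∨ (eval a P = 0 ∧ eval a Q = 0)

/-- HOM: an irreducible polynomial all of whose rescalings vanish only where `f` vanishes is
homogeneous. -/
def S_HOM : Prop := ∀ (ι : Type) [Fintype ι] (π f : MvPolynomial ι ℂ) (w : ι → ℕ),
  Irreducible π → f ≠ 0 →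
  (∀ c : ℂ, c ≠ 0 → ∀ a : ι → ℂ, eval (fun i => c ^ w i * a i) π = 0 → eval a f = 0) →
  ∃ r : ℕ, ∀ (c : ℂ) (a : ι → ℂ), eval (fun i => c ^ w i * a i) π = c ^ r * eval a π

/-- MULTI: from single rows to all rows. -/
def S_MULTI : Prop := ∀ (K ι : Type) [Fintype K] [DecidableEq K] [Fintype ι] (k : ι → K)
  (π : MvPolynomial ι ℂ),
  (∀ x, ∃ r : ℕ, ∀ (c : ℂ) (a : ι → ℂ),
    eval (fun i => (if k i = x then c else 1) * a i) π = c ^ r * eval a π) →
  ∃ r : K → ℕ, ∀ (ρ : K → ℂ) (a : ι → ℂ),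
    eval (fun i => ρ (k i) * a i) π = (∏ x, ρ x ^ r x) * eval a π

/-- AV: a point outside countably many hypersurfaces and a zero of `π` on a coordinate line
through it. -/
def S_AV : Prop := ∀ (ι : Type) [Fintype ι] [DecidableEq ι] (π : MvPolynomial ι ℂ),
  Irreducible π → ∀ P : ℕ → MvPolynomial ι ℂ, (∀ n, P n ≠ 0) →
  ∃ (b : ι → ℂ) (i : ι) (t : ℂ), eval (Function.update b i t) π = 0 ∧ ∀ n, eval b (P n) ≠ 0

/-- POLY: the degeneration argument. -/
def S_POLY : Prop := ∀ (ι : Type) [Fintype ι] (π : MvPolynomial ι ℂ) (w u v : ι → ℂ) (R : ℕ),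
  0 < R → (∀ c x y : ℂ, eval (w + (c * x) • u + (c * y) • v) π =
    c ^ R * eval (w + x • u + y • v) π) →
  (∀ y : ℂ, eval (w + u + y • v) π ≠ 0) → eval (w + v) π = 0

/-- COUNT: integral points of sets of codimension two. -/
def S_COUNT : Prop := ∀ (ι : Type) [Fintype ι] (P Q : MvPolynomial ι ℂ), IsRelPrime P Q →
  ∃ C : ℕ, ∀ N : ℕ, Set.ncard {a : ι → ℤ | (∀ i, |a i| ≤ N) ∧
    eval (fun i => (a i : ℂ)) P = 0 ∧ eval (fun i => (a i : ℂ)) Q = 0} ≤
      C * (N + 1) ^ (Fintype.card ι - 2)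

/-! ## Combinatorics -/

/-- POT: if the products over all simple closed walks are trivial, there are potentials. -/
def S_POT : Prop := ∀ (V E G : Type) [Group G] (s t : E → V) (l : E → G),
  (∀ (x : V) (W : List E), Walk s t x W x → (W.map s).Nodup → (W.map l).prod = 1) →
  ∃ α : V → G, ∀ e : E, (∃ W, Walk s t (t e) W (s e)) → l e = (α (s e))⁻¹ * α (t e)

/-- SWAP: exchange along a simple alternating cycle. -/
def S_SWAP : Prop := ∀ (K L ι : Type) [DecidableEq K] (k : ι → K) (j : ι → L) (U : Finset K)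
  (μ : K → ι), Mt k j U μ → ∀ (tg : ι → K) (x0 : K) (W : List ι),
  (∀ i ∈ W, k i ∉ U ∧ tg i ∉ U ∧ j i = j (μ (tg i))) → Walk k tg x0 W x0 → (W.map k).Nodup →
  ∃ μ' : K → ι, Mt k j U μ' ∧ (∀ i ∈ W, μ' (k i) = i) ∧ ∀ y, (∀ i ∈ W, k i ≠ y) → μ' y = μ y

/-- HALL: maximum matchings. -/
def S_HALL : Prop := ∀ (K L ι : Type) [Fintype K] [Fintype L] [DecidableEq K]
  [DecidableEq L] [Fintype ι] [Nonempty ι] (k : ι → K) (j : ι → L) (d : ℕ),
  Df k j d → (∃ S, Ti k j d S) →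
  (∃ (U : Finset K) (μ : K → ι), U.card = d ∧ Mt k j U μ) ∧
  (∀ x, (∀ S, Ti k j d S → x ∈ S) →
    ∃ (U : Finset K) (μ : K → ι), U.card = d ∧ Mt k j U μ ∧ x ∈ U) ∧
  (∀ y, (∀ S, Ti k j d S → y ∉ nb k j S) →
    ∃ (U : Finset K) (μ : K → ι), U.card = d ∧ Mt k j U μ ∧ ∀ x, x ∉ U → j (μ x) ≠ y) ∧
  ∀ i, Dg k j d i →
    ∃ (U : Finset K) (μ : K → ι), U.card = d ∧ Mt k j U μ ∧ k i ∉ U ∧ μ (k i) = i

/-- TIGHT: properties of tight sets. -/
def S_TIGHT : Prop := ∀ (K L ι : Type) [Fintype K] [Fintype L] [DecidableEq K]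
  [DecidableEq L] [Fintype ι] (k : ι → K) (j : ι → L) (d : ℕ), Df k j d →
  (∀ S T, Ti k j d S → Ti k j d T → Ti k j d (S ∪ T)) ∧
  ∀ (U : Finset K) (μ : K → ι), U.card = d → Mt k j U μ → ∀ S, Ti k j d S →
    U ⊆ S ∧ (∀ y ∈ nb k j S, ∃ x ∈ S, x ∉ U ∧ j (μ x) = y) ∧
      ∀ x, x ∉ U → j (μ x) ∈ nb k j S → x ∈ S

/-- CONN: the diagonal edges with positive degree are on closed walks of such edges. -/
def S_CONN : Prop := ∀ (K L ι : Type) [Fintype K] [Fintype L] [DecidableEq K]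
  [DecidableEq L] [Fintype ι] (k : ι → K) (j : ι → L) (d : ℕ) (r : K → ℕ) (s : L → ℕ),
  Df k j d → (∃ S, Ti k j d S) → Cp k j d r s →
  ∀ (U : Finset K) (μ : K → ι), U.card = d → Mt k j U μ → ∀ (tg : ι → K),
  (∀ i, Dg k j d i → 0 < r (k i) → tg i ∉ U ∧ j i = j (μ (tg i))) →
  ∀ i, Dg k j d i → 0 < r (k i) →
    ∃ W : List ι, (∀ e ∈ W, Dg k j d e ∧ 0 < r (k e)) ∧ Walk k tg (tg i) W (k i)

/-- IND: only the diagonal variables in rows of positive degree matter. -/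
def S_IND : Prop := ∀ (K L ι : Type) [Fintype K] [Fintype L] [DecidableEq K]
  [DecidableEq L] [Fintype ι] (k : ι → K) (j : ι → L) (d : ℕ) (r : K → ℕ) (s : L → ℕ)
  (π : MvPolynomial ι ℂ), Hg k j π r s → Df k j d → Cp k j d r s →
  ∀ (U : Finset K) (μ : K → ι), U.card = d → Mt k j U μ → ∀ a b : ι → ℂ,
  (∀ i, Dg k j d i → 0 < r (k i) → a i = b i) → eval a π = eval b π

/-! ## Assembly -/

/-- CP: the degrees of a polynomial which does not vanish where the dimension is `d`. -/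
def S_CP : Prop := ∀ (G K L ι : Type) [Group G] [Fintype K] [Fintype L] [DecidableEq K]
  [DecidableEq L] [Fintype ι] (h : ι → G) (k : ι → K) (j : ι → L) (d : ℕ) (π : MvPolynomial ι ℂ)
  (r : K → ℕ) (s : L → ℕ), Hg k j π r s → (∀ a, kd (famR h k j) a ≤ d → eval a π ≠ 0) →
  Cp k j d r s

/-- A3: the products over the simple alternating cycles in rows of positive degree are trivial. -/
def S_A3 : Prop := ∀ (G K L ι : Type) [Group G] [Fintype K] [Fintype L] [DecidableEq K]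
  [DecidableEq L] [Fintype ι] (h : ι → G) (k : ι → K) (j : ι → L) (d : ℕ) (π : MvPolynomial ι ℂ)
  (r : K → ℕ) (s : L → ℕ), (∀ g : G, g ≠ 1 → ¬ IsOfFinOrder g) → Hg k j π r s →
  (∀ a, kd (famR h k j) a ≤ d → eval a π ≠ 0) →
  ∀ (U : Finset K) (μ : K → ι), U.card = d → Mt k j U μ → ∀ (tg : ι → K) (x0 : K) (W : List ι),
  (∀ i ∈ W, k i ∉ U ∧ tg i ∉ U ∧ j i = j (μ (tg i)) ∧ 0 < r (k i)) → Walk k tg x0 W x0 →
  (W.map k).Nodup → (W.map (fun i => h i * (h (μ (tg i)))⁻¹)).prod = 1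

/-- LB: the lower bound on hypersurfaces. -/
def S_LB : Prop := ∀ (G K L ι : Type) [Group G] [Fintype K] [Fintype L] [DecidableEq K]
  [DecidableEq L] [Fintype ι] (h : ι → G) (k : ι → K) (j : ι → L) (d : ℕ) (π : MvPolynomial ι ℂ)
  (r : K → ℕ) (s : L → ℕ), (∀ g : G, g ≠ 1 → ¬ IsOfFinOrder g) → Df k j d →
  (∃ S, Ti k j d S) → Nonempty ι → Hg k j π r s →
  (∀ a, kd (famR h k j) a ≤ d → eval a π ≠ 0) →
  ∀ a, eval a π = 0 → (d : ℝ) + 1 ≤ kd (famR h k j) a

/-- MAIN: the codimension one theorem. -/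
def S_MAIN : Prop := ∀ (G K L ι : Type) [Group G] [Fintype K] [Fintype L] [DecidableEq K]
  [DecidableEq L] [Fintype ι] (h : ι → G) (k : ι → K) (j : ι → L) (d : ℕ),
  (∀ g : G, g ≠ 1 → ¬ IsOfFinOrder g) → Df k j d → (∃ S, Ti k j d S) →
  ∃ (D : MvPolynomial ι ℂ) (P Q : ℕ → MvPolynomial ι ℂ), D ≠ 0 ∧ (∀ n, IsRelPrime (P n) (Q n)) ∧
    (∀ a, eval a D = 0 → (d : ℝ) + 1 ≤ kd (famR h k j) a) ∧
    ∀ (n : ℕ) (a : ι → ℂ), (eval a D ≠ 0 ∧ (d : ℝ) + 1 / ((n : ℝ) + 1) ≤ kd (famR h k j) a) ∨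
      ((d : ℝ) + 1 + 1 / ((n : ℝ) + 1) ≤ kd (famR h k j) a) →
      ∃ m ≤ 2 * n + 2, eval a (P m) = 0 ∧ eval a (Q m) = 0

end Pool.Agent.N17.CO
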