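import Pool.Agent.N17.CO.Stm

set_option autoImplicit false

/-!
# CO/TIGHT: properties of tight sets
-/

namespace Pool.Agent.N17.CO

namespace TIGHT

variable {K L ι : Type} [Fintype K] [Fintype L] [DecidableEq K] [DecidableEq L] [Fintype ι]

omit [Fintype K] in
theorem mem_nb (k : ι → K) (j : ι → L) (S : Finset K) (y : L) :
    y ∈ nb k j S ↔ ∃ i, k i ∈ S ∧ j i = y := by
  classical
  simp [nb]

theorem nb_union (k : ι → K) (j : ι → L) (S T : Finset K) :
    nb k j (S ∪ T) = nb k j S ∪ nb k j T := by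
  ext y
  rw [Finset.mem_union, mem_nb, mem_nb, mem_nb]
  constructor
  · rintro ⟨i, hi, e⟩
    rcases Finset.mem_union.1 hi with h | h
    · exact Or.inl ⟨i, h, e⟩
    · exact Or.inr ⟨i, h, e⟩
  · rintro (⟨i, hi, e⟩ | ⟨i, hi, e⟩)
    · exact ⟨i, Finset.mem_union_left _ hi, e⟩
    · exact ⟨i, Finset.mem_union_right _ hi, e⟩

theorem nb_inter (k : ι → K) (j : ι → L) (S T : Finset K) :
    nb k j (S ∩ T) ⊆ nb k j S ∩ nb k j T := by
  intro y hy
  rw [mem_nb] at hy
  obtain ⟨i, hi, e⟩ := hy
  rw [Finset.mem_inter, mem_nb, mem_nb]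
  exact ⟨⟨i, (Finset.mem_inter.1 hi).1, e⟩, ⟨i, (Finset.mem_inter.1 hi).2, e⟩⟩

end TIGHT

open TIGHT in
theorem t_TIGHT : S_TIGHT := by
  intro K L ι _ _ _ _ _ k j d hD
  constructor
  · intro S T hS hT
    unfold Ti at hS hT ⊢
    have h1 := hD (S ∪ T)
    have h2 := hD (S ∩ T)
    have h3 := Finset.card_union_add_card_inter S T
    have h4 := Finset.card_union_add_card_inter (nb k j S) (nb k j T)
    have h5 := Finset.card_le_card (nb_inter k j S T)
    rw [← nb_union] at h4
    omega
  · intro U μ hU hμ S hS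
    unfold Ti at hS
    have hinj : Set.InjOn (fun x => j (μ x)) (S \ U : Finset K) := by
      intro x hx y hy e
      have hx' := (Finset.mem_sdiff.1 (Finset.mem_coe.1 hx)).2
      have hy' := (Finset.mem_sdiff.1 (Finset.mem_coe.1 hy)).2
      exact hμ.inj x y hx' hy' e
    have himg : (S \ U).image (fun x => j (μ x)) ⊆ nb k j S := by
      intro y hy
      obtain ⟨x, hx, rfl⟩ := Finset.mem_image.1 hy
      have hx' := Finset.mem_sdiff.1 hx
      rw [mem_nb]
      exact ⟨μ x, by rw [hμ.row x hx'.2]; exact hx'.1, rfl⟩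
    have hcard : ((S \ U).image (fun x => j (μ x))).card = (S \ U).card :=
      Finset.card_image_of_injOn hinj
    have h1 := Finset.card_le_card himg
    have h2 := Finset.card_sdiff_add_card_inter S U
    have h3 : (S ∩ U).card ≤ U.card := Finset.card_le_card Finset.inter_subset_right
    have h4 : (S ∩ U).card = U.card := by omega
    have h5 : S ∩ U = U := Finset.eq_of_subset_of_card_le Finset.inter_subset_right h4.ge
    have hUS : U ⊆ S := Finset.inter_eq_right.1 h5
    have h6 : (S \ U).image (fun x => j (μ x)) = nb k j S :=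
      Finset.eq_of_subset_of_card_le himg (by omega)
    refine ⟨hUS, fun y hy => ?_, fun x hx hy => ?_⟩
    · rw [← h6] at hy
      obtain ⟨x, hx, e⟩ := Finset.mem_image.1 hy
      have hx' := Finset.mem_sdiff.1 hx
      exact ⟨x, hx'.1, hx'.2, e⟩
    · rw [← h6] at hy
      obtain ⟨x', hx', e⟩ := Finset.mem_image.1 hy
      have hx'' := Finset.mem_sdiff.1 hx'
      rw [← hμ.inj x' x hx''.2 hx e]
      exact hx''.1

end Pool.Agent.N17.CO
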